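import Pool.Agent.H770BR.Defs
import Pool.Agent.H502.BkFinal
set_option autoImplicit false

namespace Pool.Agent.H770BR
open Function Pool.Agent.H502.Bk Pool.Agent.H502.Bk.W

theorem BSO_eq (hinv : T_inv) (V : PV) : BSO V = BS V := by
  ext S
  constructor
  · rintro ⟨h1, h2, h3⟩
    exact ⟨h1, h3, (hinv S h1).1 h2⟩
  · rintro ⟨h1, h2, h3⟩
    exact ⟨h1, (hinv S h1).2 h3, h2⟩

theorem assembly (hinv : T_inv) (hco : T_co) (hreal : T_real) (hdec0 : T_dec0) (hdecS : T_decS)
    (hsmall : T_small) (hshp : T_shp) (hhp : T_hp) (hhs : T_hs) (hhps : T_hps) (hshps : T_shps)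
    (hhsp : T_hsp) (hcomp : T_comp) (V : PV) (hV : V.DecUniv) (l : List Op) :
    DecClass (app l (BSO V)) := by
  rw [BSO_eq hinv V]
  obtain ⟨m, hm0, hm⟩ := hreal V
  obtain ⟨c1, c2, c3, c4⟩ := hcomp m
  obtain ⟨iΦ', h_eq', sh_eq'⟩ := hsmall V
  have shp_eq' := hshp V
  let Φ := BS V
  have iΦ : IsoC Φ := iΦ'
  have d0 : DecClass Φ := hdec0 V hV
  have dH : DecClass (opH Φ) := by
    show DecClass (opH (BS V))
    rw [h_eq']; exact dec_union_one d0
  have dS : DecClass (opS Φ) := hdecS V hV
  have dP : DecClass (opP Φ) := dec_P d0 iΦ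
  have dPH : DecClass (opP (opH Φ)) := dec_P dH (IsoC_H _)
  have dPS : DecClass (opP (opS Φ)) := dec_P dS (IsoC_S _)
  have dHS : DecClass (opH (opS Φ)) := dec_H dS (IsoC_S _) c1 (hhs hco V m hm)
  have dPHS : DecClass (opP (opH (opS Φ))) := dec_P dHS (IsoC_H _)
  have dHP : DecClass (opH (opP Φ)) := dec_H dP (IsoC_P _) comp_hpB' (hhp V)
  have dHPS : DecClass (opH (opP (opS Φ))) := dec_H dPS (IsoC_P _) c2 (hhps hco V m hm)
  have gSP : ∀ X : Set FinSg, DecClass (opP (opS X)) → DecClass (opS (opP X)) := by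
    intro X hX
    have e : opS (opP X) = opS (opP (opS X)) := by
      apply subset_antisymm
      · exact opS_mono (opP_mono (opS_incr X))
      · exact (opS_mono (PS_le X)).trans (opS_idem _).subset
    rw [e]
    refine dec_S hX (IsoC_P _) comp_spB ?_
    intro B hB
    rw [← e] at hB
    exact sp_bd X B hB
  have dSP : DecClass (opS (opP Φ)) := gSP Φ dPS
  have dSPHS : DecClass (opS (opP (opH (opS Φ)))) := by
    apply gSP
    have e : opS (opH (opS Φ)) = opH (opS Φ) := by
      apply subset_antisymm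
      · refine (SH_le _).trans ?_
        rw [opS_idem]
      · exact opS_incr _
    rw [e]
    exact dPHS
  have dSHPS : DecClass (opS (opH (opP (opS Φ)))) :=
    dec_S dHPS (IsoC_H _) c3 (hshps hco V m hm)
  have dHSP : DecClass (opH (opS (opP Φ))) :=
    dec_H dSP (IsoC_S _) c4 (hhsp hco V m hm)
  -- the laws of the operator calculus
  have HPH : ∀ X, opH (opP (opH X)) = opH (opP X) := fun X => subset_antisymm
    ((opH_mono (PH_le X)).trans (opH_idem _).subset) (opH_mono (opP_mono (opH_incr X)))
  have HSH : ∀ X, opH (opS (opH X)) = opH (opS X) := fun X => subset_antisymm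
    ((opH_mono (SH_le X)).trans (opH_idem _).subset) (opH_mono (opS_mono (opH_incr X)))
  have SPS : ∀ X, opS (opP (opS X)) = opS (opP X) := fun X => subset_antisymm
    ((opS_mono (PS_le X)).trans (opS_idem _).subset) (opS_mono (opP_mono (opS_incr X)))
  have SHS : ∀ X, opS (opH (opS X)) = opH (opS X) := fun X => subset_antisymm
    ((SH_le _).trans (opH_mono (opS_idem X).subset)) (opS_incr _)
  have PHP : ∀ X, opP (opH (opP X)) = opH (opP X) := fun X => subset_antisymm
    ((PH_le _).trans (opH_mono (opP_idem X).subset)) (opP_incr _)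
  have PSP : ∀ X, opP (opS (opP X)) = opS (opP X) := fun X => subset_antisymm
    ((PS_le _).trans (opS_mono (opP_idem X).subset)) (opP_incr _)
  have HSPH : ∀ X, opH (opS (opP (opH X))) = opH (opS (opP X)) := fun X => subset_antisymm
    ((opH_mono ((opS_mono (PH_le X)).trans (SH_le _))).trans (opH_idem _).subset)
    (opH_mono (opS_mono (opP_mono (opH_incr X))))
  have SPH : opS (opP (opH Φ)) = opS (opP Φ) := by
    show opS (opP (opH (BS V))) = opS (opP (BS V))
    rw [← SPS (opH (BS V)), sh_eq', SPS]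
  let L : Set (Set FinSg) := {Φ, opH Φ, opS Φ, opP Φ, opP (opH Φ), opP (opS Φ), opH (opS Φ),
    opP (opH (opS Φ)), opH (opP Φ), opH (opP (opS Φ)), opS (opP Φ), opS (opH (opP (opS Φ))),
    opS (opP (opH (opS Φ))), opH (opS (opP Φ))}
  have hL : ∀ X ∈ L, DecClass X := by
    intro X hX
    simp only [L, Set.mem_insert_iff, Set.mem_singleton_iff] at hX
    rcases hX with h | h | h | h | h | h | h | h | h | h | h | h | h | h <;> rw [h] <;> assumption
  have hH : ∀ X ∈ L, opH X ∈ L := by
    intro X hX
    simp only [L, Set.mem_insert_iff, Set.mem_singleton_iff] at hX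
    rcases hX with h | h | h | h | h | h | h | h | h | h | h | h | h | h <;> rw [h]
    · simp [L]
    · rw [opH_idem]; simp [L]
    · simp [L]
    · simp [L]
    · rw [HPH]; simp [L]
    · simp [L]
    · rw [opH_idem]; simp [L]
    · rw [HPH]; simp [L]
    · rw [opH_idem]; simp [L]
    · rw [opH_idem]; simp [L]
    · simp [L]
    · rw [HSH, SPS]; simp [L]
    · rw [HSPH, SPS]; simp [L]
    · rw [opH_idem]; simp [L]
  have hS : ∀ X ∈ L, opS X ∈ L := by
    intro X hX
    simp only [L, Set.mem_insert_iff, Set.mem_singleton_iff] at hX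
    rcases hX with h | h | h | h | h | h | h | h | h | h | h | h | h | h <;> rw [h]
    · simp [L]
    · rw [sh_eq']; simp [L, Φ]
    · rw [opS_idem]; simp [L]
    · simp [L]
    · rw [SPH]; simp [L]
    · rw [SPS]; simp [L]
    · rw [SHS]; simp [L]
    · simp [L]
    · rw [shp_eq']; simp [L, Φ]
    · simp [L]
    · rw [opS_idem]; simp [L]
    · rw [opS_idem]; simp [L]
    · rw [opS_idem]; simp [L]
    · rw [SHS]; simp [L]
  have hP : ∀ X ∈ L, opP X ∈ L := by
    intro X hX
    simp only [L, Set.mem_insert_iff, Set.mem_singleton_iff] at hX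
    rcases hX with h | h | h | h | h | h | h | h | h | h | h | h | h | h <;> rw [h]
    · simp [L]
    · simp [L]
    · simp [L]
    · rw [opP_idem]; simp [L]
    · rw [opP_idem]; simp [L]
    · rw [opP_idem]; simp [L]
    · simp [L]
    · rw [opP_idem]; simp [L]
    · rw [PHP]; simp [L]
    · rw [PHP]; simp [L]
    · rw [PSP]; simp [L]
    · have e : opP (opS (opH (opP (opS Φ)))) = opS (opH (opP (opS Φ))) := subset_antisymm
        ((PS_le _).trans (opS_mono (PHP _).subset)) (opP_incr _)
      rw [e]; simp [L]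
    · rw [PSP]; simp [L]
    · have e : opP (opH (opS (opP Φ))) = opH (opS (opP Φ)) := subset_antisymm
        ((PH_le _).trans (opH_mono (PSP _).subset)) (opP_incr _)
      rw [e]; simp [L]
  have key : app l Φ ∈ L := by
    induction l with
    | nil => simp [L, app]
    | cons o l ih =>
      cases o
      · exact hH _ ih
      · exact hS _ ih
      · exact hP _ ih
  exact hL _ key

end Pool.Agent.H770BR
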