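import Pool.Agent.H770BR.Defs
set_option autoImplicit false

namespace Pool.Agent.H770BR
open Function Pool.Agent.H502.Bk Pool.Agent.H502.Bk.W

theorem comp_powPrim : Primrec₂ (fun a b : ℕ => a ^ b) := by
  refine (Primrec.nat_rec (f := fun _ : ℕ => 1) (g := fun a (p : ℕ × ℕ) => p.2 * a)
    (Primrec.const 1) ?_).of_eq ?_
  · exact (Primrec.nat_mul.comp (Primrec.snd.comp Primrec.snd) Primrec.fst)
  · intro a n
    induction n with
    | zero => rfl
    | succ n ih => rw [pow_succ, ← ih]

theorem comp_pow {f g : ℕ → ℕ} (hf : Primrec f) (hg : Primrec g) :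
    Primrec fun n => f n ^ g n := comp_powPrim.comp hf hg

theorem comp_mul {f g : ℕ → ℕ} (hf : Primrec f) (hg : Primrec g) :
    Primrec fun n => f n * g n := Primrec.nat_mul.comp hf hg

theorem comp_add {f g : ℕ → ℕ} (hf : Primrec f) (hg : Primrec g) :
    Primrec fun n => f n + g n := Primrec.nat_add.comp hf hg

theorem comp_gB (m : ℕ) {f g : ℕ → ℕ} (hf : Primrec f) (hg : Primrec g) :
    Primrec fun n => gB m (f n) (g n) := by
  unfold gB
  exact comp_mul (comp_pow (Primrec.const m) (comp_mul hf hf))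
    (comp_pow (comp_pow hg hg) hf)

theorem comp_mB (m : ℕ) {f g : ℕ → ℕ} (hf : Primrec f) (hg : Primrec g) :
    Primrec fun n => mB m (f n) (g n) := by
  unfold mB
  exact comp_add (comp_mul (comp_add hf hf)
    (comp_mul (comp_gB m hf hg) (comp_add hf hf))) (Primrec.const 1)

theorem comp_kB (m : ℕ) {f g : ℕ → ℕ} (hf : Primrec f) (hg : Primrec g) :
    Primrec fun n => kB m (f n) (g n) := by
  unfold kB
  have h3 : Primrec fun n => 3 * f n := comp_mul (Primrec.const 3) hf
  exact comp_mB m h3 (comp_mul h3 (comp_add hg (Primrec.const 1)))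

theorem comp_NQ {f : ℕ → ℕ} (hf : Primrec f) : Primrec fun n => NQ (f n) := by
  unfold NQ
  exact comp_mul (comp_pow (Primrec.const 2) hf)
    (comp_pow (Primrec.const 2) (comp_mul (comp_add hf hf) (comp_add hf hf)))

theorem comp_qQ : Primrec qQ := by
  have hid : Primrec (fun n : ℕ => n) := Primrec.id
  have : Primrec fun n : ℕ => n + n ^ (n ^ NQ n) * n :=
    comp_add hid (comp_mul (comp_pow hid (comp_pow hid (comp_NQ hid))) hid)
  exact this

/-- Task `T_comp`. -/
theorem t_comp : T_comp := by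
  intro m
  have hid : Primrec (fun n : ℕ => n) := Primrec.id
  refine ⟨?_, ?_, ?_, ?_⟩
  · exact (comp_kB m hid hid : Primrec (hsQ m)).to_comp
  · exact (comp_pow (comp_kB m hid comp_qQ) (comp_NQ hid) : Primrec (hpsQ m)).to_comp
  · exact (comp_pow (comp_kB m hid (comp_add hid (comp_mul hid hid))) (comp_NQ hid) :
      Primrec (shpsQ m)).to_comp
  · exact (comp_pow (comp_kB m hid (comp_add hid (Primrec.const 1))) (comp_NQ hid) :
      Primrec (hspQ m)).to_comp

end Pool.Agent.H770BR
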