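import Pool.Agent.H770BR.Defs
import Pool.Agent.H502.BkJ_dec_SZ
import Pool.Agent.H502.BkJ_dec_S
import Pool.Agent.H502.BkJ_opS_idem
import Pool.Agent.H502.BkJ_rm_allSub
set_option autoImplicit false

/-!
# `T_decS` (helper2)
-/

namespace Pool.Agent.H770BR
open Function Pool.Agent.H502.Bk Pool.Agent.H502.Bk.W

namespace DecS

/-- local units -/
def LU (T : Type) [Semigroup T] : Prop :=
  ∀ t : T, ∃ e f : T, e * e = e ∧ f * f = f ∧ e * t = t ∧ t * f = t

/-- the auxiliary class -/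
def XS (V : PV) : Set FinSg := {T | T ∈ opS (ZSO V) ∧ LU T ∧ IC T}

/-! ### the table check -/

def Qt (n : ℕ) (l : List ℕ) : Prop :=
  (∀ t < n, ¬ ∀ e < n, ∀ f < n, ¬ (tmul n l e e = e ∧ tmul n l f f = f ∧ tmul n l e t = t ∧
    tmul n l t f = t)) ∧
  (∀ e < n, ∀ f < n, tmul n l e e = e → tmul n l f f = f → tmul n l e f = tmul n l f e)

theorem Qt_iff {n : ℕ} {l : List ℕ} (h : IsTable n l) :
    Qt n l ↔ LU (tableSg n l h) ∧ IC (tableSg n l h) := by
  unfold Qt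
  constructor
  · rintro ⟨h1, h2⟩
    constructor
    · intro (t : Fin n)
      have h3 := h1 t t.2
      push Not at h3
      obtain ⟨e, he, f, hf, a1, a2, a3, a4⟩ := h3
      exact ⟨(⟨e, he⟩ : Fin n), (⟨f, hf⟩ : Fin n), Fin.ext a1, Fin.ext a2, Fin.ext a3,
        Fin.ext a4⟩
    · intro (e : Fin n) (f : Fin n) he hf
      exact Fin.ext (h2 e e.2 f f.2 (congrArg Fin.val he) (congrArg Fin.val hf))
  · rintro ⟨h1, h2⟩
    constructor
    · intro t ht hh
      obtain ⟨e, f, a1, a2, a3, a4⟩ := h1 (⟨t, ht⟩ : Fin n)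
      exact hh (Fin.val (n := n) e) (Fin.isLt (n := n) e) (Fin.val (n := n) f)
        (Fin.isLt (n := n) f) ⟨congrArg Fin.val a1, congrArg Fin.val a2, congrArg Fin.val a3,
          congrArg Fin.val a4⟩
    · intro e he f hf h3 h4
      exact congrArg Fin.val (h2 (⟨e, he⟩ : Fin n) (⟨f, hf⟩ : Fin n) (Fin.ext h3) (Fin.ext h4))

open Pool.Agent.H502.Bk.J11715 in
theorem Qt_prim : PrimrecPred fun x : ℕ × List ℕ => Qt x.1 x.2 := by
  let F1 : Fm352 := .all (.v 0) (.not (.all (.v 0) (.all (.v 0) (.not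
    (.and (.eq (mt352 (.v 2) (.v 2)) (.v 2)) (.and (.eq (mt352 (.v 3) (.v 3)) (.v 3))
      (.and (.eq (mt352 (.v 2) (.v 1)) (.v 1)) (.eq (mt352 (.v 1) (.v 3)) (.v 1)))))))))
  let F2 : Fm352 := .all (.v 0) (.all (.v 0) (.imp (.eq (mt352 (.v 1) (.v 1)) (.v 1))
    (.imp (.eq (mt352 (.v 2) (.v 2)) (.v 2)) (.eq (mt352 (.v 1) (.v 2)) (mt352 (.v 2) (.v 1))))))
  have h1 := (Fm352.and F1 F2).prim
  have h2 : Primrec fun x : ℕ × List ℕ => ((x.2, [x.1]) : List ℕ × List ℕ) :=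
    Primrec.snd.pair (Primrec.list_cons.comp Primrec.fst (Primrec.const []))
  refine (h1.comp h2).of_eq ?_
  rintro ⟨n, l⟩
  simp [F1, F2, Fm352.ho, Tm352.ev, mt352, tmul, Qt]

theorem dec_XS (V : PV) (hV : V.DecUniv) : DecClass (XS V) := by
  refine (J11145.dec_S_and (dec_SZ V hV) (J11145.dec_S_prim Qt_prim)).of_eq ?_
  rintro ⟨n, l⟩
  constructor
  · rintro ⟨⟨h, h1⟩, h2⟩
    exact ⟨h, h1, (Qt_iff h).1 h2⟩
  · rintro ⟨h, h1, h2⟩
    exact ⟨⟨h, h1⟩, (Qt_iff h).2 h2⟩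

theorem isoC_XS (V : PV) : IsoC (XS V) := by
  rintro A ⟨h1, h2, h3⟩ B ⟨e⟩
  refine ⟨IsoC_S _ A h1 B ⟨e⟩, ?_, ?_⟩
  · intro t
    obtain ⟨a, b, e1, e2, e3, e4⟩ := h2 (e.symm t)
    refine ⟨e a, e b, ?_, ?_, ?_, ?_⟩
    · rw [← map_mul, e1]
    · rw [← map_mul, e2]
    · apply e.symm.injective
      rw [map_mul, e.symm_apply_apply, e3]
    · apply e.symm.injective
      rw [map_mul, e.symm_apply_apply, e4]
  · intro a b ha hb
    apply e.symm.injective
    rw [map_mul, map_mul]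
    apply h3
    · rw [← map_mul, ha]
    · rw [← map_mul, hb]

/-! ### from `BS` to `XS` -/

section up
variable {V : PV} {C : Type} [Semigroup C] {z : C}

/-- the image of `B`, with zero and local units -/
def up (hz : ZS z) (k : Co V z) {B : Type} [Semigroup B] (f : B →ₙ* C) : Subsemigroup C where
  carrier := {c | c = z ∨ (∃ b, c = f b) ∨ ∃ b, f b ≠ z ∧ (c = k.L (f b) ∨ c = k.R (f b))}
  mul_mem' := by
    intro a b ha hb
    by_cases hab : a * b = z
    · exact Or.inl hab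
    have hid : ∀ c, (∃ b, f b ≠ z ∧ (c = k.L (f b) ∨ c = k.R (f b))) → c * c = c := by
      rintro c ⟨b, hb, rfl | rfl⟩
      · exact (k.Lid _ hb).2.1
      · exact (k.Rid _ hb).2.1
    have ha' := ha
    have hb' := hb
    rcases ha with ha | ⟨x, ha⟩ | ha
    · exact absurd (by rw [ha]; exact (hz.1 b).1) hab
    · rcases hb with hb | ⟨y, hb⟩ | hb
      · exact absurd (by rw [hb]; exact (hz.1 a).2) hab
      · exact Or.inr (Or.inl ⟨x * y, by rw [ha, hb, map_mul]⟩)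
      · rw [k.rid a b (hid b hb) hab]
        exact ha'
    · rw [k.lid b a (hid a ha) hab]
      exact hb'

theorem up_card (hz : ZS z) (k : Co V z) {B : Type} [Semigroup B] [Finite B] (f : B →ₙ* C) :
    Nat.card (up hz k f) ≤ 3 * Nat.card B + 1 := by
  classical
  let F : Option (B ⊕ B ⊕ B) → C := fun o => match o with
    | none => z
    | some (Sum.inl b) => f b
    | some (Sum.inr (Sum.inl b)) => k.L (f b)
    | some (Sum.inr (Sum.inr b)) => k.R (f b)
  have hF : ∀ c : up hz k f, ∃ o, F o = c.1 := by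
    rintro ⟨c, h | ⟨b, h⟩ | ⟨b, -, h | h⟩⟩
    · exact ⟨none, h.symm⟩
    · exact ⟨some (Sum.inl b), h.symm⟩
    · exact ⟨some (Sum.inr (Sum.inl b)), h.symm⟩
    · exact ⟨some (Sum.inr (Sum.inr b)), h.symm⟩
  choose o ho using hF
  have hinj : Injective o := by
    intro c c' h
    apply Subtype.ext
    rw [← ho c, ← ho c', h]
  have h1 := Nat.card_le_card_of_injective o hinj
  refine h1.trans (le_of_eq ?_)
  have := Fintype.ofFinite B
  simp only [Nat.card_eq_fintype_card, Fintype.card_option, Fintype.card_sum]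
  ring

end up

theorem up_main (hco : T_co) (V : PV) (B : FinSg) (hB : B ∈ opS (BS V)) :
    ∃ T ∈ XS V, Nat.card T ≤ 3 * Nat.card B + 1 ∧ ∃ f : B →ₙ* T, Injective f := by
  obtain ⟨C, ⟨hC1, hC2, hC3⟩, f, hf⟩ := hB
  obtain ⟨z, hz⟩ := zs_of_zeroSimple hC1
  obtain ⟨k⟩ := hco V C z hz hC3 hC2
  let U := up hz k f
  have hUz : z ∈ U := Or.inl rfl
  let T : FinSg := ⟨U, inferInstance, inferInstance, ⟨⟨z, hUz⟩⟩⟩
  refine ⟨T, ⟨⟨C, ⟨hC1, hC2⟩, MulMemClass.subtype U, ?_⟩, ?_, ?_⟩, up_card hz k f, ?_⟩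
  · intro a b h
    exact Subtype.ext h
  · rintro ⟨t, ht⟩
    have hid : ∀ c (hc : c ∈ U), c * c = c → ∃ e f : U, e * e = e ∧ f * f = f ∧
        e * ⟨c, hc⟩ = ⟨c, hc⟩ ∧ ⟨c, hc⟩ * f = ⟨c, hc⟩ := by
      intro c hc h
      exact ⟨⟨c, hc⟩, ⟨c, hc⟩, Subtype.ext h, Subtype.ext h, Subtype.ext h, Subtype.ext h⟩
    rcases ht with h | ⟨b, h⟩ | ⟨b, hb, h | h⟩
    · exact hid t _ (by rw [h]; exact (hz.1 z).1)
    · by_cases h0 : t = z
      · exact hid t _ (by rw [h0]; exact (hz.1 z).1)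
      · have h0' : f b ≠ z := by rw [← h]; exact h0
        refine ⟨⟨k.L (f b), Or.inr (Or.inr ⟨b, h0', Or.inl rfl⟩)⟩,
          ⟨k.R (f b), Or.inr (Or.inr ⟨b, h0', Or.inr rfl⟩)⟩,
          Subtype.ext (k.Lid _ h0').2.1, Subtype.ext (k.Rid _ h0').2.1,
          Subtype.ext ?_, Subtype.ext ?_⟩
        · show k.L (f b) * t = t
          rw [h]; exact (k.Lid _ h0').2.2
        · show t * k.R (f b) = t
          rw [h]; exact (k.Rid _ h0').2.2
    · exact hid t _ (by rw [h]; exact (k.Lid _ hb).2.1)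
    · exact hid t _ (by rw [h]; exact (k.Rid _ hb).2.1)
  · rintro ⟨a, ha⟩ ⟨b, hb⟩ h1 h2
    exact Subtype.ext (hC3 a b (congrArg Subtype.val h1) (congrArg Subtype.val h2))
  · refine ⟨⟨fun b => (⟨f b, Or.inr (Or.inl ⟨b, rfl⟩)⟩ : U), fun a b =>
      Subtype.ext (map_mul f a b)⟩, ?_⟩
    intro a b h
    exact hf (congrArg Subtype.val h)

/-! ### from `XS` to `BS` -/

section down
variable {C : Type} [Semigroup C] {z : C}

theorem prim_idem [Finite C] (hz : ZS z) {c e : C} (hc : c * c = c) (hc0 : c ≠ z)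
    (h1 : e * c = c) (h2 : c * e = c) : c = e := by
  have h3 : e * c ≠ z := by rw [h1]; exact hc0
  obtain ⟨d, hd⟩ := hz.right_inv h3
  rw [h1] at hd
  calc c = c * e := h2.symm
    _ = c * (c * d) := by rw [hd]
    _ = c * d := by rw [← mul_assoc, hc]
    _ = e := hd

/-- the subsemigroup spanned by a set of idempotents -/
def dn (hz : ZS z) (E : C → Prop) (hE : ∀ e, E e → e * e = e) : Subsemigroup C where
  carrier := {c | c = z ∨ ∃ e f, E e ∧ E f ∧ e * c = c ∧ c * f = c}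
  mul_mem' := by
    intro a b ha hb
    rcases ha with rfl | ⟨e, f, he, hf, ha, -⟩
    · exact Or.inl (hz.1 b).1
    rcases hb with rfl | ⟨e', f', he', hf', -, hb⟩
    · exact Or.inl (hz.1 a).2
    exact Or.inr ⟨e, f', he, hf', by rw [← mul_assoc, ha], by rw [mul_assoc, hb]⟩

theorem dn_zs (hz : ZS z) (E : C → Prop) (hE : ∀ e, E e → e * e = e)
    (hE0 : ∀ e, E e → e ≠ z) (hne : ∃ e, E e) :
    ZS (⟨z, Or.inl rfl⟩ : dn hz E hE) := by
  refine ⟨fun x => ⟨Subtype.ext (hz.1 _).1, Subtype.ext (hz.1 _).2⟩, ?_, ?_⟩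
  · obtain ⟨e, he⟩ := hne
    have hm : e ∈ dn hz E hE := Or.inr ⟨e, e, he, he, hE e he, hE e he⟩
    refine ⟨⟨e, hm⟩, ⟨e, hm⟩, fun h => hE0 e he ?_⟩
    have h1 : e * e = z := congrArg Subtype.val h
    rw [← hE e he]; exact h1
  · rintro ⟨a, ha⟩ ha0 ⟨b, hb⟩
    have ha0' : a ≠ z := fun h => ha0 (Subtype.ext h)
    rcases ha with h | ⟨e, f, he, hf, ha1, ha2⟩
    · exact absurd h ha0'
    rcases hb with h | ⟨e', f', he', hf', hb1, hb2⟩
    · refine ⟨⟨z, Or.inl rfl⟩, ⟨z, Or.inl rfl⟩, Subtype.ext ?_⟩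
      show z * a * z = b
      rw [(hz.1 _).2, h]
    obtain ⟨x, y, hxy⟩ := hz.2.2 a ha0' b
    refine ⟨⟨e' * x * e, Or.inr ⟨e', e, he', he, ?_, ?_⟩⟩,
      ⟨f * y * f', Or.inr ⟨f, f', hf, hf', ?_, ?_⟩⟩, Subtype.ext ?_⟩
    · simp only [← mul_assoc]; rw [hE e' he']
    · simp only [mul_assoc]; rw [hE e he]
    · simp only [← mul_assoc]; rw [hE f hf]
    · simp only [mul_assoc]; rw [hE f' hf']
    · show e' * x * e * a * (f * y * f') = b
      calc e' * x * e * a * (f * y * f') = e' * (x * ((e * a) * f) * y) * f' := by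
            simp only [mul_assoc]
        _ = b := by rw [ha1, ha2, hxy, hb1, hb2]

/-- nonzero idempotents of the subsemigroup belong to `E` -/
theorem dn_idem [Finite C] (hz : ZS z) (E : C → Prop) (hE : ∀ e, E e → e * e = e)
    (hE0 : ∀ e, E e → e ≠ z) (hcomm : ∀ e f, E e → E f → e * f = f * e)
    {c : C} (hc : c ∈ dn hz E hE) (hc0 : c ≠ z) (hcc : c * c = c) : E c := by
  rcases hc with h | ⟨e, f, he, hf, h1, h2⟩
  · exact absurd h hc0
  have hfe : f * e ≠ z := by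
    intro h
    apply hc0
    calc c = c * c := hcc.symm
      _ = c * f * (e * c) := by rw [h1, h2]
      _ = c * (f * e) * c := by simp only [mul_assoc]
      _ = z := by rw [h, (hz.1 c).2, (hz.1 c).1]
  have hef : e * f = f * e := hcomm e f he hf
  have hh : (f * e) * (f * e) = f * e := by
    calc (f * e) * (f * e) = f * (e * f) * e := by simp only [mul_assoc]
      _ = (f * f) * (e * e) := by rw [hef]; simp only [mul_assoc]
      _ = f * e := by rw [hE f hf, hE e he]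
  have e1 : f * e = e := by
    apply prim_idem hz hh hfe
    · rw [← mul_assoc, hef, mul_assoc, hE e he]
    · rw [mul_assoc, hE e he]
  have e2 : f * e = f := by
    apply prim_idem hz hh hfe
    · rw [← mul_assoc, hE f hf]
    · rw [mul_assoc, hef, ← mul_assoc, hE f hf]
  have e3 : e = f := e1.symm.trans e2
  have e4 : c = e := prim_idem hz hcc hc0 h1 (by rw [e3]; exact h2)
  rw [e4]; exact he

end down

theorem triv_BS (V : PV) (T : FinSg) (hT : ∀ a b : T, a = b) : T ∈ opS (BS V) := by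
  let P : Unit → Unit → Option Unit := fun _ _ => some ()
  have hzs : ZS (RM.zero P : RM Unit Unit Unit P) :=
    RM.zs (fun i => ⟨(), (), rfl⟩) (fun l => ⟨(), (), rfl⟩)
  let M : FinSg := ⟨RM Unit Unit Unit P, inferInstance, inferInstance, ⟨RM.zero P⟩⟩
  refine ⟨M, ⟨zeroSimple_of_zs hzs, rm_allSub V V.unit P, ?_⟩,
    ⟨fun _ => RM.zero P, fun _ _ => (RM.zero_mul' _).symm⟩, fun a b _ => hT a b⟩
  intro a b _ _
  rcases RM.cases' (P := P) a with h | ⟨⟨⟩, ⟨⟩, ⟨⟩, h⟩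
  · rw [h]; exact (RM.zero_mul' _).trans (RM.mul_zero' _).symm
  rcases RM.cases' (P := P) b with h' | ⟨⟨⟩, ⟨⟩, ⟨⟩, h'⟩
  · rw [h']; exact (RM.mul_zero' _).trans (RM.zero_mul' _).symm
  · rw [h, h']

theorem down_main (V : PV) (T : FinSg) (hT : T ∈ XS V) : T ∈ opS (BS V) := by
  obtain ⟨⟨C, ⟨hC1, hC2⟩, j, hj⟩, hLU, hIC⟩ := hT
  obtain ⟨z, hz⟩ := zs_of_zeroSimple hC1
  by_cases h0 : ∀ t, j t = z
  · exact triv_BS V T fun a b => hj ((h0 a).trans (h0 b).symm)
  push Not at h0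
  obtain ⟨t0, ht0⟩ := h0
  let E : C → Prop := fun c => c ≠ z ∧ ∃ t : T, t * t = t ∧ j t = c
  have hE : ∀ e, E e → e * e = e := by
    rintro e ⟨-, t, ht, rfl⟩
    rw [← map_mul, ht]
  have hE0 : ∀ e, E e → e ≠ z := fun e he => he.1
  have hcomm : ∀ e f, E e → E f → e * f = f * e := by
    rintro e f ⟨-, t, ht, rfl⟩ ⟨-, t', ht', rfl⟩
    rw [← map_mul, ← map_mul, hIC t t' ht ht']
  have hmem : ∀ t, j t ∈ dn hz E hE := by
    intro t
    by_cases h1 : j t = z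
    · exact Or.inl h1
    obtain ⟨e, f, he, hf, h2, h3⟩ := hLU t
    refine Or.inr ⟨j e, j f, ⟨?_, e, he, rfl⟩, ⟨?_, f, hf, rfl⟩, ?_, ?_⟩
    · intro h
      apply h1
      rw [← h2, map_mul, h]; exact (hz.1 _).1
    · intro h
      apply h1
      rw [← h3, map_mul, h]; exact (hz.1 _).2
    · rw [← map_mul, h2]
    · rw [← map_mul, h3]
  have hne : ∃ e, E e := by
    rcases hmem t0 with h | ⟨e, f, he, -⟩
    · exact absurd h ht0
    · exact ⟨e, he⟩
  have hzs := dn_zs hz E hE hE0 hne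
  let M : FinSg := ⟨dn hz E hE, inferInstance, inferInstance, ⟨⟨z, Or.inl rfl⟩⟩⟩
  refine ⟨M, ⟨zeroSimple_of_zs hzs, ?_, ?_⟩, ⟨fun t => (⟨j t, hmem t⟩ : dn hz E hE),
    fun a b => Subtype.ext (map_mul j a b)⟩, ?_⟩
  · exact AllSub.inj (MulMemClass.subtype (dn hz E hE)) (fun a b h => Subtype.ext h) hC2
  · rintro ⟨a, ha⟩ ⟨b, hb⟩ h1 h2
    apply Subtype.ext
    show a * b = b * a
    by_cases ha0 : a = z
    · rw [ha0, (hz.1 b).1, (hz.1 b).2]
    by_cases hb0 : b = z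
    · rw [hb0, (hz.1 a).1, (hz.1 a).2]
    exact hcomm a b (dn_idem hz E hE hE0 hcomm ha ha0 (congrArg Subtype.val h1))
      (dn_idem hz E hE hE0 hcomm hb hb0 (congrArg Subtype.val h2))
  · intro a b h
    exact hj (congrArg Subtype.val h)

theorem eq_XS (hco : T_co) (V : PV) : opS (BS V) = opS (XS V) := by
  apply subset_antisymm
  · intro B hB
    obtain ⟨T, hT, -, f, hf⟩ := up_main hco V B hB
    exact ⟨T, hT, f, hf⟩
  · have h : XS V ⊆ opS (BS V) := fun T hT => down_main V T hT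
    exact (opS_mono h).trans (opS_idem _).subset

end DecS

theorem t_decS : T_co → T_decS := by
  intro hco V hV
  rw [DecS.eq_XS hco V]
  refine dec_S (DecS.dec_XS V hV) (DecS.isoC_XS V) (b := fun n => 3 * n + 1) ?_ ?_
  · exact (Primrec.succ.comp (Primrec.nat_mul.comp (Primrec.const 3) Primrec.id)).to_comp
  · intro B hB
    rw [← DecS.eq_XS hco V] at hB
    exact DecS.up_main hco V B hB

end Pool.Agent.H770BR
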