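import Pool.Agent.H502.BkSk
set_option autoImplicit false

/-!
# Brandt semigroups over a pseudovariety of groups: definitions and interface
-/

namespace Pool.Agent.H770BR
open Function Pool.Agent.H502.Bk Pool.Agent.H502.Bk.W

/-- every element has exactly one inverse -/
def InvSg (S : Type) [Semigroup S] : Prop := ∀ a : S, ∃! b : S, a * b * a = a ∧ b * a * b = b

/-- the class of finite Brandt semigroups (0-simple inverse semigroups) all of whose subgroups
belong to `V` -/
def BSO (V : PV) : Set FinSg := {S | ZeroSimple S ∧ InvSg S ∧ AllSub V S}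

/-- idempotents commute -/
def IC (S : Type) [Semigroup S] : Prop := ∀ e f : S, e * e = e → f * f = f → e * f = f * e

/-- the same class, described with commuting idempotents -/
def BS (V : PV) : Set FinSg := {S | ZeroSimple S ∧ AllSub V S ∧ IC S}

/-- a quiver with edge set contained in `S`: a set of edges, and an equivalence relation on the
set of all sources `inl s` and targets `inr s` -/
abbrev Qv (S : Type) := (S → Prop) × Setoid (S ⊕ S)

/-- the digraph of composable pairs of edges -/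
def dg {S : Type} (q : Qv S) : Dig S := (q.1, fun s t => q.2 (Sum.inr s) (Sum.inl t))

/-- the relation `R` on the paths of the quiver `q` is implied by equality of source, target and
label for a labelling of the edges by a group in `V` -/
def LabQ (V : PV) {S : Type} (q : Qv S) (R : W S → W S → Prop) : Prop :=
  ∃ (G : Type) (_ : Group G) (lb : S → G), V.mem G ∧
    ∀ p p', path (dg q) p → path (dg q) p' → q.2 (Sum.inl (head p)) (Sum.inl (head p')) →
      q.2 (Sum.inr (last p)) (Sum.inr (last p')) → ev lb p = ev lb p' → R p p'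

/-- the same with a bound for the order of the group -/
def LabQB (V : PV) {S : Type} (q : Qv S) (R : W S → W S → Prop) (B : ℕ) : Prop :=
  ∃ (G : Type) (_ : Group G) (lb : S → G), V.mem G ∧ Nat.card G ≤ B ∧
    ∀ p p', path (dg q) p → path (dg q) p' → q.2 (Sum.inl (head p)) (Sum.inl (head p')) →
      q.2 (Sum.inr (last p)) (Sum.inr (last p')) → ev lb p = ev lb p' → R p p'

/-- bound for the realising Brandt semigroup (`n` letters, `c` classes) -/
def kB (m n c : ℕ) : ℕ := mB m (3 * n) (3 * n * (c + 1))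

/-- realisation of right congruences in Brandt semigroups over groups in `V`, of bounded size -/
def RealQB (V : PV) (m : ℕ) : Prop :=
  ∀ (S : Type) [Finite S] [Nonempty S] (q : Qv S) (R : Setoid (W S)),
    (∀ p p' s, R p p' → R (snoc p s) (snoc p' s)) →
    Finite (Quotient R) → LabQ V q (fun p p' => R p p') →
    ∃ (M : FinSg) (g : S → M), M ∈ BS V ∧
      Nat.card M ≤ kB m (Nat.card S) (Nat.card (Quotient R)) ∧
      ∀ w w', ev g w = ev g w' → (path (dg q) w ↔ path (dg q) w') ∧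
        (path (dg q) w → q.2 (Sum.inl (head w)) (Sum.inl (head w')) ∧
          q.2 (Sum.inr (last w)) (Sum.inr (last w')) ∧ R w w')

/-- coordinates of a Brandt semigroup with zero `z` over a group in `V`: `L a`, `R a` are the left
and right idempotent of `a` -/
structure Co (V : PV) {C : Type} [Semigroup C] (z : C) where
  G : Type
  grp : Group G
  mem : V.mem G
  γ : C → G
  L : C → C
  R : C → C
  ne : ∀ a b, a ≠ z → b ≠ z → (a * b ≠ z ↔ R a = L b)
  hL : ∀ a b, a * b ≠ z → L (a * b) = L a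
  hR : ∀ a b, a * b ≠ z → R (a * b) = R b
  hγ : ∀ a b, a * b ≠ z → γ (a * b) = γ a * γ b
  inj : ∀ a b, a ≠ z → b ≠ z → L a = L b → R a = R b → γ a = γ b → a = b
  Lid : ∀ a, a ≠ z → L a ≠ z ∧ L a * L a = L a ∧ L a * a = a
  Rid : ∀ a, a ≠ z → R a ≠ z ∧ R a * R a = R a ∧ a * R a = a
  lid : ∀ a e, e * e = e → e * a ≠ z → e * a = a
  rid : ∀ a e, e * e = e → a * e ≠ z → a * e = a

attribute [instance] Co.grp

/-- the quiver of a family of elements of a Brandt semigroup -/
def Co.q {V : PV} {C : Type} [Semigroup C] {z : C} (k : Co V z) {S : Type} (y : S → C) : Qv S :=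
  (fun s => y s ≠ z, Setoid.ker (Sum.elim (fun s => k.L (y s)) (fun s => k.R (y s))))

section
variable {V : PV} {C : Type} [Semigroup C] {z : C} (k : Co V z) {S : Type} (y : S → C)

theorem Co.q_arc (s t : S) : arc (dg (k.q y)) s t ↔ arc (digOf z y) s t := by
  constructor
  · rintro ⟨h1, h2, h3⟩
    exact ⟨h1, h2, (k.ne _ _ h1 h2).2 h3⟩
  · rintro ⟨h1, h2, h3⟩
    exact ⟨h1, h2, (k.ne _ _ h1 h2).1 h3⟩

theorem Co.q_path (w : W S) : path (dg (k.q y)) w ↔ path (digOf z y) w := by
  induction w with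
  | one s => exact Iff.rfl
  | snoc w t ih => exact and_congr ih (k.q_arc y _ _)

theorem Co.ev_ne [Finite C] (h : ZS z) (w : W S) : ev y w ≠ z ↔ path (dg (k.q y)) w := by
  rw [k.q_path, ev_ne_iff h]

theorem Co.ev_co [Finite C] (h : ZS z) (w : W S) (hw : path (dg (k.q y)) w) :
    k.L (ev y w) = k.L (y (head w)) ∧ k.R (ev y w) = k.R (y (last w)) ∧
      k.γ (ev y w) = ev (fun s => k.γ (y s)) w := by
  induction w with
  | one s => exact ⟨rfl, rfl, rfl⟩
  | snoc w t ih =>
    have h1 : ev y w * y t ≠ z := (k.ev_ne y h (snoc w t)).2 hw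
    obtain ⟨i1, i2, i3⟩ := ih hw.1
    refine ⟨(k.hL _ _ h1).trans i1, k.hR _ _ h1, ?_⟩
    show k.γ (ev y w * y t) = ev (fun s => k.γ (y s)) w * k.γ (y t)
    rw [k.hγ _ _ h1, i3]

theorem Co.labQ [Finite C] (h : ZS z) :
    LabQ V (k.q y) (fun p p' => ev y p = ev y p') := by
  refine ⟨k.G, k.grp, fun s => k.γ (y s), k.mem, fun p p' hp hp' h1 h2 h3 => ?_⟩
  obtain ⟨a1, a2, a3⟩ := k.ev_co y h p hp
  obtain ⟨b1, b2, b3⟩ := k.ev_co y h p' hp'
  refine k.inj _ _ ((k.ev_ne y h p).2 hp) ((k.ev_ne y h p').2 hp') ?_ ?_ ?_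
  · rw [a1, b1]; exact h1
  · rw [a2, b2]; exact h2
  · rw [a3, b3]; exact h3

end

section
variable {S : Type}

/-- the quiver of a word: its letters, and the least equivalence relation for which the word is a
path -/
def qarcs (w : W S) : Qv S :=
  ((arcs w).1, Relation.EqvGen.setoid (fun a b => ∃ s t, (arcs w).2 s t ∧ a = Sum.inr s ∧
    b = Sum.inl t))

theorem qarcs_le_iff {q : Qv S} (w : W S) : qarcs w ≤ q ↔ path (dg q) w := by
  rw [← arcs_le_iff]
  constructor
  · rintro ⟨h1, h2⟩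
    exact ⟨h1, fun s t hst => h2 (Relation.EqvGen.rel _ _ ⟨s, t, hst, rfl, rfl⟩)⟩
  · rintro ⟨h1, h2⟩
    refine ⟨h1, ?_⟩
    show Relation.EqvGen.setoid _ ≤ q.2
    apply Setoid.eqvGen_le
    rintro a b ⟨s, t, hst, rfl, rfl⟩
    exact h2 s t hst

theorem qpath_mono {q q' : Qv S} (h : q ≤ q') {w : W S} (hw : path (dg q) w) :
    path (dg q') w := (qarcs_le_iff w).1 (((qarcs_le_iff w).2 hw).trans h)

theorem qpath_self (w : W S) : path (dg (qarcs w)) w := (qarcs_le_iff w).1 le_rfl

/-- bound for the number of quivers -/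
def NQ (n : ℕ) : ℕ := 2 ^ n * 2 ^ ((n + n) * (n + n))

instance [Finite S] : Finite (Qv S) := by
  have h : Injective (fun q : Setoid (S ⊕ S) => (fun a b => q a b : S ⊕ S → S ⊕ S → Prop)) := by
    intro q q' h
    ext a b
    exact iff_of_eq (congrFun (congrFun h a) b)
  have := Finite.of_injective _ h
  infer_instance

theorem card_Qv [Finite S] : Nat.card (Qv S) ≤ NQ (Nat.card S) := by
  classical
  have h : Injective (fun q : Qv S =>
      ((q.1, fun a b => q.2 a b) : (S → Prop) × (S ⊕ S → S ⊕ S → Prop))) := by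
    rintro ⟨a, q⟩ ⟨a', q'⟩ h
    have h1 : a = a' := congrArg Prod.fst h
    have h2 : q = q' := by
      ext x y
      exact iff_of_eq (congrFun (congrFun (congrArg Prod.snd h) x) y)
    rw [h1, h2]
  have := Fintype.ofFinite S
  refine (Nat.card_le_card_of_injective _ h).trans (le_of_eq ?_)
  simp only [Nat.card_eq_fintype_card, Fintype.card_prod, Fintype.card_fun,
    Fintype.card_prop, Fintype.card_sum, NQ]
  rw [← pow_mul]

end

/-! ### bounds -/

/-- bound for the number of classes for `HPS` -/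
def qQ (n : ℕ) : ℕ := n + n ^ (n ^ NQ n) * n

def hsQ (m n : ℕ) : ℕ := kB m n n
def hpsQ (m n : ℕ) : ℕ := (kB m n (qQ n)) ^ NQ n
def shpsQ (m n : ℕ) : ℕ := (kB m n (n + n * n)) ^ NQ n
def hspQ (m n : ℕ) : ℕ := (kB m n (n + 1)) ^ NQ n

/-! ### tasks -/

/-- `T_inv`: a finite 0-simple semigroup is inverse iff its idempotents commute -/
def T_inv : Prop := ∀ (S : Type) [Semigroup S] [Finite S], ZeroSimple S → (InvSg S ↔ IC S)

/-- `T_co`: existence of coordinates -/
def T_co : Prop := ∀ (V : PV) (C : Type) [Semigroup C] [Finite C] (z : C), ZS z → IC C →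
  AllSub V C → Nonempty (Co V z)

/-- `T_real`: realisation -/
def T_real : Prop := ∀ V : PV, ∃ m, 0 < m ∧ RealQB V m

/-- `T_dec0` -/
def T_dec0 : Prop := ∀ V : PV, V.DecUniv → DecClass (BS V)

/-- `T_decS` -/
def T_decS : Prop := ∀ V : PV, V.DecUniv → DecClass (opS (BS V))

/-- `T_small` -/
def T_small : Prop := ∀ V : PV, IsoC (BS V) ∧ opH (BS V) = BS V ∪ {S | Nat.card S = 1} ∧
  opS (opH (BS V)) = opS (BS V)

/-- `T_shp` -/
def T_shp : Prop := ∀ V : PV, opS (opH (opP (BS V))) = opS (opP (BS V))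

/-- `T_hp` -/
def T_hp : Prop := ∀ (V : PV) (B : FinSg), B ∈ opH (opP (BS V)) →
    ∃ T ∈ opP (BS V), Nat.card T ≤ hpB' (Nat.card B) ∧ ∃ f : T →ₙ* B, Surjective f

/-- `T_hs` -/
def T_hs : Prop := T_co → ∀ (V : PV) (m : ℕ), RealQB V m → ∀ B : FinSg, B ∈ opH (opS (BS V)) →
    ∃ U ∈ opS (BS V), Nat.card U ≤ hsQ m (Nat.card B) ∧ ∃ f : U →ₙ* B, Surjective f

/-- `T_hps` -/
def T_hps : Prop := T_co → ∀ (V : PV) (m : ℕ), RealQB V m → ∀ B : FinSg,
  B ∈ opH (opP (opS (BS V))) →
    ∃ T ∈ opP (opS (BS V)), Nat.card T ≤ hpsQ m (Nat.card B) ∧ ∃ f : T →ₙ* B, Surjective f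

/-- `T_shps` -/
def T_shps : Prop := T_co → ∀ (V : PV) (m : ℕ), RealQB V m → ∀ B : FinSg,
  B ∈ opS (opH (opP (opS (BS V)))) →
    ∃ R ∈ opH (opP (opS (BS V))), Nat.card R ≤ shpsQ m (Nat.card B) ∧
      ∃ f : B →ₙ* R, Injective f

/-- `T_hsp` -/
def T_hsp : Prop := T_co → ∀ (V : PV) (m : ℕ), RealQB V m → ∀ B : FinSg,
  B ∈ opH (opS (opP (BS V))) →
    ∃ U ∈ opS (opP (BS V)), Nat.card U ≤ hspQ m (Nat.card B) ∧ ∃ f : U →ₙ* B, Surjective f

/-- `T_comp` -/
def T_comp : Prop := ∀ m : ℕ, Computable (hsQ m) ∧ Computable (hpsQ m) ∧ Computable (shpsQ m) ∧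
  Computable (hspQ m)

end Pool.Agent.H770BR
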