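import Pool.Agent.H770BR.Defs
import Pool.Agent.H502.BkJ_PV_pi
set_option autoImplicit false

/-!
# Quiver version of `hsp_lab`: insertion of powers of covering closed paths
-/

namespace Pool.Agent.H770BR
open Function Pool.Agent.H502.Bk Pool.Agent.H502.Bk.W

namespace HSP

variable {S : Type}

def src (q : Qv S) (s : S) : Quotient q.2 := Quotient.mk q.2 (Sum.inl s)
def tgt (q : Qv S) (s : S) : Quotient q.2 := Quotient.mk q.2 (Sum.inr s)

theorem tgt_src {q : Qv S} {s t : S} (h : arc (dg q) s t) : tgt q s = src q t :=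
  Quotient.sound h.2.2

theorem mk_arc {q : Qv S} {s t : S} (h1 : q.1 s) (h2 : q.1 t) (h : tgt q s = src q t) :
    arc (dg q) s t := ⟨h1, h2, Quotient.exact h⟩

/-- walk between vertices -/
def Wk (q : Qv S) (v v' : Quotient q.2) (x : W S) : Prop :=
  path (dg q) x ∧ src q (head x) = v ∧ tgt q (last x) = v'

theorem head_path {D : Dig S} (w : W S) (h : path D w) : D.1 (head w) := by
  induction w with
  | one s => exact h
  | snoc w t ih => exact ih h.1

theorem Wk.mul {q : Qv S} {a b c : Quotient q.2} {x y : W S} (hx : Wk q a b x)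
    (hy : Wk q b c y) : Wk q a c (x * y) := by
  obtain ⟨h1, h2, h3⟩ := hx
  obtain ⟨h4, h5, h6⟩ := hy
  refine ⟨(path_mul x y).2 ⟨h1, ?_, h4⟩, ?_, ?_⟩
  · exact mk_arc (path_last h1) (head_path y h4) (h3.trans h5.symm)
  · rw [head_mul]; exact h2
  · rw [last_mul]; exact h6

theorem Wk.npw {q : Qv S} {a : Quotient q.2} {x : W S} (hx : Wk q a a x) (K : ℕ) :
    Wk q a a (npw x K) := by
  induction K with
  | zero => exact hx
  | succ K ih => exact ih.mul hx

theorem arcs_self (w : W S) : path (arcs w) w := (arcs_le_iff w).1 le_rfl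

theorem arcs_mul (u v : W S) : arcs u ≤ arcs (u * v) ∧ arcs v ≤ arcs (u * v) ∧
    arc (arcs (u * v)) (last u) (head v) := by
  have h0 := (path_mul u v).1 (arcs_self (u * v))
  exact ⟨(arcs_le_iff u).2 h0.1, (arcs_le_iff v).2 h0.2.2, h0.2.1⟩

/-- there is a closed path at the vertex -/
def cyc (q : Qv S) (v : Quotient q.2) : Prop := ∃ x, Wk q v v x

/-- covering closed paths -/
def Cv (q : Qv S) (c : Quotient q.2 → W S) : Prop :=
  ∀ v, cyc q v → Wk q v v (c v) ∧ ∀ x, Wk q v v x → arcs x ≤ arcs (c v)

theorem cv_exists [Finite S] (q : Qv S) : ∃ c, Cv q c := by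
  classical
  have key : ∀ v : Quotient q.2, ∃ c : W S, cyc q v →
      Wk q v v c ∧ ∀ x, Wk q v v x → arcs x ≤ arcs c := by
    intro v
    by_cases h : cyc q v
    · haveI : Nonempty {c // Wk q v v c} := by
        obtain ⟨c, hc⟩ := h
        exact ⟨⟨c, hc⟩⟩
      let f : {c // Wk q v v c} → Dig S := fun c => arcs c.1
      have hdir : Directed (· ≤ ·) f := by
        intro c c'
        exact ⟨⟨c.1 * c'.1, c.2.mul c'.2⟩, (arcs_mul _ _).1, (arcs_mul _ _).2.1⟩
      have hfin : Finite (Set.range f) := inferInstance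
      choose g hg using fun d : Set.range f => d.2
      obtain ⟨z, hz⟩ := hdir.finite_le g
      refine ⟨z.1, fun _ => ⟨z.2, fun x hx => ?_⟩⟩
      have := hz ⟨f ⟨x, hx⟩, ⟨_, rfl⟩⟩
      rw [hg] at this
      exact this
    · by_cases hne : Nonempty S
      · obtain ⟨s⟩ := hne
        exact ⟨one s, fun h' => (h h').elim⟩
      · exfalso
        obtain ⟨a, -⟩ := Quotient.exists_rep v
        rcases a with a | a
        · exact hne ⟨a⟩
        · exact hne ⟨a⟩
  choose c hc using key
  exact ⟨c, hc⟩

open Classical in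
/-- the word of a letter -/
noncomputable def P1 (q : Qv S) (c : Quotient q.2 → W S) (K : ℕ) (s : S) : W S :=
  if cyc q (src q s) then
    (if cyc q (tgt q s) then npw (c (src q s)) K * (one s * npw (c (tgt q s)) K)
      else npw (c (src q s)) K * one s)
  else (if cyc q (tgt q s) then one s * npw (c (tgt q s)) K else one s)

/-- the word of a word -/
noncomputable def PP (q : Qv S) (c : Quotient q.2 → W S) (K : ℕ) : W S → W S
  | one s => P1 q c K s
  | snoc w t => PP q c K w * P1 q c K t

section evs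
variable {V : PV} {C : Type} [Semigroup C] {z : C} (k : Co V z) (hz : ZS z) (y : S → C)
  {K : ℕ} (hK : ∀ a : C, npw a K * npw a K = npw a K)
include k hz hK

theorem P1_ev (q : Qv S) (c : Quotient q.2 → W S) (s : S) (h : ev y (P1 q c K s) ≠ z) :
    ev y (P1 q c K s) = y s := by
  unfold P1 at h ⊢
  split_ifs at h ⊢ with h1 h2 h2
  · rw [ev_mul, ev_mul, ev_npw, ev_npw] at h ⊢
    have h3 : ev y (one s) * npw (ev y (c (tgt q s))) K = y s :=
      k.rid _ _ (hK _) (hz.mul_right_ne h)
    rw [h3] at h ⊢
    exact k.lid _ _ (hK _) h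
  · rw [ev_mul, ev_npw] at h ⊢
    exact k.lid _ _ (hK _) h
  · rw [ev_mul, ev_npw] at h ⊢
    exact k.rid _ _ (hK _) h
  · rfl

theorem PP_ev (q : Qv S) (c : Quotient q.2 → W S) (w : W S) (h : ev y (PP q c K w) ≠ z) :
    ev y (PP q c K w) = ev y w := by
  induction w with
  | one s => exact P1_ev k hz y hK q c s h
  | snoc w t ih =>
    have e : ev y (PP q c K (snoc w t)) = ev y (PP q c K w) * ev y (P1 q c K t) := ev_mul y _ _
    rw [e] at h ⊢
    rw [ih (hz.mul_left_ne h), P1_ev k hz y hK q c t (hz.mul_right_ne h)]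
    rfl

end evs

theorem head_npw (c : W S) (K : ℕ) : head (npw c K) = head c := by
  induction K with
  | zero => rfl
  | succ K ih =>
    show head (npw c K * c) = _
    rw [head_mul, ih]

theorem last_npw (c : W S) (K : ℕ) : last (npw c K) = last c := by
  cases K with
  | zero => rfl
  | succ K => exact last_mul _ _

section paths
variable {q : Qv S} {c : Quotient q.2 → W S} (hc : Cv q c) {D : Dig S} (K : ℕ)
include hc

/-- closed walks at a vertex are paths in `D` if the covering closed path is -/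
theorem closed_path {v : Quotient q.2} (h : path D (c v)) {x : W S} (hx : Wk q v v x) :
    path D x :=
  (arcs_le_iff x).1 (((hc v ⟨x, hx⟩).2 x hx).trans ((arcs_le_iff _).2 h))

theorem closed_arc {v : Quotient q.2} (hv : cyc q v) (h : path D (c v)) :
    arc D (last (c v)) (head (c v)) := by
  have h1 : path D (c v * c v) := closed_path hc h ((hc v hv).1.mul (hc v hv).1)
  exact ((path_mul _ _).1 h1).2.1

theorem npw_path {v : Quotient q.2} (hv : cyc q v) : path D (npw (c v) K) ↔ path D (c v) := by
  constructor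
  · intro h
    cases K with
    | zero => exact h
    | succ K => exact ((path_mul _ _).1 h).2.2
  · intro h
    exact closed_path hc h ((hc v hv).1.npw K)

theorem P1_path (s : S) : path D (P1 q c K s) ↔ D.1 s ∧
    (cyc q (src q s) → path D (c (src q s)) ∧ arc D (last (c (src q s))) s) ∧
    (cyc q (tgt q s) → path D (c (tgt q s)) ∧ arc D s (head (c (tgt q s)))) := by
  unfold P1
  split_ifs with h1 h2 h2
  · rw [path_mul, path_mul, npw_path hc K h1, npw_path hc K h2, head_npw, last_npw, head_mul]
    show path D (c (src q s)) ∧ arc D (last (c (src q s))) s ∧ D.1 s ∧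
      arc D s (head (c (tgt q s))) ∧ path D (c (tgt q s)) ↔ _
    tauto
  · rw [path_mul, npw_path hc K h1, last_npw]
    show path D (c (src q s)) ∧ arc D (last (c (src q s))) s ∧ D.1 s ↔ _
    tauto
  · rw [path_mul, npw_path hc K h2, head_npw]
    show D.1 s ∧ arc D s (head (c (tgt q s))) ∧ path D (c (tgt q s)) ↔ _
    tauto
  · show D.1 s ↔ _
    tauto

omit hc in
theorem head_P1 (s : S) (h : cyc q (src q s)) : head (P1 q c K s) = head (c (src q s)) := by
  unfold P1
  rw [if_pos h]
  split_ifs <;> rw [head_mul, head_npw]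

omit hc in
theorem head_P1' (s : S) (h : ¬ cyc q (src q s)) : head (P1 q c K s) = s := by
  unfold P1
  rw [if_neg h]
  split_ifs
  · rw [head_mul]; rfl
  · rfl

omit hc in
theorem last_P1 (s : S) (h : cyc q (tgt q s)) : last (P1 q c K s) = last (c (tgt q s)) := by
  unfold P1
  rw [if_pos h, if_pos h]
  split_ifs
  · rw [last_mul, last_mul, last_npw]
  · rw [last_mul, last_npw]

omit hc in
theorem last_P1' (s : S) (h : ¬ cyc q (tgt q s)) : last (P1 q c K s) = s := by
  unfold P1
  rw [if_neg h, if_neg h]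
  split_ifs
  · rw [last_mul]; rfl
  · rfl

omit hc in
theorem last_PP (w : W S) : last (PP q c K w) = last (P1 q c K (last w)) := by
  cases w with
  | one s => rfl
  | snoc w t => exact last_mul _ _

omit hc in
theorem PP_path0 (w : W S) : path D (PP q c K w) ↔
    (∀ s, (arcs w).1 s → path D (P1 q c K s)) ∧
      ∀ s t, (arcs w).2 s t → arc D (last (P1 q c K s)) (head (P1 q c K t)) := by
  induction w with
  | one s =>
    constructor
    · intro h
      refine ⟨fun x hx => ?_, fun x y h' => h'.elim⟩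
      have hx' : x = s := hx
      rw [hx']; exact h
    · intro h
      exact h.1 s rfl
  | snoc w t ih =>
    show path D (PP q c K w * P1 q c K t) ↔ _
    rw [path_mul, ih, last_PP]
    constructor
    · rintro ⟨⟨h1, h2⟩, h3, h4⟩
      refine ⟨fun x hx => ?_, fun x y hxy => ?_⟩
      · rcases hx with hx | hx
        · exact h1 x hx
        · rw [hx]; exact h4
      · rcases hxy with hxy | ⟨hx, hy⟩
        · exact h2 x y hxy
        · rw [hx, hy]; exact h3
    · rintro ⟨h1, h2⟩
      exact ⟨⟨fun x hx => h1 x (Or.inl hx), fun x y hxy => h2 x y (Or.inl hxy)⟩,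
        h2 _ _ (Or.inr ⟨rfl, rfl⟩), h1 t (Or.inr rfl)⟩

omit hc in
theorem arcs_mem {E : Dig S} {w : W S} (hw : path E w) {s t : S} (h : (arcs w).2 s t) :
    (arcs w).1 s ∧ (arcs w).1 t ∧ arc E s t := by
  induction w with
  | one s => exact h.elim
  | snoc w r ih =>
    rcases h with h | ⟨h1, h2⟩
    · obtain ⟨a, b, d⟩ := ih hw.1 h
      exact ⟨Or.inl a, Or.inl b, d⟩
    · subst h1 h2
      exact ⟨Or.inl (path_last (arcs_self w)), Or.inr rfl, hw.2⟩

theorem PP_path (w : W S) (hw : path (dg q) w) : path D (PP q c K w) ↔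
    (∀ s, (arcs w).1 s → path D (P1 q c K s)) ∧
      ∀ s t, (arcs w).2 s t → ¬ cyc q (tgt q s) → arc D s t := by
  rw [PP_path0]
  refine and_congr_right fun h => forall₂_congr fun s t => ?_
  constructor
  · intro h1 h2 h3
    have h4 := tgt_src (arcs_mem hw h2).2.2
    have h5 := h1 h2
    rw [last_P1' K s h3, head_P1' K t (by rw [← h4]; exact h3)] at h5
    exact h5
  · intro h1 h2
    have h4 := tgt_src (arcs_mem hw h2).2.2
    by_cases h3 : cyc q (tgt q s)
    · rw [last_P1 K s h3, head_P1 K t (by rw [← h4]; exact h3), ← h4]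
      exact closed_arc hc h3 (((P1_path hc K s).1 (h s (arcs_mem hw h2).1)).2.2 h3).1
    · rw [last_P1' K s h3, head_P1' K t (by rw [← h4]; exact h3)]
      exact h1 h2 h3

end paths

end HSP

end Pool.Agent.H770BR
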