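import Pool.Agent.H770BR.HspA
set_option autoImplicit false

/-!
# Quiver version of `hsp_lab`: comparison of two paths with the same outer letters
-/

namespace Pool.Agent.H770BR
open Function Pool.Agent.H502.Bk Pool.Agent.H502.Bk.W

namespace HSP

variable {S : Type}

theorem reach_right {E : Dig S} {p : W S} (hp : path E p) {x : S}
    (h : (arcs p).1 x) : x = last p ∨ conn E x (last p) := by
  induction p with
  | one s => exact Or.inl h
  | snoc w t ih =>
    obtain ⟨h1, h2⟩ := hp
    rcases h with h | h
    · right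
      rcases ih h1 h with h3 | h3
      · rw [h3]; exact conn_of_arc h2
      · exact conn_trans h3 (conn_of_arc h2)
    · exact Or.inl h

/-- a connection is a walk between the target of the first and the target of the last letter -/
theorem conn_wk {q : Qv S} {s t : S} (h : conn (dg q) s t) : ∃ u, Wk q (tgt q s) (tgt q t) u ∧
    arc (dg q) s (head u) ∧ last u = t := by
  obtain ⟨u, hu, ha, rfl⟩ := h
  exact ⟨u, ⟨hu, (tgt_src ha).symm, rfl⟩, ha, rfl⟩

theorem inner_tgt {q : Qv S} {s : S} (h : conn (dg q) s s) : cyc q (tgt q s) := by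
  obtain ⟨u, hu, -⟩ := conn_wk h
  exact ⟨u, hu⟩

theorem inner_back {q : Qv S} {s : S} (h : conn (dg q) s s) : q.1 s ∧ (tgt q s = src q s ∨
    ∃ r, Wk q (tgt q s) (src q s) r) := by
  obtain ⟨u, hu, ha, hl⟩ := h
  refine ⟨ha.1, ?_⟩
  cases u with
  | one x =>
    have hx : x = s := hl
    subst hx
    exact Or.inl (tgt_src ha)
  | snoc r x =>
    have hx : x = s := hl
    subst hx
    exact Or.inr ⟨r, hu.1, (tgt_src ha).symm, tgt_src hu.2⟩

theorem wk_one {q : Qv S} {s : S} (h : q.1 s) : Wk q (src q s) (tgt q s) (one s) := ⟨h, rfl, rfl⟩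

theorem inner_src {q : Qv S} {s : S} (h : conn (dg q) s s) : cyc q (src q s) := by
  obtain ⟨h1, h2 | ⟨r, hr⟩⟩ := inner_back h
  · have h3 := wk_one h1
    rw [h2] at h3
    exact ⟨_, h3⟩
  · exact ⟨_, (wk_one h1).mul hr⟩

section
variable {q : Qv S} {c : Quotient q.2 → W S} (hc : Cv q c) {D : Dig S} (K : ℕ)
include hc

theorem inner_P1 {s : S} (h : conn (dg q) s s) (hD : path D (c (src q s))) :
    path D (P1 q c K s) := by
  have h1 := inner_src h
  have h2 := inner_tgt h
  have w1 := (hc _ h1).1
  have w2 := (hc _ h2).1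
  have w3 : Wk q (src q s) (tgt q s) (c (src q s) * (one s * c (tgt q s))) :=
    w1.mul ((wk_one (inner_back h).1).mul w2)
  have h3 : path D (c (src q s) * (one s * c (tgt q s))) := by
    obtain ⟨-, h4 | ⟨r, hr⟩⟩ := inner_back h
    · rw [h4] at w3
      have w4 : Wk q (src q s) (src q s) (c (src q s) * (one s * c (tgt q s))) := by
        rw [h4]; exact w3
      exact closed_path hc hD w4
    · have h5 := closed_path hc hD (w3.mul hr)
      exact ((path_mul _ _).1 h5).1
  rw [path_mul, path_mul, head_mul] at h3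
  rw [P1_path hc K s]
  obtain ⟨a1, a2, a3, a4, a5⟩ := h3
  exact ⟨a3, fun _ => ⟨a1, a2⟩, fun _ => ⟨a5, a4⟩⟩

theorem letters_path {p : W S} (hD : ∀ s, (arcs p).1 s → path D (P1 q c K s)) (w : W S)
    (hw : path (dg q) w) (hh : src q (head w) = src q (head p))
    (hhp : (arcs p).1 (head p))
    (hout : ∀ x, ¬ conn (dg q) x x → (arcs w).1 x → (arcs p).1 x) :
    ∀ s, (arcs w).1 s → path D (P1 q c K s) := by
  induction w with
  | one t =>
    intro s hs
    have hs' : s = t := hs
    subst hs'
    by_cases hi : conn (dg q) s s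
    · refine inner_P1 hc K hi ?_
      have h1 := hD _ hhp
      rw [P1_path hc K] at h1
      have h2 := inner_src hi
      have hh' : src q s = src q (head p) := hh
      rw [hh'] at h2 ⊢
      exact (h1.2.1 h2).1
    · exact hD s (hout s hi hs)
  | snoc w t ih =>
    have ih' := ih hw.1 hh (fun x hx hx' => hout x hx (Or.inl hx'))
    intro s hs
    rcases hs with hs | hs
    · exact ih' s hs
    · subst hs
      by_cases hi : conn (dg q) s s
      · refine inner_P1 hc K hi ?_
        have h1 := ih' (last w) (path_last (arcs_self w))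
        rw [P1_path hc K] at h1
        have h2 := inner_src hi
        rw [← tgt_src hw.2] at h2 ⊢
        exact (h1.2.2 h2).1
      · exact hD s (hout s hi (Or.inr rfl))

omit hc in
theorem consec {p : W S} (hp : path (dg q) p) {s t : S} (hs : (arcs p).1 s) (ht : (arcs p).1 t)
    (hst : tgt q s = src q t) (hn : ¬ cyc q (tgt q s)) : (arcs p).2 s t := by
  induction p with
  | one r =>
    have hs' : s = r := hs
    have ht' : t = r := ht
    subst hs'
    subst ht'
    exfalso
    apply hn
    have h := wk_one (q := q) (s := t) hp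
    rw [← hst] at h
    exact ⟨_, h⟩
  | snoc w r ih =>
    obtain ⟨h1, h2⟩ := hp
    rcases hs with hs | hs
    · rcases ht with ht | ht
      · exact Or.inl (ih h1 hs ht)
      · subst ht
        rcases reach_right h1 hs with h3 | h3
        · exact Or.inr ⟨h3, rfl⟩
        · exfalso
          apply hn
          obtain ⟨u, hu, -⟩ := conn_wk h3
          rw [tgt_src h2, ← hst] at hu
          exact ⟨u, hu⟩
    · subst hs
      have hs1 : q.1 s := h2.2.1
      exfalso
      apply hn
      rcases ht with ht | ht
      · have ht1 : q.1 t := ((arcs_le_iff w).2 h1).1 t ht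
        rcases reach_right h1 ht with h3 | h3
        · subst h3
          have h4 : Wk q (src q (last w)) (tgt q s) (one (last w) * one s) := by
            refine (wk_one ht1).mul ?_
            rw [tgt_src h2]; exact wk_one hs1
          rw [← hst] at h4
          exact ⟨_, h4⟩
        · obtain ⟨u, hu, -⟩ := conn_wk h3
          have h4 : Wk q (src q t) (tgt q s) (one t * (u * one s)) := by
            refine (wk_one ht1).mul (hu.mul ?_)
            rw [tgt_src h2]; exact wk_one hs1
          rw [← hst] at h4
          exact ⟨_, h4⟩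
      · subst ht
        have h := wk_one (q := q) (s := t) hs1
        rw [← hst] at h
        exact ⟨_, h⟩

omit hc in
theorem head_mem (w : W S) : (arcs w).1 (head w) := by
  induction w with
  | one s => rfl
  | snoc w t ih => exact Or.inl ih

omit hc in
theorem head_unique {p : W S} (hp : path (dg q) p) {x : S} (hx : (arcs p).1 x)
    (h : src q x = src q (head p)) (hn : ¬ cyc q (src q x)) : x = head p := by
  induction p with
  | one r => exact hx
  | snoc w r ih =>
    rcases hx with hx | hx
    · exact ih hp.1 hx h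
    · subst hx
      exfalso
      apply hn
      refine ⟨w, hp.1, ?_, tgt_src hp.2⟩
      exact h.symm

omit hc in
theorem last_unique {p : W S} (hp : path (dg q) p) {x : S} (hx : (arcs p).1 x)
    (h : tgt q x = tgt q (last p)) (hn : ¬ cyc q (tgt q x)) : x = last p := by
  rcases reach_right hp hx with h1 | h1
  · exact h1
  · exfalso
    apply hn
    obtain ⟨u, hu, -⟩ := conn_wk h1
    rw [← h] at hu
    exact ⟨u, hu⟩

omit D in
theorem compare {p p' : W S} (hp : path (dg q) p) (hp' : path (dg q) p')
    (hh : src q (head p) = src q (head p')) (hl : tgt q (last p) = tgt q (last p'))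
    (hout : ∀ x, ¬ conn (dg q) x x → ((arcs p).1 x ↔ (arcs p').1 x)) (Q : Qv S)
    (hQ : path (dg Q) (PP q c K p)) : path (dg Q) (PP q c K p') ∧
      Q.2 (Sum.inl (head p)) (Sum.inl (head p')) ∧
      Q.2 (Sum.inr (last p)) (Sum.inr (last p')) := by
  obtain ⟨h1, h2⟩ := (PP_path hc K p hp).1 hQ
  have h3 := letters_path hc K h1 p' hp' hh.symm (head_mem p) (fun x hx hx' => (hout x hx).2 hx')
  refine ⟨(PP_path hc K p' hp').2 ⟨h3, ?_⟩, ?_, ?_⟩
  · intro s t hst hn
    obtain ⟨hs, ht, ha⟩ := arcs_mem hp' hst
    have e := tgt_src ha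
    have os : ¬ conn (dg q) s s := fun h => hn (inner_tgt h)
    have ot : ¬ conn (dg q) t t := fun h => hn (by rw [e]; exact inner_src h)
    have h4 := consec hp ((hout s os).2 hs) ((hout t ot).2 ht) e hn
    exact h2 s t h4 hn
  · by_cases hv : cyc q (src q (head p))
    · have a1 := ((P1_path hc K _).1 (h1 _ (head_mem p))).2.1 hv
      have a2 := ((P1_path hc K _).1 (h3 _ (head_mem p'))).2.1 (by rw [← hh]; exact hv)
      rw [← hh] at a2
      exact Q.2.trans' (Q.2.symm' a1.2.2.2) a2.2.2.2
    · have o : ¬ conn (dg q) (head p') (head p') := fun h => hv (by rw [hh]; exact inner_src h)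
      have h5 := head_unique hp ((hout _ o).2 (head_mem p')) hh.symm (by rw [← hh]; exact hv)
      rw [h5]
  · have lm := path_last (arcs_self p)
    have lm' := path_last (arcs_self p')
    by_cases hv : cyc q (tgt q (last p))
    · have a1 := ((P1_path hc K _).1 (h1 _ lm)).2.2 hv
      have a2 := ((P1_path hc K _).1 (h3 _ lm')).2.2 (by rw [← hl]; exact hv)
      rw [← hl] at a2
      exact Q.2.trans' a1.2.2.2 (Q.2.symm' a2.2.2.2)
    · have o : ¬ conn (dg q) (last p') (last p') := fun h => hv (by rw [hl]; exact inner_tgt h)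
      have h5 := last_unique hp ((hout _ o).2 lm') hl.symm (by rw [← hl]; exact hv)
      rw [h5]

/-- the word of a path of `q` is a path of `q` -/
theorem PP_self (w : W S) (hw : path (dg q) w) : path (dg q) (PP q c K w) := by
  refine (PP_path hc K w hw).2 ⟨fun s hs => ?_, fun s t hst _ => (arcs_mem hw hst).2.2⟩
  have hs1 : q.1 s := ((arcs_le_iff w).2 hw).1 s hs
  refine (P1_path hc K s).2 ⟨hs1, fun h => ?_, fun h => ?_⟩
  · obtain ⟨⟨h1, h2, h3⟩, -⟩ := hc _ h
    exact ⟨h1, mk_arc (path_last h1) hs1 h3⟩
  · obtain ⟨⟨h1, h2, h3⟩, -⟩ := hc _ h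
    exact ⟨h1, mk_arc hs1 (head_path _ h1) h2.symm⟩

end

open Classical in
theorem outer_count {G : Type} [Group G] {E : Dig S} (a : G) {x : S} (hx : ¬ conn E x x)
    (p : W S) (hp : path E p) :
    ev (fun s => if x = s ∧ ¬ conn E x x then a else 1) p = if (arcs p).1 x then a else 1 := by
  induction p with
  | one s =>
    show (if x = s ∧ ¬ conn E x x then a else 1) = if x = s then a else 1
    by_cases h : x = s
    · rw [if_pos ⟨h, hx⟩, if_pos h]
    · rw [if_neg (fun h' => h h'.1), if_neg h]
  | snoc w t ih =>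
    obtain ⟨h1, h2⟩ := hp
    have hi : (arcs (snoc w t)).1 x ↔ ((arcs w).1 x ∨ x = t) := Iff.rfl
    show ev (fun s => if x = s ∧ ¬ conn E x x then a else 1) w *
      (if x = t ∧ ¬ conn E x x then a else 1) = _
    rw [ih h1]
    by_cases hc : x = t
    · have hn : ¬ (arcs w).1 x := by
        intro h3
        apply hx
        rcases reach_right h1 h3 with h4 | h4
        · rw [← hc, ← h4] at h2
          exact conn_of_arc h2
        · rw [← hc] at h2
          exact conn_trans h4 (conn_of_arc h2)
      rw [if_neg hn, if_pos ⟨hc, hx⟩, if_pos (hi.2 (Or.inr hc)), one_mul]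
    · have hn3 : ¬ (x = t ∧ ¬ conn E x x) := fun h => hc h.1
      rw [if_neg hn3, mul_one]
      by_cases h3 : (arcs w).1 x
      · rw [if_pos h3, if_pos (hi.2 (Or.inl h3))]
      · rw [if_neg h3, if_neg (fun h => (hi.1 h).elim h3 hc)]

theorem val_mul' [Semigroup S] (u v : W S) : val (u * v) = val u * val v := ev_mul _ u v

/-- quiver version of `hsp_lab` -/
theorem hspq_lab (V : PV) {m0 : ℕ} (hm0 : 2 ≤ m0) (hV : V.mem (Multiplicative (ZMod m0)))
    {S : Type} [Semigroup S] [Finite S] {ι : Type} [Finite ι] (C : ι → Type)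
    [∀ i, Semigroup (C i)] [∀ i, Finite (C i)] (z : ∀ i, C i) (hz : ∀ i, ZS (z i))
    (k : ∀ i, Co V (z i)) (y : ∀ i, S → C i)
    (hy : ∀ w w' : W S, (∀ i, ev (y i) w = ev (y i) w') → val w = val w') (q : Qv S) :
    ∃ P : W S → W S, (∀ w t, val (P (snoc w t)) = val (P w) * val (P (one t))) ∧
      LabQ V q (fun p p' => val (P p) = val (P p')) ∧
      ∀ w, qarcs w = q → val (P w) = val w := by
  classical
  have := Fintype.ofFinite ι
  obtain ⟨c, hc⟩ := cv_exists q
  obtain ⟨t0, ht0⟩ : ∃ t0 : ℕ, ∀ i, Nat.card (C i) ≤ t0 :=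
    ⟨∑ i, Nat.card (C i), fun i =>
      Finset.single_le_sum (f := fun i => Nat.card (C i)) (fun _ _ => Nat.zero_le _)
        (Finset.mem_univ i)⟩
  obtain ⟨K, hK⟩ : ∃ K : ℕ, ∀ i (a : C i), npw a K * npw a K = npw a K :=
    ⟨t0.factorial - 1, fun i a => npw_idem (ht0 i) a⟩
  have hbad : ∀ (i : ι) (u : W S), ¬ path (dg ((k i).q (y i))) u → ev (y i) u = z i := by
    intro i u hu
    by_contra hne
    exact hu (((k i).ev_ne (y i) (hz i) u).1 hne)
  have hgood : ∀ (i : ι) (w : W S), path (dg ((k i).q (y i))) (PP q c K w) →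
      ev (y i) (PP q c K w) = ev (y i) w ∧ path (dg ((k i).q (y i))) w := by
    intro i w hw
    have h1 := ((k i).ev_ne (y i) (hz i) _).2 hw
    have h2 := PP_ev (k i) (hz i) (y i) (hK i) q c w h1
    refine ⟨h2, ?_⟩
    rw [h2] at h1
    exact ((k i).ev_ne (y i) (hz i) _).1 h1
  refine ⟨PP q c K, fun w t => val_mul' _ _, ?_, ?_⟩
  · let lb : S → ((∀ i, (k i).G) × (S → Multiplicative (ZMod m0))) := fun s =>
      (fun i => (k i).γ (y i s), fun x => if x = s ∧ ¬ conn (dg q) x x then
        Multiplicative.ofAdd (1 : ZMod m0) else 1)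
    refine ⟨((∀ i, (k i).G) × (S → Multiplicative (ZMod m0))), inferInstance, lb, ?_, ?_⟩
    · exact V.prod _ _ (V.pi _ fun i => (k i).mem) (V.pi _ fun _ => hV)
    · intro p p' hp hp' hh hla he
      have hcomp : ∀ i, ev (fun s => (k i).γ (y i s)) p = ev (fun s => (k i).γ (y i s)) p' := by
        intro i
        have e1 := map_ev ((Pi.evalMonoidHom (fun i => (k i).G) i).comp
          (MonoidHom.fst (∀ i, (k i).G) (S → Multiplicative (ZMod m0)))).toMulHom lb p
        have e2 := map_ev ((Pi.evalMonoidHom (fun i => (k i).G) i).comp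
          (MonoidHom.fst (∀ i, (k i).G) (S → Multiplicative (ZMod m0)))).toMulHom lb p'
        rw [he] at e1
        exact e1.symm.trans e2
      have hout : ∀ x : S, ¬ conn (dg q) x x → ((arcs p).1 x ↔ (arcs p').1 x) := by
        intro x hx
        have e1 := map_ev ((Pi.evalMonoidHom (fun _ : S => Multiplicative (ZMod m0)) x).comp
          (MonoidHom.snd (∀ i, (k i).G) (S → Multiplicative (ZMod m0)))).toMulHom lb p
        have e2 := map_ev ((Pi.evalMonoidHom (fun _ : S => Multiplicative (ZMod m0)) x).comp
          (MonoidHom.snd (∀ i, (k i).G) (S → Multiplicative (ZMod m0)))).toMulHom lb p'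
        rw [he] at e1
        have e3 := e1.symm.trans e2
        have e4 : ev (fun s => if x = s ∧ ¬ conn (dg q) x x then
            Multiplicative.ofAdd (1 : ZMod m0) else 1) p =
            ev (fun s => if x = s ∧ ¬ conn (dg q) x x then
            Multiplicative.ofAdd (1 : ZMod m0) else 1) p' := e3
        rw [outer_count _ hx p hp, outer_count _ hx p' hp'] at e4
        have hne : Multiplicative.ofAdd (1 : ZMod m0) ≠ 1 := by
          have : Fact (1 < m0) := ⟨hm0⟩
          intro h
          have h1 : (1 : ZMod m0) = 0 := h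
          exact one_ne_zero h1
        constructor
        · intro h1
          by_contra h2
          rw [if_pos h1, if_neg h2] at e4
          exact hne e4
        · intro h1
          by_contra h2
          rw [if_neg h2, if_pos h1] at e4
          exact hne e4.symm
      have hh' : src q (head p) = src q (head p') := Quotient.sound hh
      have hl' : tgt q (last p) = tgt q (last p') := Quotient.sound hla
      apply hy
      intro i
      by_cases h1 : path (dg ((k i).q (y i))) (PP q c K p)
      · obtain ⟨h2, h3, h4⟩ := compare hc K hp hp' hh' hl' hout _ h1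
        obtain ⟨e1, g1⟩ := hgood i p h1
        obtain ⟨e2, g2⟩ := hgood i p' h2
        rw [e1, e2]
        obtain ⟨a1, a2, a3⟩ := (k i).ev_co (y i) (hz i) p g1
        obtain ⟨b1, b2, b3⟩ := (k i).ev_co (y i) (hz i) p' g2
        refine (k i).inj _ _ (((k i).ev_ne (y i) (hz i) p).2 g1)
          (((k i).ev_ne (y i) (hz i) p').2 g2) ?_ ?_ ?_
        · rw [a1, b1]; exact h3
        · rw [a2, b2]; exact h4
        · rw [a3, b3]; exact hcomp i
      · have h2 : ¬ path (dg ((k i).q (y i))) (PP q c K p') := fun h =>
          h1 (compare hc K hp' hp hh'.symm hl'.symm (fun x hx => (hout x hx).symm) _ h).1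
        rw [hbad i _ h1, hbad i _ h2]
  · intro w hw
    have hwq : path (dg q) w := (qarcs_le_iff w).1 (le_of_eq hw)
    have h1 : path (dg q) (PP q c K w) := PP_self hc K w hwq
    apply hy
    intro i
    by_cases h4 : path (dg ((k i).q (y i))) (PP q c K w)
    · exact (hgood i w h4).1
    · have h5 : ¬ path (dg ((k i).q (y i))) w := by
        intro h
        apply h4
        have h6 : q ≤ (k i).q (y i) := by
          rw [← hw]; exact (qarcs_le_iff w).2 h
        exact qpath_mono h6 h1
      rw [hbad i _ h4, hbad i _ h5]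

end HSP

end Pool.Agent.H770BR
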