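import Pool.Agent.H770BR.Defs
set_option autoImplicit false

/-!
# Commuting idempotents: subsemigroups, quotients, products
-/

namespace Pool.Agent.H770BR
open Function Pool.Agent.H502.Bk Pool.Agent.H502.Bk.W

theorem IC.inj {A B : Type} [Semigroup A] [Semigroup B] (f : A →ₙ* B) (hf : Injective f)
    (h : IC B) : IC A := by
  intro e g he hg
  apply hf
  rw [map_mul, map_mul]
  exact h _ _ (by rw [← map_mul, he]) (by rw [← map_mul, hg])

theorem IC.lift {A B : Type} [Semigroup A] [Semigroup B] [Finite A] (f : A →ₙ* B)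
    (hf : Surjective f) (e : B) (he : e * e = e) : ∃ a : A, a * a = a ∧ f a = e := by
  obtain ⟨a, ha⟩ := hf e
  obtain ⟨k, hk⟩ := exists_idem_npw a
  refine ⟨npw a k, hk, ?_⟩
  rw [map_npw, ha]
  clear hk
  induction k with
  | zero => rfl
  | succ k ih =>
    show npw e k * e = e
    rw [ih, he]

theorem IC.quot {A B : Type} [Semigroup A] [Semigroup B] [Finite A] (f : A →ₙ* B)
    (hf : Surjective f) (h : IC A) : IC B := by
  intro e g he hg
  obtain ⟨a, ha, rfl⟩ := IC.lift f hf e he
  obtain ⟨b, hb, rfl⟩ := IC.lift f hf g hg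
  rw [← map_mul, ← map_mul, h a b ha hb]

theorem IC.pi {ι : Type} {T : ι → Type} [∀ i, Semigroup (T i)] (h : ∀ i, IC (T i)) :
    IC (∀ i, T i) := by
  intro e g he hg
  funext i
  exact h i _ _ (congrFun he i) (congrFun hg i)

theorem IC.prod {A B : Type} [Semigroup A] [Semigroup B] (hA : IC A) (hB : IC B) :
    IC (A × B) := by
  intro e g he hg
  exact Prod.ext (hA _ _ (congrArg Prod.fst he) (congrArg Prod.fst hg))
    (hB _ _ (congrArg Prod.snd he) (congrArg Prod.snd hg))

end Pool.Agent.H770BR
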