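import Pool.Agent.H770BR.Defs
import Pool.Agent.H502.BkJ_PV_pi
import Pool.Agent.H502.BkJ_PV_cyc
import Pool.Agent.H502.BkJ_mB_mono
import Pool.Agent.H502.BkJ_pi_mem_opP
set_option autoImplicit false

namespace Pool.Agent.H770BR
open Function Pool.Agent.H502.Bk Pool.Agent.H502.Bk.W

namespace THsp

section comb
variable {S : Type} (q : Qv S)

/-- `c` is a closed path at the vertex `v` -/
def cl (v : S ⊕ S) (c : W S) : Prop :=
  path (dg q) c ∧ q.2 (Sum.inl (head c)) v ∧ q.2 (Sum.inr (last c)) v

/-- there is a closed path at `v` -/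
def NT (v : S ⊕ S) : Prop := ∃ c, cl q v c

theorem ph {D : Dig S} {w : W S} (h : path D w) : D.1 (head w) := by
  induction w with
  | one s => exact h
  | snoc w t ih => exact ih h.1

theorem mk_arc {x y : S} {v : S ⊕ S} (hx : q.1 x) (hy : q.1 y) (h1 : q.2 (Sum.inr x) v)
    (h2 : q.2 (Sum.inl y) v) : arc (dg q) x y :=
  ⟨hx, hy, q.2.trans h1 (q.2.symm h2)⟩

theorem cl_mul {v : S ⊕ S} {c c' : W S} (h : cl q v c) (h' : cl q v c') : cl q v (c * c') := by
  refine ⟨?_, ?_, ?_⟩
  · rw [path_mul]
    exact ⟨h.1, mk_arc q (path_last h.1) (ph h'.1) h.2.2 h'.2.1, h'.1⟩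
  · rw [head_mul]; exact h.2.1
  · rw [last_mul]; exact h'.2.2

theorem cl_congr {v v' : S ⊕ S} (h : q.2 v v') {c : W S} (hc : cl q v c) : cl q v' c :=
  ⟨hc.1, q.2.trans hc.2.1 h, q.2.trans hc.2.2 h⟩

theorem NT_congr {v v' : S ⊕ S} (h : q.2 v v') : NT q v ↔ NT q v' :=
  ⟨fun ⟨c, hc⟩ => ⟨c, cl_congr q h hc⟩, fun ⟨c, hc⟩ => ⟨c, cl_congr q (q.2.symm h) hc⟩⟩

theorem arcs_mul_left (u v : W S) : arcs u ≤ arcs (u * v) := by
  rw [arcs_le_iff]
  have h : path (arcs (u * v)) (u * v) := (arcs_le_iff _).1 le_rfl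
  exact ((path_mul u v).1 h).1

theorem arcs_mul_right (u v : W S) : arcs v ≤ arcs (u * v) := by
  rw [arcs_le_iff]
  have h : path (arcs (u * v)) (u * v) := (arcs_le_iff _).1 le_rfl
  exact ((path_mul u v).1 h).2.2

theorem max_exists [Finite S] (v : S ⊕ S) (h : NT q v) :
    ∃ c, cl q v c ∧ ∀ c', cl q v c' → arcs c' ≤ arcs c := by
  obtain ⟨m, ⟨c, hc, rfl⟩, hm⟩ := (Set.toFinite {F : Dig S | ∃ c, cl q v c ∧ arcs c = F}).exists_maximal
    (by obtain ⟨c, hc⟩ := h; exact ⟨arcs c, c, hc, rfl⟩)
  refine ⟨c, hc, fun c' hc' => ?_⟩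
  have h1 : arcs (c * c') ≤ arcs c := hm ⟨c * c', cl_mul q hc hc', rfl⟩ (arcs_mul_left c c')
  exact (arcs_mul_right c c').trans h1

open Classical in
/-- canonical closed path -/
noncomputable def cc [Finite S] (v : S ⊕ S) : W S :=
  if h : NT q (Quotient.out (Quotient.mk q.2 v)) then (max_exists q _ h).choose
  else one (v.elim id id)

theorem cc_congr [Finite S] {v v' : S ⊕ S} (h : q.2 v v') (hv : NT q v) : cc q v = cc q v' := by
  have e : Quotient.mk q.2 v = Quotient.mk q.2 v' := Quotient.sound h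
  have hr : q.2 (Quotient.out (Quotient.mk q.2 v)) v := Quotient.mk_out (s := q.2) v
  have hr' : q.2 (Quotient.out (Quotient.mk q.2 v')) v' := Quotient.mk_out (s := q.2) v'
  have h1 : NT q (Quotient.out (Quotient.mk q.2 v)) := (NT_congr q hr).2 hv
  have h2 : NT q (Quotient.out (Quotient.mk q.2 v')) := by rw [← e]; exact h1
  unfold cc
  rw [dif_pos h1, dif_pos h2]
  congr 1
  funext c
  rw [e]

theorem cc_spec [Finite S] {v : S ⊕ S} (hv : NT q v) :
    cl q v (cc q v) ∧ ∀ c', cl q v c' → arcs c' ≤ arcs (cc q v) := by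
  have hr : q.2 (Quotient.out (Quotient.mk q.2 v)) v := Quotient.mk_out (s := q.2) v
  have h1 : NT q (Quotient.out (Quotient.mk q.2 v)) := (NT_congr q hr).2 hv
  have h2 := (max_exists q _ h1).choose_spec
  have e : cc q v = (max_exists q _ h1).choose := by unfold cc; rw [dif_pos h1]
  rw [e]
  exact ⟨cl_congr q hr h2.1, fun c' hc' => h2.2 c' (cl_congr q (q.2.symm hr) hc')⟩

theorem npw_cl {v : S ⊕ S} {c : W S} (h : cl q v c) (k : ℕ) : cl q v (npw c k) := by
  induction k with
  | zero => exact h
  | succ k ih => exact cl_mul q ih h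

theorem npw_path [Finite S] {v : S ⊕ S} (hv : NT q v) {D : Dig S} (hD : path D (cc q v)) (k : ℕ) :
    path D (npw (cc q v) k) := by
  rw [← arcs_le_iff] at hD ⊢
  exact ((cc_spec q hv).2 _ (npw_cl q (cc_spec q hv).1 k)).trans hD

theorem npw_head (c : W S) (k : ℕ) : head (npw c k) = head c := by
  induction k with
  | zero => rfl
  | succ k ih => show head (npw c k * c) = _; rw [head_mul, ih]

theorem npw_last (c : W S) (k : ℕ) : last (npw c k) = last c := by
  cases k with
  | zero => rfl
  | succ k => show last (npw c k * c) = _; rw [last_mul]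

/-- letters on a closed path -/
theorem inner_spec {t : S} (ht : conn (dg q) t t) : NT q (Sum.inl t) ∧ NT q (Sum.inr t) ∧
    (q.2 (Sum.inr t) (Sum.inl t) ∨ ∃ r, path (dg q) r ∧ q.2 (Sum.inl (head r)) (Sum.inr t) ∧
      q.2 (Sum.inr (last r)) (Sum.inl t)) := by
  obtain ⟨u, hu, ha, hl⟩ := ht
  have h1 : NT q (Sum.inr t) := ⟨u, hu, q.2.symm ha.2.2, by rw [hl]⟩
  cases u with
  | one s =>
    have hs : s = t := hl
    subst hs
    have h2 : q.2 (Sum.inr s) (Sum.inl s) := ha.2.2
    exact ⟨(NT_congr q h2).1 h1, h1, Or.inl h2⟩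
  | snoc u s =>
    have hs : s = t := hl
    subst hs
    have h2 : q.2 (Sum.inl (head u)) (Sum.inr s) := q.2.symm ha.2.2
    have h3 : q.2 (Sum.inr (last u)) (Sum.inl s) := hu.2.2.2
    refine ⟨⟨one s * u, ?_, ?_, ?_⟩, h1, Or.inr ⟨u, hu.1, h2, h3⟩⟩
    · rw [path_mul]
      exact ⟨ha.1, ha, hu.1⟩
    · rw [head_mul]; exact q.2.refl _
    · rw [last_mul]; exact h3

theorem inner_arcs [Finite S] {t : S} (ht : conn (dg q) t t) :
    arcs (cc q (Sum.inl t) * one t * cc q (Sum.inr t)) ≤ arcs (cc q (Sum.inl t)) := by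
  obtain ⟨h1, h2, h3⟩ := inner_spec q ht
  obtain ⟨a1, a2⟩ := cc_spec q h1
  obtain ⟨b1, -⟩ := cc_spec q h2
  have ht1 : q.1 t := by
    obtain ⟨u, hu, ha, hl⟩ := ht
    exact ha.1
  have hp : path (dg q) (cc q (Sum.inl t) * one t * cc q (Sum.inr t)) := by
    rw [path_mul, path_mul]
    exact ⟨⟨a1.1, mk_arc q (path_last a1.1) ht1 a1.2.2 (q.2.refl _), ht1⟩,
      mk_arc q ht1 (ph b1.1) (q.2.refl _) b1.2.1, b1.1⟩
  rcases h3 with h3 | ⟨r, r1, r2, r3⟩
  · apply a2
    refine ⟨hp, ?_, ?_⟩
    · rw [head_mul, head_mul]; exact a1.2.1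
    · rw [last_mul]; exact q.2.trans b1.2.2 h3
  · refine (arcs_mul_left _ r).trans (a2 _ ⟨?_, ?_, ?_⟩)
    · rw [path_mul]
      refine ⟨hp, ?_, r1⟩
      rw [last_mul]
      exact mk_arc q (path_last b1.1) (ph r1) b1.2.2 r2
    · rw [head_mul, head_mul, head_mul]; exact a1.2.1
    · rw [last_mul]; exact r3

theorem reach_last' {p : W S} (hp : path (dg q) p) {x : S} (h : (arcs p).1 x) :
    x = last p ∨ conn (dg q) x (last p) := by
  induction p with
  | one s => exact Or.inl h
  | snoc w t ih =>
    obtain ⟨h1, h2⟩ := hp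
    rcases h with h | h
    · rcases ih h1 h with h3 | h3
      · right; rw [h3]; exact conn_of_arc h2
      · right; exact conn_trans h3 (conn_of_arc h2)
    · left; exact h

theorem pathletter {p : W S} (hp : path (dg q) p) {x : S} (h : (arcs p).1 x) : q.1 x :=
  ((arcs_le_iff p).2 hp).1 x h

theorem H4 {p : W S} (hp : path (dg q) p) {x : S} (hx : (arcs p).1 x)
    (h : q.2 (Sum.inl x) (Sum.inl (head p))) (hn : ¬ NT q (Sum.inl x)) : x = head p := by
  induction p with
  | one s => exact hx
  | snoc w t ih =>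
    rcases hx with hx | hx
    · exact ih hp.1 hx h
    · subst hx
      exact absurd ⟨w, hp.1, q.2.symm h, hp.2.2.2⟩ hn

theorem H5 {p : W S} (hp : path (dg q) p) {x : S} (hx : (arcs p).1 x)
    (h : q.2 (Sum.inr x) (Sum.inr (last p))) (hn : ¬ NT q (Sum.inr x)) : x = last p := by
  cases p with
  | one s => exact hx
  | snoc w t =>
    rcases hx with hx | hx
    · exfalso
      apply hn
      rcases reach_last' q hp.1 hx with h1 | ⟨u, u1, u2, u3⟩
      · subst h1
        exact ⟨one t, hp.2.2.1, q.2.symm hp.2.2.2, q.2.symm h⟩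
      · refine ⟨u * one t, ?_, ?_, ?_⟩
        · rw [path_mul, u3]
          exact ⟨u1, hp.2, hp.2.2.1⟩
        · rw [head_mul]; exact q.2.symm u2.2.2
        · rw [last_mul]; exact q.2.symm h
    · exact hx

theorem H2 {p : W S} (hp : path (dg q) p) {x y : S} (hx : (arcs p).1 x) (hy : (arcs p).1 y)
    (h : arc (dg q) x y) (hn : ¬ NT q (Sum.inr x)) : (arcs p).2 x y := by
  induction p with
  | one s =>
    exfalso
    apply hn
    have hx' : x = s := hx
    have hy' : y = s := hy
    subst hx'
    subst hy'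
    exact ⟨one y, hp, q.2.symm h.2.2, q.2.refl _⟩
  | snoc w t ih =>
    rcases hy with hy | hy
    · rcases hx with hx | hx
      · exact Or.inl (ih hp.1 hx hy)
      · exfalso
        apply hn
        subst hx
        rcases reach_last' q hp.1 hy with h1 | ⟨u, u1, u2, u3⟩
        · subst h1
          exact ⟨one (last w) * one x, (path_mul _ _).2 ⟨h.2.1, hp.2, h.1⟩,
            q.2.symm h.2.2, q.2.refl _⟩
        · refine ⟨one y * u * one x, ?_, ?_, ?_⟩
          · rw [path_mul, path_mul, last_mul, u3]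
            exact ⟨⟨h.2.1, u2, u1⟩, hp.2, h.1⟩
          · rw [head_mul, head_mul]; exact q.2.symm h.2.2
          · rw [last_mul]; exact q.2.refl _
    · subst hy
      rcases hx with hx | hx
      · rcases reach_last' q hp.1 hx with h1 | ⟨u, u1, u2, u3⟩
        · exact Or.inr ⟨h1, rfl⟩
        · exfalso
          apply hn
          refine ⟨u, u1, q.2.symm u2.2.2, ?_⟩
          rw [u3]
          exact q.2.trans hp.2.2.2 (q.2.symm h.2.2)
      · exfalso
        apply hn
        subst hx
        exact ⟨one x, h.1, q.2.symm h.2.2, q.2.refl _⟩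

end comb

section ins
variable {S : Type} [Finite S] (q : Qv S) (K : ℕ)

open Classical in
/-- a letter, followed by a power of the canonical closed path -/
noncomputable def ins (s : S) : W S :=
  if NT q (Sum.inr s) then one s * npw (cc q (Sum.inr s)) K else one s

/-- insertion after every letter -/
noncomputable def pv : W S → W S
  | one s => ins q K s
  | snoc w s => pv w * ins q K s

open Classical in
/-- insertion at all vertices -/
noncomputable def P (w : W S) : W S :=
  if NT q (Sum.inl (head w)) then npw (cc q (Sum.inl (head w))) K * pv q K w else pv q K w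

theorem P_snoc (w : W S) (s : S) : P q K (snoc w s) = P q K w * ins q K s := by
  unfold P
  by_cases h : NT q (Sum.inl (head w))
  · have h' : NT q (Sum.inl (head (snoc w s))) := h
    rw [if_pos h, if_pos h', mul_assoc]
    rfl
  · have h' : ¬ NT q (Sum.inl (head (snoc w s))) := h
    rw [if_neg h, if_neg h']
    rfl

theorem ins_head (s : S) : head (ins q K s) = s := by
  unfold ins
  split_ifs
  · rw [head_mul]; rfl
  · rfl

theorem ins_last (s : S) : (NT q (Sum.inr s) → last (ins q K s) = last (cc q (Sum.inr s))) ∧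
    (¬ NT q (Sum.inr s) → last (ins q K s) = s) := by
  constructor
  · intro h
    unfold ins
    rw [if_pos h, last_mul, npw_last]
  · intro h
    unfold ins
    rw [if_neg h]
    rfl

theorem P_last (w : W S) :
    (NT q (Sum.inr (last w)) → last (P q K w) = last (cc q (Sum.inr (last w)))) ∧
    (¬ NT q (Sum.inr (last w)) → last (P q K w) = last w) := by
  cases w with
  | one s =>
    have h : last (P q K (one s)) = last (ins q K s) := by
      unfold P
      split_ifs
      · rw [last_mul]; rfl
      · rfl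
    rw [h]
    exact ins_last q K s
  | snoc w s =>
    rw [P_snoc, last_mul]
    exact ins_last q K s

/-- the conditions for `P w` to be a path of `D` -/
structure Bd (D : Dig S) (w : W S) : Prop where
  b1 : ∀ t, (arcs w).1 t → D.1 t
  b2 : ∀ t, (arcs w).1 t → NT q (Sum.inl t) → path D (cc q (Sum.inl t))
  b2' : ∀ t, (arcs w).1 t → NT q (Sum.inr t) → path D (cc q (Sum.inr t))
  b3 : ∀ t, (arcs w).1 t → NT q (Sum.inr t) → arc D t (head (cc q (Sum.inr t)))
  b4 : ∀ t, (arcs w).1 t → NT q (Sum.inl t) → arc D (last (cc q (Sum.inl t))) t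
  b5 : ∀ s t, (arcs w).2 s t → ¬ NT q (Sum.inr s) → arc D s t

theorem path_of_npw {D : Dig S} {c : W S} {k : ℕ} (h : path D (npw c k)) : path D c := by
  cases k with
  | zero => exact h
  | succ k => exact ((path_mul _ _).1 h).2.2

theorem ins_path {D : Dig S} {s : S} (h : path D (ins q K s)) : D.1 s ∧
    (NT q (Sum.inr s) → path D (cc q (Sum.inr s)) ∧ arc D s (head (cc q (Sum.inr s)))) := by
  unfold ins at h
  by_cases hn : NT q (Sum.inr s)
  · rw [if_pos hn, path_mul] at h
    refine ⟨h.1, fun _ => ⟨path_of_npw h.2.2, ?_⟩⟩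
    have := h.2.1
    rwa [npw_head] at this
  · rw [if_neg hn] at h
    exact ⟨h, fun h' => absurd h' hn⟩

theorem bd_of {D : Dig S} (w : W S) (hw : path (dg q) w) (h : path D (P q K w)) : Bd q D w := by
  induction w with
  | one s =>
    have h0 : path D (ins q K s) ∧ (NT q (Sum.inl s) → path D (cc q (Sum.inl s)) ∧
        arc D (last (cc q (Sum.inl s))) s) := by
      unfold P at h
      by_cases hn : NT q (Sum.inl (head (one s)))
      · rw [if_pos hn, path_mul] at h
        obtain ⟨h1, h2, h3⟩ := h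
        refine ⟨h3, fun _ => ⟨path_of_npw h1, ?_⟩⟩
        rw [npw_last] at h2
        have e : head (pv q K (one s)) = s := ins_head q K s
        rw [e] at h2
        exact h2
      · rw [if_neg hn] at h
        exact ⟨h, fun h' => absurd h' hn⟩
    obtain ⟨h1, h2⟩ := h0
    obtain ⟨h3, h4⟩ := ins_path q K h1
    refine ⟨?_, ?_, ?_, ?_, ?_, ?_⟩
    · rintro t rfl; exact h3
    · rintro t rfl hn; exact (h2 hn).1
    · rintro t rfl hn; exact (h4 hn).1
    · rintro t rfl hn; exact (h4 hn).2
    · rintro t rfl hn; exact (h2 hn).2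
    · intro s' t' h' _; exact (h' : False).elim
  | snoc w t ih =>
    rw [P_snoc, path_mul, ins_head] at h
    obtain ⟨h1, h2, h3⟩ := h
    have hb := ih hw.1 h1
    obtain ⟨h4, h5⟩ := ins_path q K h3
    have hv : q.2 (Sum.inr (last w)) (Sum.inl t) := hw.2.2.2
    have hlast : (arcs w).1 (last w) := by cases w <;> first | rfl | exact Or.inr rfl
    have h6 : NT q (Sum.inl t) → path D (cc q (Sum.inl t)) ∧ arc D (last (cc q (Sum.inl t))) t := by
      intro hn
      have hn' : NT q (Sum.inr (last w)) := (NT_congr q hv).2 hn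
      have e := cc_congr q hv hn'
      rw [(P_last q K w).1 hn', e] at h2
      refine ⟨?_, h2⟩
      rw [← e]
      exact hb.b2' _ hlast hn'
    refine ⟨?_, ?_, ?_, ?_, ?_, ?_⟩
    · rintro x (hx | rfl)
      · exact hb.b1 x hx
      · exact h4
    · rintro x (hx | rfl) hn
      · exact hb.b2 x hx hn
      · exact (h6 hn).1
    · rintro x (hx | rfl) hn
      · exact hb.b2' x hx hn
      · exact (h5 hn).1
    · rintro x (hx | rfl) hn
      · exact hb.b3 x hx hn
      · exact (h5 hn).2
    · rintro x (hx | rfl) hn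
      · exact hb.b4 x hx hn
      · exact (h6 hn).2
    · rintro x y (hx | ⟨rfl, rfl⟩) hn
      · exact hb.b5 x y hx hn
      · rw [(P_last q K w).2 hn] at h2
        exact h2

/-- one step -/
theorem stepD {D : Dig S} {p : W S} (hb : Bd q D p) {t : S}
    (h1 : ¬ conn (dg q) t t → (arcs p).1 t)
    (h2 : NT q (Sum.inl t) → path D (cc q (Sum.inl t))) :
    path D (ins q K t) ∧ (NT q (Sum.inl t) → arc D (last (cc q (Sum.inl t))) t) ∧
      (NT q (Sum.inr t) → path D (cc q (Sum.inr t))) := by
  have key : D.1 t ∧ (NT q (Sum.inl t) → arc D (last (cc q (Sum.inl t))) t) ∧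
      (NT q (Sum.inr t) → path D (cc q (Sum.inr t)) ∧ arc D t (head (cc q (Sum.inr t)))) := by
    by_cases ht : conn (dg q) t t
    · have h3 := inner_arcs q ht
      have h4 : path D (cc q (Sum.inl t) * one t * cc q (Sum.inr t)) := by
        rw [← arcs_le_iff]
        exact h3.trans ((arcs_le_iff _).2 (h2 (inner_spec q ht).1))
      rw [path_mul, path_mul] at h4
      obtain ⟨⟨a1, a2, a3⟩, a4, a5⟩ := h4
      exact ⟨a3, fun _ => a2, fun _ => ⟨a5, a4⟩⟩
    · have h3 := h1 ht
      exact ⟨hb.b1 t h3, hb.b4 t h3, fun hn => ⟨hb.b2' t h3 hn, hb.b3 t h3 hn⟩⟩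
  obtain ⟨k1, k2, k3⟩ := key
  refine ⟨?_, k2, fun hn => (k3 hn).1⟩
  unfold ins
  by_cases hn : NT q (Sum.inr t)
  · rw [if_pos hn, path_mul, npw_head]
    exact ⟨k1, (k3 hn).2, npw_path q hn (k3 hn).1 K⟩
  · rw [if_neg hn]; exact k1

theorem build {D : Dig S} {p : W S} (hp : path (dg q) p) (hb : Bd q D p) (w : W S)
    (hw : path (dg q) w) (h0 : q.2 (Sum.inl (head p)) (Sum.inl (head w)))
    (h1 : ∀ t, (arcs w).1 t → ¬ conn (dg q) t t → (arcs p).1 t) :
    path D (P q K w) ∧ (NT q (Sum.inr (last w)) → path D (cc q (Sum.inr (last w)))) := by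
  have hhead : (arcs p).1 (head p) := by
    clear hp hb h0 h1
    induction p with
    | one s => rfl
    | snoc w t ih => exact Or.inl ih
  induction w with
  | one t =>
    have h2 : NT q (Sum.inl t) → path D (cc q (Sum.inl t)) := by
      intro hn
      have hn' : NT q (Sum.inl (head p)) := (NT_congr q h0).2 hn
      have e : cc q (Sum.inl (head p)) = cc q (Sum.inl t) := cc_congr q h0 hn'
      rw [← e]
      exact hb.b2 _ hhead hn'
    obtain ⟨a1, a2, a3⟩ := stepD q K hb (t := t) (fun hc => h1 t rfl hc) h2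
    refine ⟨?_, a3⟩
    unfold P
    by_cases hn : NT q (Sum.inl (head (one t)))
    · rw [if_pos hn, path_mul, npw_last]
      refine ⟨npw_path q hn (h2 hn) K, ?_, a1⟩
      have e : head (pv q K (one t)) = t := ins_head q K t
      rw [e]
      exact a2 hn
    · rw [if_neg hn]; exact a1
  | snoc w t ih =>
    obtain ⟨i1, i2⟩ := ih hw.1 h0 (fun x hx hc => h1 x (Or.inl hx) hc)
    have hv : q.2 (Sum.inr (last w)) (Sum.inl t) := hw.2.2.2
    have hlast : (arcs w).1 (last w) := by cases w <;> first | rfl | exact Or.inr rfl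
    have h2 : NT q (Sum.inl t) → path D (cc q (Sum.inl t)) := by
      intro hn
      have hn' : NT q (Sum.inr (last w)) := (NT_congr q hv).2 hn
      rw [← cc_congr q hv hn']
      exact i2 hn'
    obtain ⟨a1, a2, a3⟩ := stepD q K hb (t := t) (fun hc => h1 t (Or.inr rfl) hc) h2
    refine ⟨?_, a3⟩
    rw [P_snoc, path_mul, ins_head]
    refine ⟨i1, ?_, a1⟩
    by_cases hn : NT q (Sum.inr (last w))
    · rw [(P_last q K w).1 hn, cc_congr q hv hn]
      exact a2 ((NT_congr q hv).1 hn)
    · rw [(P_last q K w).2 hn]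
      have c1 : ¬ conn (dg q) (last w) (last w) := fun hc => hn (inner_spec q hc).2.1
      have c2 : ¬ conn (dg q) t t := fun hc =>
        hn ((NT_congr q hv).2 (inner_spec q hc).1)
      have d1 := h1 (last w) (Or.inl hlast) c1
      have d2 := h1 t (Or.inr rfl) c2
      exact hb.b5 _ _ (H2 q hp d1 d2 hw.2 hn) hn

theorem path_P {w : W S} (hw : path (dg q) w) : path (dg q) (P q K w) := by
  have hb : Bd q (dg q) w := by
    refine ⟨fun t ht => pathletter q hw ht, fun t _ hn => (cc_spec q hn).1.1,
      fun t _ hn => (cc_spec q hn).1.1, fun t ht hn => ?_, fun t ht hn => ?_, fun s t hst _ => ?_⟩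
    · have h1 := (cc_spec q hn).1
      exact mk_arc q (pathletter q hw ht) (ph h1.1) (q.2.refl _) h1.2.1
    · have h1 := (cc_spec q hn).1
      exact mk_arc q (path_last h1.1) (pathletter q hw ht) h1.2.2 (q.2.refl _)
    · have h1 : arcs w ≤ dg q := (arcs_le_iff w).2 hw
      have h2 : (arcs w).1 s ∧ (arcs w).1 t := by
        clear hw h1
        induction w with
        | one x => exact (hst : False).elim
        | snoc w x ih =>
          rcases hst with hst | ⟨rfl, rfl⟩
          · exact ⟨Or.inl (ih hst).1, Or.inl (ih hst).2⟩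
          · refine ⟨Or.inl ?_, Or.inr rfl⟩
            cases w <;> first | rfl | exact Or.inr rfl
      exact ⟨h1.1 _ h2.1, h1.1 _ h2.2, h1.2 _ _ hst⟩
  exact (build q K hw hb w hw (q.2.refl _) (fun t ht _ => ht)).1

end ins

section evs
variable {V : PV} {C : Type} [Semigroup C] [Finite C] {z : C}
  {S : Type} [Finite S]

theorem ev_P (k : Co V z) (q : Qv S) (h : ZS z) {t0 : ℕ} (ht0 : Nat.card C ≤ t0) (y : S → C) (w : W S)
    (hw : ev y (P q (t0.factorial - 1) w) ≠ z) : ev y (P q (t0.factorial - 1) w) = ev y w := by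
  have hid : ∀ c : W S, ev y (npw c (t0.factorial - 1)) * ev y (npw c (t0.factorial - 1)) =
      ev y (npw c (t0.factorial - 1)) := by
    intro c
    rw [ev_npw]
    exact npw_idem ht0 _
  have hins : ∀ s, ev y (ins q (t0.factorial - 1) s) ≠ z →
      ev y (ins q (t0.factorial - 1) s) = y s := by
    intro s hs
    unfold ins at hs ⊢
    split_ifs at hs ⊢ with hn
    · rw [ev_mul] at hs ⊢
      exact k.rid _ _ (hid _) hs
    · rfl
  have hpv : ∀ w : W S, ev y (pv q (t0.factorial - 1) w) ≠ z →
      ev y (pv q (t0.factorial - 1) w) = ev y w := by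
    intro w
    induction w with
    | one s => exact hins s
    | snoc w s ih =>
      intro hw
      have e : ev y (pv q (t0.factorial - 1) (snoc w s)) =
          ev y (pv q (t0.factorial - 1) w) * ev y (ins q (t0.factorial - 1) s) := ev_mul _ _ _
      rw [e] at hw ⊢
      rw [ih (h.mul_left_ne hw), hins s (h.mul_right_ne hw)]
      rfl
  unfold P at hw ⊢
  split_ifs at hw ⊢ with hn
  · rw [ev_mul] at hw ⊢
    rw [k.lid _ _ (hid _) hw]
    exact hpv w (h.mul_right_ne hw)
  · exact hpv w hw

end evs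

open Classical in
theorem count_letter {S H : Type} [Group H] {q : Qv S} (a : H) {x : S} (hx : ¬ conn (dg q) x x)
    (p : W S) (hp : path (dg q) p) :
    ((arcs p).1 x → ev (fun s => if x = s ∧ ¬ conn (dg q) s s then a else 1) p = a) ∧
    (¬ (arcs p).1 x → ev (fun s => if x = s ∧ ¬ conn (dg q) s s then a else 1) p = 1) := by
  induction p with
  | one s =>
    constructor
    · intro h
      have h' : x = s := h
      subst h'
      exact if_pos ⟨rfl, hx⟩
    · intro h
      have h' : ¬ x = s := h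
      exact if_neg (fun h1 => h' h1.1)
  | snoc w t ih =>
    obtain ⟨h1, h2⟩ := hp
    obtain ⟨i1, i2⟩ := ih h1
    have hlab : ev (fun s => if x = s ∧ ¬ conn (dg q) s s then a else 1) (snoc w t) =
      ev (fun s => if x = s ∧ ¬ conn (dg q) s s then a else 1) w *
      (if x = t ∧ ¬ conn (dg q) t t then a else 1) := rfl
    have hi : (arcs (snoc w t)).1 x ↔ ((arcs w).1 x ∨ x = t) := Iff.rfl
    rw [hlab, hi]
    by_cases h : x = t
    · have hn : ¬ (arcs w).1 x := by
        intro h3
        apply hx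
        rcases reach_last' q h1 h3 with h4 | h4
        · have h5 : conn (dg q) (last w) t := conn_of_arc h2
          rw [← h4, ← h] at h5
          exact h5
        · have h5 : conn (dg q) (last w) t := conn_of_arc h2
          rw [← h] at h5
          exact conn_trans h4 h5
      rw [i2 hn, if_pos ⟨h, by rw [← h]; exact hx⟩, one_mul]
      exact ⟨fun _ => rfl, fun h' => absurd (Or.inr h) h'⟩
    · rw [if_neg (fun h' => h h'.1), mul_one]
      exact ⟨fun h' => i1 (h'.resolve_right h), fun h' => i2 (fun h3 => h' (Or.inl h3))⟩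

theorem ev_map {S G H : Type} [Group G] [Group H] (f : G →* H) (lb : S → G) (p : W S) :
    f (ev lb p) = ev (fun s => f (lb s)) p := map_ev (f : G →ₙ* H) lb p

theorem lab_hsp (V : PV) {m0 : ℕ} (hm0 : 2 ≤ m0) (hV : V.mem (Multiplicative (ZMod m0)))
    {S : Type} [Finite S] {ι : Type} [Finite ι] (C : ι → Type)
    [∀ i, Semigroup (C i)] [∀ i, Finite (C i)] (z : ∀ i, C i) (hz : ∀ i, ZS (z i))
    (k : ∀ i, Co V (z i)) (y : ∀ i, S → C i) {t0 : ℕ} (ht0 : ∀ i, Nat.card (C i) ≤ t0)
    (q : Qv S) :
    LabQ V q (fun p p' => ∀ i, ev (y i) (P q (t0.factorial - 1) p) =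
      ev (y i) (P q (t0.factorial - 1) p')) := by
  classical
  let lb : S → ((∀ i, (k i).G) × (S → Multiplicative (ZMod m0))) := fun s =>
    (fun i => (k i).γ (y i s), fun x => if x = s ∧ ¬ conn (dg q) s s then
      Multiplicative.ofAdd (1 : ZMod m0) else 1)
  refine ⟨((∀ i, (k i).G) × (S → Multiplicative (ZMod m0))), inferInstance, lb, ?_, ?_⟩
  · exact V.prod _ _ (V.pi _ fun i => (k i).mem) (V.pi _ fun _ => hV)
  · intro p p' hp hp' hh hl he
    have hcomp : ∀ i, ev (fun s => (k i).γ (y i s)) p = ev (fun s => (k i).γ (y i s)) p' := by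
      intro i
      have e1 := ev_map ((Pi.evalMonoidHom (fun i => (k i).G) i).comp (MonoidHom.fst _ _)) lb p
      have e2 := ev_map ((Pi.evalMonoidHom (fun i => (k i).G) i).comp (MonoidHom.fst _ _)) lb p'
      rw [he] at e1
      exact e1.symm.trans e2
    have hout : ∀ x : S, ¬ conn (dg q) x x → ((arcs p).1 x ↔ (arcs p').1 x) := by
      intro x hx
      have e1 := ev_map ((Pi.evalMonoidHom (fun _ => Multiplicative (ZMod m0)) x).comp
        (MonoidHom.snd _ _)) lb p
      have e2 := ev_map ((Pi.evalMonoidHom (fun _ => Multiplicative (ZMod m0)) x).comp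
        (MonoidHom.snd _ _)) lb p'
      rw [he] at e1
      have e3 := e1.symm.trans e2
      have e4 : ev (fun s => if x = s ∧ ¬ conn (dg q) s s then
          Multiplicative.ofAdd (1 : ZMod m0) else 1) p =
          ev (fun s => if x = s ∧ ¬ conn (dg q) s s then
          Multiplicative.ofAdd (1 : ZMod m0) else 1) p' := e3
      obtain ⟨c1, c2⟩ := count_letter (Multiplicative.ofAdd (1 : ZMod m0)) hx p hp
      obtain ⟨c3, c4⟩ := count_letter (Multiplicative.ofAdd (1 : ZMod m0)) hx p' hp'
      have hne : Multiplicative.ofAdd (1 : ZMod m0) ≠ 1 := by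
        have : Fact (1 < m0) := ⟨hm0⟩
        intro h
        have h1 : (1 : ZMod m0) = 0 := h
        exact one_ne_zero h1
      constructor
      · intro h1
        by_contra h2
        rw [c1 h1, c4 h2] at e4
        exact hne e4
      · intro h1
        by_contra h2
        rw [c2 h2, c3 h1] at e4
        exact hne e4.symm
    have main : ∀ p p' : W S, path (dg q) p → path (dg q) p' →
        q.2 (Sum.inl (head p)) (Sum.inl (head p')) →
        (∀ x : S, ¬ conn (dg q) x x → ((arcs p).1 x ↔ (arcs p').1 x)) → ∀ D : Dig S,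
        path D (P q (t0.factorial - 1) p) → path D (P q (t0.factorial - 1) p') := by
      intro p p' hp hp' hh hout D hD
      exact (build q _ hp (bd_of q _ p hp hD) p' hp' hh (fun t ht hc => (hout t hc).2 ht)).1
    intro i
    by_cases h1 : path (dg ((k i).q (y i))) (P q (t0.factorial - 1) p)
    · have h2 := main p p' hp hp' hh hout _ h1
      have n1 := ((k i).ev_ne (y i) (hz i) _).2 h1
      have n2 := ((k i).ev_ne (y i) (hz i) _).2 h2
      have e1 := ev_P (k i) q (hz i) (ht0 i) (y i) p n1
      have e2 := ev_P (k i) q (hz i) (ht0 i) (y i) p' n2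
      have b1 := bd_of q _ p hp h1
      have b2 := bd_of q _ p' hp' h2
      have hhead : ∀ w : W S, (arcs w).1 (head w) := by
        intro w
        induction w with
        | one s => rfl
        | snoc w t ih => exact Or.inl ih
      have hlast : ∀ w : W S, (arcs w).1 (last w) := by
        intro w
        cases w <;> first | rfl | exact Or.inr rfl
      rw [e1, e2]
      rw [e1] at n1
      rw [e2] at n2
      have p1 := ((k i).ev_ne (y i) (hz i) _).1 n1
      have p2 := ((k i).ev_ne (y i) (hz i) _).1 n2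
      obtain ⟨a1, a2, a3⟩ := (k i).ev_co (y i) (hz i) p p1
      obtain ⟨c1, c2, c3⟩ := (k i).ev_co (y i) (hz i) p' p2
      refine (k i).inj _ _ n1 n2 ?_ ?_ ?_
      · rw [a1, c1]
        by_cases hn : NT q (Sum.inl (head p))
        · have hn' : NT q (Sum.inl (head p')) := (NT_congr q hh).1 hn
          have e := cc_congr q hh hn
          have d1 := (b1.b4 _ (hhead p) hn).2.2
          have d2 := (b2.b4 _ (hhead p') hn').2.2
          rw [← e] at d2
          have d1' : (k i).R (y i (last (cc q (Sum.inl (head p))))) =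
            (k i).L (y i (head p)) := d1
          have d2' : (k i).R (y i (last (cc q (Sum.inl (head p))))) =
            (k i).L (y i (head p')) := d2
          rw [← d1', ← d2']
        · have hn' : ¬ NT q (Sum.inl (head p')) := fun h => hn ((NT_congr q hh).2 h)
          have hc : ¬ conn (dg q) (head p') (head p') := fun h => hn' (inner_spec q h).1
          have h3 := (hout _ hc).2 (hhead p')
          have h4 := H4 q hp h3 (q.2.symm hh) hn'
          rw [h4]
      · rw [a2, c2]
        by_cases hn : NT q (Sum.inr (last p))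
        · have hn' : NT q (Sum.inr (last p')) := (NT_congr q hl).1 hn
          have e := cc_congr q hl hn
          have d1 := (b1.b3 _ (hlast p) hn).2.2
          have d2 := (b2.b3 _ (hlast p') hn').2.2
          rw [← e] at d2
          have d1' : (k i).R (y i (last p)) =
            (k i).L (y i (head (cc q (Sum.inr (last p))))) := d1
          have d2' : (k i).R (y i (last p')) =
            (k i).L (y i (head (cc q (Sum.inr (last p))))) := d2
          rw [d1', d2']
        · have hn' : ¬ NT q (Sum.inr (last p')) := fun h => hn ((NT_congr q hl).2 h)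
          have hc : ¬ conn (dg q) (last p') (last p') := fun h => hn' (inner_spec q h).2.1
          have h3 := (hout _ hc).2 (hlast p')
          have h4 := H5 q hp h3 (q.2.symm hl) hn'
          rw [h4]
      · rw [a3, c3]
        exact hcomp i
    · have h2 : ¬ path (dg ((k i).q (y i))) (P q (t0.factorial - 1) p') := fun h2 =>
        h1 (main p' p hp' hp (q.2.symm hh) (fun x hx => (hout x hx).symm) _ h2)
      rw [← (k i).ev_ne (y i) (hz i), not_not] at h1 h2
      rw [h1, h2]

theorem aux {V : PV} {m : ℕ} (B : FinSg) (M : Qv B → FinSg) (g : ∀ E, B → M E)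
    (hM : ∀ E, M E ∈ BS V)
    (hc : ∀ E, Nat.card (M E) ≤ kB m (Nat.card B) (Nat.card B + 1))
    (hstar : ∀ w w' : W B, (∀ E, ev (g E) w = ev (g E) w') → val w = val w') :
    ∃ U ∈ opS (opP (BS V)), Nat.card U ≤ hspQ m (Nat.card B) ∧
      ∃ f : U →ₙ* B, Surjective f := by
  classical
  let Φ : W B → (∀ E, M E) := fun w E => ev (g E) w
  have hΦ : ∀ u v, Φ (u * v) = Φ u * Φ v := fun u v => funext fun E => ev_mul (g E) u v
  let U : Subsemigroup (∀ E, M E) :=
    { carrier := {r | ∃ w, Φ w = r}
      mul_mem' := by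
        rintro a b ⟨u, rfl⟩ ⟨v, rfl⟩
        exact ⟨u * v, hΦ u v⟩ }
  have : Nonempty (Qv B) := ⟨(fun _ => True, ⊥)⟩
  let PS : FinSg := ⟨∀ E, M E, inferInstance, inferInstance, inferInstance⟩
  have hPS : PS ∈ opP (BS V) :=
    pi_mem_opP M hM PS (MulEquiv.refl _)
  have hUne : Nonempty U := by
    obtain ⟨b⟩ := B.ne
    exact ⟨⟨Φ (one b), one b, rfl⟩⟩
  let US : FinSg := ⟨U, inferInstance, inferInstance, hUne⟩
  have hUS : US ∈ opS (opP (BS V)) :=
    ⟨PS, hPS, (MulMemClass.subtype U : U →ₙ* (∀ E, M E)), Subtype.val_injective⟩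
  have hrep : ∀ r : U, ∃ w : W B, Φ w = r.1 := fun r => r.2
  choose wd hwd using hrep
  have hval : ∀ (r : U) (w : W B), Φ w = r.1 → val (wd r) = val w := by
    intro r w hw
    refine hstar _ _ fun E => ?_
    exact congrFun ((hwd r).trans hw.symm) E
  refine ⟨US, hUS, ?_, ⟨⟨fun r => val (wd r), ?_⟩, ?_⟩⟩
  · have h1 : Nat.card U ≤ Nat.card (∀ E, M E) :=
      Nat.card_le_card_of_injective _ Subtype.val_injective
    have := Fintype.ofFinite (Qv B)
    have h2 : Nat.card (∀ E, M E) ≤ hspQ m (Nat.card B) := by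
      have h3 : Nat.card (∀ E, M E) = ∏ E : Qv B, Nat.card (M E) := Nat.card_pi
      have h4 : (∏ E : Qv B, Nat.card (M E)) ≤
          (kB m (Nat.card B) (Nat.card B + 1)) ^ (Finset.univ : Finset (Qv B)).card :=
        Finset.prod_le_pow_card _ _ _ fun E _ => hc E
      have h5 : (Finset.univ : Finset (Qv B)).card = Nat.card (Qv B) := by
        rw [Finset.card_univ, Nat.card_eq_fintype_card]
      rw [h5] at h4
      rw [h3, hspQ]
      refine h4.trans (Nat.pow_le_pow_right ?_ card_Qv)
      unfold kB mB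
      omega
    exact h1.trans h2
  · intro r r'
    show val (wd (r * r')) = val (wd r) * val (wd r')
    rw [hval (r * r') (wd r * wd r') (by rw [hΦ, hwd, hwd]; rfl)]
    exact ev_mul _ _ _
  · intro s
    refine ⟨(⟨Φ (one s), one s, rfl⟩ : U), ?_⟩
    show val (wd ⟨Φ (one s), one s, rfl⟩) = s
    rw [hval _ (one s) rfl]
    rfl

end THsp

open THsp in
theorem t_hsp : T_hsp := by
  classical
  intro hco V m hm B hB
  obtain ⟨A, ⟨A', ⟨n, T, hT, ⟨e⟩⟩, j, hj⟩, f, hf⟩ := hB
  have hzs : ∀ i, ∃ z : (T i).carrier, ZS z := fun i => zs_of_zeroSimple (hT i).1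
  choose z hz using hzs
  have hk : ∀ i, Nonempty (Co V (z i)) := fun i =>
    hco V (T i).carrier (z i) (hz i) (hT i).2.2 (hT i).2.1
  let k : ∀ i, Co V (z i) := fun i => (hk i).some
  choose x hx using hf
  let y : ∀ i, B → (T i).carrier := fun i s => (e (j (x s)) : ∀ i, T i) i
  have hyev : ∀ i (w : W B), ev (y i) w = (e (j (ev x w)) : ∀ i, T i) i := by
    intro i w
    induction w with
    | one s => rfl
    | snoc w s ih =>
      show ev (y i) w * y i s = (e (j (ev x w * x s)) : ∀ i, T i) i
      rw [ih, map_mul, map_mul]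
      rfl
  have hvalx : ∀ w : W B, val w = f (ev x w) := by
    intro w
    rw [map_ev f x w]
    unfold val
    congr 1
    funext s
    exact (hx s).symm
  have hy : ∀ w w' : W B, (∀ i, ev (y i) w = ev (y i) w') → val w = val w' := by
    intro w w' h
    have h1 : (e (j (ev x w)) : ∀ i, T i) = e (j (ev x w')) := by
      funext i
      rw [← hyev, ← hyev]
      exact h i
    have h2 : ev x w = ev x w' := hj (e.injective h1)
    rw [hvalx, hvalx, h2]
  have hn0 : 0 < Nat.card B := Nat.card_pos
  have hmono : ∀ c c', c ≤ c' → kB m (Nat.card B) c ≤ kB m (Nat.card B) c' := by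
    intro c c' h
    unfold kB
    refine mB_mono (Nat.mul_le_mul_left _ (by omega)) ?_
    positivity
  rcases PV.cyc V with htriv | ⟨m0, hm0', hV⟩
  · have hex : ∀ E : Qv B, ∃ (M : FinSg) (g : B → M), M ∈ BS V ∧
        Nat.card M ≤ kB m (Nat.card B) (Nat.card B + 1) ∧
        ∀ w w', ev g w = ev g w' → (path (dg E) w ↔ path (dg E) w') ∧
          (path (dg E) w → E.2 (Sum.inl (head w)) (Sum.inl (head w')) ∧
            E.2 (Sum.inr (last w)) (Sum.inr (last w'))) := by
      intro E
      have hsub : Subsingleton (Quotient (⊤ : Setoid (W B))) := by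
        constructor
        intro a b
        refine Quotient.inductionOn₂ a b fun p p' => Quotient.sound trivial
      have hfin : Finite (Quotient (⊤ : Setoid (W B))) := inferInstance
      obtain ⟨M, g, h1, h2, h3⟩ := hm B E ⊤ (fun _ _ _ _ => trivial) hfin
        ⟨Unit, inferInstance, fun _ => (), V.unit, fun _ _ _ _ _ _ _ => trivial⟩
      refine ⟨M, g, h1, h2.trans (hmono _ _ ?_), fun w w' h => ?_⟩
      · have : Nat.card (Quotient (⊤ : Setoid (W B))) ≤ 1 := Finite.card_le_one_iff_subsingleton.2 hsub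
        omega
      · obtain ⟨h4, h5⟩ := h3 w w' h
        exact ⟨h4, fun hp => ⟨(h5 hp).1, (h5 hp).2.1⟩⟩
    choose M g h1 h2 h3 using hex
    refine aux B M g h1 h2 fun w w' h => ?_
    refine hy w w' fun i => ?_
    obtain ⟨h6, h7⟩ := h3 ((k i).q (y i)) w w' (h _)
    by_cases hp : path (dg ((k i).q (y i))) w
    · have hp' := h6.1 hp
      obtain ⟨G, _, lb, hG, h8⟩ := (k i).labQ (y i) (hz i)
      haveI := htriv G hG
      exact h8 w w' hp hp' (h7 hp).1 (h7 hp).2 (Subsingleton.elim _ _)
    · have hp' : ¬ path (dg ((k i).q (y i))) w' := fun h => hp (h6.2 h)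
      rw [← (k i).ev_ne (y i) (hz i), not_not] at hp hp'
      rw [hp, hp']
  · obtain ⟨t0, ht0⟩ : ∃ t0 : ℕ, ∀ i, Nat.card (T i) ≤ t0 :=
      ⟨∑ i, Nat.card (T i), fun i =>
        Finset.single_le_sum (f := fun i => Nat.card (T i)) (fun _ _ => Nat.zero_le _)
          (Finset.mem_univ i)⟩
    have hex : ∀ E : Qv B, ∃ (M : FinSg) (g : B → M), M ∈ BS V ∧
        Nat.card M ≤ kB m (Nat.card B) (Nat.card B + 1) ∧
        ∀ w w', ev g w = ev g w' → (path (dg E) w ↔ path (dg E) w') ∧
          (path (dg E) w → val (P E (t0.factorial - 1) w) = val (P E (t0.factorial - 1) w')) := by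
      intro E
      let R : Setoid (W B) := Setoid.ker (fun p => val (P E (t0.factorial - 1) p))
      let F : Quotient R → B := Quotient.lift (fun p : W B => val (P E (t0.factorial - 1) p))
        (fun p p' h => h)
      have hF : Injective F := by
        intro a b
        refine Quotient.inductionOn₂ a b fun p p' h => ?_
        exact Quotient.sound h
      have hfin : Finite (Quotient R) := Finite.of_injective F hF
      have hcard : Nat.card (Quotient R) ≤ Nat.card B := Nat.card_le_card_of_injective F hF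
      have hvm : ∀ u v : W B, val (u * v) = val u * val v := fun u v => ev_mul _ u v
      obtain ⟨G, iG, lb, hG, h7⟩ := lab_hsp V hm0' hV (fun i => (T i).carrier) z hz k y ht0 E
      obtain ⟨M, g, h1, h2, h3⟩ := hm B E R (fun p p' s h => by
          show val (P E (t0.factorial - 1) (snoc p s)) = val (P E (t0.factorial - 1) (snoc p' s))
          have h' : val (P E (t0.factorial - 1) p) = val (P E (t0.factorial - 1) p') := h
          rw [P_snoc, P_snoc, hvm, hvm, h']) hfin
        ⟨G, iG, lb, hG, fun p p' hp hp' hh hl hlab => hy _ _ (h7 p p' hp hp' hh hl hlab)⟩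
      exact ⟨M, g, h1, h2.trans (hmono _ _ (by omega)), fun w w' h =>
        ⟨(h3 w w' h).1, fun hp => ((h3 w w' h).2 hp).2.2⟩⟩
    choose M g h1 h2 h3 using hex
    refine aux B M g h1 h2 fun w w' h => ?_
    have hfull : ∀ w : W B, val (P (qarcs w) (t0.factorial - 1) w) = val w := by
      intro w
      apply hy
      intro i
      by_cases hp : path (dg ((k i).q (y i))) w
      · have h4 : qarcs w ≤ (k i).q (y i) := (qarcs_le_iff w).2 hp
        have h5 := qpath_mono h4 (path_P (qarcs w) (t0.factorial - 1) (qpath_self w))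
        exact ev_P (k i) _ (hz i) (ht0 i) (y i) w (((k i).ev_ne (y i) (hz i) _).2 h5)
      · have h4 : ev (y i) w = z i := by
          by_contra hne
          exact hp (((k i).ev_ne (y i) (hz i) _).1 hne)
        rw [h4]
        by_contra hne
        have h5 := ev_P (k i) _ (hz i) (ht0 i) (y i) w hne
        rw [h5] at hne
        exact hne h4
    have h4 : path (dg (qarcs w)) w' := (h3 (qarcs w) w w' (h _)).1.1 (qpath_self w)
    have h5 : path (dg (qarcs w')) w := (h3 (qarcs w') w w' (h _)).1.2 (qpath_self w')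
    have h6 : qarcs w' = qarcs w :=
      le_antisymm ((qarcs_le_iff w').2 h4) ((qarcs_le_iff w).2 h5)
    have h7 := (h3 (qarcs w) w w' (h _)).2 (qpath_self w)
    have h8 := hfull w'
    rw [h6] at h8
    rw [← hfull w, h7, h8]

end Pool.Agent.H770BR
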