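import Pool.Agent.H770BR.Defs
import Pool.Agent.H502.BkJ_rcv
import Pool.Agent.H502.BkJ_rm_allSub
import Pool.Agent.H502.BkJ_mB_mono
set_option autoImplicit false

namespace Pool.Agent.H770BR
open Function Pool.Agent.H502.Bk Pool.Agent.H502.Bk.W

namespace TReal

section
variable {S : Type} (q : Qv S)

/-- representative of the class of a source or target -/
noncomputable def rp (x : S ⊕ S) : S ⊕ S := Quotient.out (Quotient.mk q.2 x)

theorem rp_eq_iff (x y : S ⊕ S) : rp q x = rp q y ↔ q.2 x y := by
  constructor
  · intro h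
    have e : ∀ c : Quotient q.2, Quotient.mk q.2 (Quotient.out c) = c := fun c => Quotient.out_eq c
    have h1 : Quotient.mk q.2 x = Quotient.mk q.2 y := by
      rw [← e (Quotient.mk q.2 x), ← e (Quotient.mk q.2 y)]
      exact congrArg _ h
    exact Quotient.exact h1
  · intro h
    unfold rp
    rw [Quotient.sound h]

/-- source of an edge -/
noncomputable def so (s : S) : S ⊕ S := rp q (Sum.inl s)
/-- target of an edge -/
noncomputable def ta (s : S) : S ⊕ S := rp q (Sum.inr s)

/-- letters and vertices -/
abbrev X (S : Type) := S ⊕ (S ⊕ S)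

/-- the digraph of letters and vertices -/
def D' : Dig (X S) :=
  (fun x => match x with
    | Sum.inl s => q.1 s
    | Sum.inr _ => True,
  fun x y => match x, y with
    | Sum.inl s, Sum.inr v => v = ta q s
    | Sum.inr v, Sum.inl s => v = so q s
    | _, _ => False)

variable {G : Type} [Group G] (lb : S → G)

/-- closed path with label one -/
def HL (v : S ⊕ S) : Prop :=
  ∃ c : W S, path (dg q) c ∧ so q (head c) = v ∧ ta q (last c) = v ∧ ev lb c = 1

theorem arc_of {s t : S} (hs : q.1 s) (ht : q.1 t) (h : ta q s = so q t) : arc (dg q) s t :=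
  ⟨hs, ht, (rp_eq_iff q _ _).1 h⟩

theorem path_head {D : Dig S} {w : W S} (h : path D w) : D.1 (head w) := by
  induction w with
  | one s => exact h
  | snoc w t ih => exact ih h.1

theorem HL_of [Finite G] {v : S ⊕ S} {c : W S} (hc : path (dg q) c) (h1 : so q (head c) = v)
    (h2 : ta q (last c) = v) : HL q lb v := by
  have h3 : arc (dg q) (last c) (head c) :=
    arc_of q (path_last hc) (path_head hc) (h2.trans h1.symm)
  have key : ∀ k, path (dg q) (npw c k) ∧ head (npw c k) = head c ∧ last (npw c k) = last c ∧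
      ev lb (npw c k) = (ev lb c) ^ (k + 1) := by
    intro k
    induction k with
    | zero => exact ⟨hc, rfl, rfl, (pow_one _).symm⟩
    | succ k ih =>
      obtain ⟨a1, a2, a3, a4⟩ := ih
      refine ⟨?_, ?_, ?_, ?_⟩
      · show path (dg q) (npw c k * c)
        rw [path_mul, a3]
        exact ⟨a1, h3, hc⟩
      · show head (npw c k * c) = _
        rw [head_mul, a2]
      · show last (npw c k * c) = _
        rw [last_mul]
      · show ev lb (npw c k * c) = _
        rw [ev_mul, a4, pow_succ (ev lb c) (k + 1)]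
  obtain ⟨a1, a2, a3, a4⟩ := key (Nat.card G - 1)
  refine ⟨npw c (Nat.card G - 1), a1, by rw [a2, h1], by rw [a3, h2], ?_⟩
  rw [a4]
  have : 0 < Nat.card G := Nat.card_pos
  rw [Nat.sub_add_cancel this]
  exact pow_card_eq_one'

/-- appending a letter -/
def ap : Option (W S) → S → W S
  | none, s => one s
  | some w, s => snoc w s

open Classical in
/-- the word in `S` belonging to a word in letters and vertices -/
noncomputable def Psi : W (X S) → Option (W S)
  | one (Sum.inl s) => some (one s)
  | one (Sum.inr v) => if h : HL q lb v then some h.choose else none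
  | snoc u (Sum.inl s) => some (ap (Psi u) s)
  | snoc u (Sum.inr _) => Psi u

/-- label of a letter or vertex -/
def fin' : X S → G
  | Sum.inl s => lb s
  | Sum.inr _ => 1

/-- source vertex of a letter or vertex -/
noncomputable def src : X S → S ⊕ S
  | Sum.inl s => so q s
  | Sum.inr v => v

/-- target vertex of a letter or vertex -/
noncomputable def tgt : X S → S ⊕ S
  | Sum.inl s => ta q s
  | Sum.inr v => v

theorem lab_fin (u : W (X S)) : lab (fun x _ => fin' lb x) u * fin' lb (last u) = ev (fin' lb) u := by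
  induction u with
  | one x => exact one_mul _
  | snoc u x ih =>
    show lab (fun x _ => fin' lb x) u * fin' lb (last u) * fin' lb x = ev (fin' lb) u * fin' lb x
    rw [ih]

theorem Psi_spec (u : W (X S)) (hu : path (D' q) u) :
    (Psi q lb u = none → ∃ v, u = one (Sum.inr v) ∧ ¬ HL q lb v) ∧
    ∀ w, Psi q lb u = some w → path (dg q) w ∧ so q (head w) = src q (head u) ∧
      ta q (last w) = tgt q (last u) ∧ ev lb w = ev (fin' lb) u := by
  classical
  induction u with
  | one x =>
    rcases x with s | v
    · refine ⟨fun h => (by simp [Psi] at h), fun w h => ?_⟩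
      have h1 : one s = w := by simpa [Psi] using h
      subst h1
      exact ⟨hu, rfl, rfl, rfl⟩
    · by_cases hv : HL q lb v
      · have e : Psi q lb (one (Sum.inr v)) = some hv.choose := by
          simp only [Psi]; exact dif_pos hv
        refine ⟨fun h => (by rw [e] at h; cases h), fun w h => ?_⟩
        rw [e] at h
        have h1 : hv.choose = w := Option.some.inj h
        have h2 := hv.choose_spec
        rw [h1] at h2
        exact ⟨h2.1, h2.2.1, h2.2.2.1, h2.2.2.2⟩
      · have e : Psi q lb (one (Sum.inr v)) = none := by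
          simp only [Psi]; exact dif_neg hv
        exact ⟨fun _ => ⟨v, rfl, hv⟩, fun w h => by rw [e] at h; cases h⟩
  | snoc u x ih =>
    obtain ⟨hu1, hu2⟩ := hu
    obtain ⟨i1, i2⟩ := ih hu1
    obtain ⟨-, hx, hux⟩ := hu2
    rcases x with s | v
    · -- a letter
      have hlast : ∃ v, last u = Sum.inr v ∧ v = so q s := by
        generalize hl : last u = y at hux
        rcases y with t | v
        · exact (hux : False).elim
        · exact ⟨v, rfl, hux⟩
      obtain ⟨v, hv, hvs⟩ := hlast
      refine ⟨fun h => (by simp [Psi] at h), fun w h => ?_⟩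
      have h1 : ap (Psi q lb u) s = w := by simpa [Psi] using h
      subst h1
      generalize hp : Psi q lb u = o at *
      rcases o with _ | w0
      · obtain ⟨v', rfl, hv'⟩ := i1 rfl
        have h2 : v' = v := Sum.inr.inj hv
        subst h2
        refine ⟨hx, hvs.symm, rfl, ?_⟩
        show lb s = 1 * lb s
        rw [one_mul]
      · obtain ⟨a1, a2, a3, a4⟩ := i2 w0 rfl
        refine ⟨⟨a1, arc_of q (path_last a1) hx ?_⟩, a2, rfl, ?_⟩
        · rw [a3, hv, ← hvs]; rfl
        · show ev lb w0 * lb s = ev (fin' lb) u * lb s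
          rw [a4]
    · -- a vertex
      have hlast : ∃ s, last u = Sum.inl s ∧ v = ta q s := by
        generalize hl : last u = y at hux
        rcases y with t | v'
        · exact ⟨t, rfl, hux⟩
        · exact (hux : False).elim
      obtain ⟨s, hs, hvs⟩ := hlast
      have e : Psi q lb (snoc u (Sum.inr v)) = Psi q lb u := rfl
      rw [e]
      refine ⟨fun h => ?_, fun w h => ?_⟩
      · obtain ⟨v', rfl, hv'⟩ := i1 h
        have h2 : (Sum.inr v' : X S) = Sum.inl s := hs
        cases h2
      · obtain ⟨a1, a2, a3, a4⟩ := i2 w h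
        refine ⟨a1, a2, ?_, ?_⟩
        · rw [a3, hs]
          exact hvs.symm
        · show ev lb w = ev (fin' lb) u * 1
          rw [a4, mul_one]

/-- invariant -/
noncomputable def inv' (R : Setoid (W S)) (u : W (X S)) : X S × Option (Quotient R) :=
  (last u, (Psi q lb u).map (Quotient.mk R))

/-- the right congruence on the words in letters and vertices -/
noncomputable def R' (R : Setoid (W S)) : Setoid (W (X S)) := Setoid.ker (inv' q lb R)

theorem R'_snoc (R : Setoid (W S)) (hR : ∀ p p' s, R p p' → R (snoc p s) (snoc p' s))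
    (u u' : W (X S)) (x : X S) (h : R' q lb R u u') : R' q lb R (snoc u x) (snoc u' x) := by
  have h' : inv' q lb R u = inv' q lb R u' := h
  have h2 : (Psi q lb u).map (Quotient.mk R) = (Psi q lb u').map (Quotient.mk R) :=
    congrArg Prod.snd h'
  show inv' q lb R (snoc u x) = inv' q lb R (snoc u' x)
  refine Prod.ext rfl ?_
  rcases x with s | v
  · show some (Quotient.mk R (ap (Psi q lb u) s)) = some (Quotient.mk R (ap (Psi q lb u') s))
    congr 1
    generalize Psi q lb u = o at h2
    generalize Psi q lb u' = o' at h2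
    rcases o with _ | w <;> rcases o' with _ | w'
    · rfl
    · cases h2
    · cases h2
    · have h3 : Quotient.mk R w = Quotient.mk R w' := Option.some.inj h2
      exact Quotient.sound (hR _ _ s (Quotient.exact h3))
  · exact h2

theorem lab_main [Finite G] (V : PV) (R : Setoid (W S)) (hG : V.mem G)
    (hR : ∀ p p', path (dg q) p → path (dg q) p' → q.2 (Sum.inl (head p)) (Sum.inl (head p')) →
      q.2 (Sum.inr (last p)) (Sum.inr (last p')) → ev lb p = ev lb p' → R p p') :
    Lab V (D' q) (fun u u' => R' q lb R u u') := by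
  refine ⟨G, inferInstance, fun x _ => fin' lb x, hG, ?_⟩
  intro u u' hu hu' hh hl he
  have hf : ev (fin' lb) u = ev (fin' lb) u' := by
    rw [← lab_fin, ← lab_fin, he, hl]
  show inv' q lb R u = inv' q lb R u'
  refine Prod.ext hl ?_
  show (Psi q lb u).map (Quotient.mk R) = (Psi q lb u').map (Quotient.mk R)
  have bad : ∀ u u' : W (X S), path (D' q) u → path (D' q) u' → head u = head u' →
      last u = last u' → ∀ w', Psi q lb u = none → Psi q lb u' = some w' → False := by
    intro u u' hu hu' hh hl w' h1 h2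
    obtain ⟨v, rfl, hv⟩ := (Psi_spec q lb u hu).1 h1
    obtain ⟨a1, a2, a3, a4⟩ := (Psi_spec q lb u' hu').2 w' h2
    rw [← hh] at a2
    rw [← hl] at a3
    exact hv (HL_of q lb a1 a2 a3)
  rcases h1 : Psi q lb u with _ | w <;> rcases h2 : Psi q lb u' with _ | w'
  · rfl
  · exact (bad u u' hu hu' hh hl w' h1 h2).elim
  · exact (bad u' u hu' hu hh.symm hl.symm w h2 h1).elim
  · obtain ⟨a1, a2, a3, a4⟩ := (Psi_spec q lb u hu).2 w h1
    obtain ⟨b1, b2, b3, b4⟩ := (Psi_spec q lb u' hu').2 w' h2
    have h3 : R w w' := by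
      refine hR w w' a1 b1 ?_ ?_ ?_
      · apply (rp_eq_iff q _ _).1
        show so q (head w) = so q (head w')
        rw [a2, b2, hh]
      · apply (rp_eq_iff q _ _).1
        show ta q (last w) = ta q (last w')
        rw [a3, b3, hl]
      · rw [a4, b4, hf]
    show some (Quotient.mk R w) = some (Quotient.mk R w')
    rw [Quotient.sound h3]

/-- the path in letters and vertices -/
noncomputable def lift' : W S → W (X S)
  | one s => snoc (snoc (one (Sum.inr (so q s))) (Sum.inl s)) (Sum.inr (ta q s))
  | snoc w s => snoc (snoc (lift' w) (Sum.inl s)) (Sum.inr (ta q s))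

theorem lift_last (w : W S) : last (lift' q w) = Sum.inr (ta q (last w)) := by
  cases w <;> rfl

theorem lift_head (w : W S) : head (lift' q w) = Sum.inr (so q (head w)) := by
  induction w with
  | one s => rfl
  | snoc w s ih => exact ih

theorem arc_eq {s t : S} (h : arc (dg q) s t) : ta q s = so q t :=
  (rp_eq_iff q _ _).2 h.2.2

theorem lift_path (w : W S) (hw : path (dg q) w) : path (D' q) (lift' q w) := by
  induction w with
  | one s =>
    exact ⟨⟨trivial, trivial, hw, rfl⟩, hw, trivial, rfl⟩
  | snoc w s ih =>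
    have h1 := ih hw.1
    have h2 := arc_eq q hw.2
    refine ⟨⟨h1, ?_⟩, hw.2.2.1, trivial, rfl⟩
    rw [lift_last]
    exact ⟨trivial, hw.2.2.1, h2⟩

/-- labels of the letters -/
noncomputable def bt {H : Type} [Group H] (l2 : X S → X S → H) (s : S) : H :=
  l2 (Sum.inr (so q s)) (Sum.inl s) * l2 (Sum.inl s) (Sum.inr (ta q s))

theorem lift_lab {H : Type} [Group H] (l2 : X S → X S → H) (w : W S) (hw : path (dg q) w) :
    lab l2 (lift' q w) = ev (bt q l2) w := by
  induction w with
  | one s =>
    show 1 * _ * _ = bt q l2 s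
    rw [one_mul]; rfl
  | snoc w s ih =>
    have h1 := ih hw.1
    have h2 := arc_eq q hw.2
    show lab l2 (lift' q w) * l2 (last (lift' q w)) (Sum.inl s) * l2 (Sum.inl s) (Sum.inr (ta q s)) =
      ev (bt q l2) w * bt q l2 s
    rw [h1, lift_last, h2, mul_assoc]
    rfl

open Classical in
/-- the word with a closed path in front -/
noncomputable def pre (w : W S) : W S :=
  if h : HL q lb (so q (head w)) then h.choose * w else w

theorem pre_snoc (w : W S) (s : S) : pre q lb (snoc w s) = snoc (pre q lb w) s := by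
  unfold pre
  by_cases h : HL q lb (so q (head w))
  · have h' : HL q lb (so q (head (snoc w s))) := h
    rw [dif_pos h, dif_pos h']
    rfl
  · have h' : ¬ HL q lb (so q (head (snoc w s))) := h
    rw [dif_neg h, dif_neg h']

theorem Psi_lift (w : W S) : Psi q lb (lift' q w) = some (pre q lb w) := by
  classical
  induction w with
  | one s =>
    show some (ap (Psi q lb (one (Sum.inr (so q s)))) s) = _
    congr 1
    unfold pre
    by_cases h : HL q lb (so q s)
    · have e : Psi q lb (one (Sum.inr (so q s))) = some h.choose := by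
        simp only [Psi]; exact dif_pos h
      have h' : HL q lb (so q (head (one s))) := h
      rw [e, dif_pos h']
      rfl
    · have e : Psi q lb (one (Sum.inr (so q s))) = none := by
        simp only [Psi]; exact dif_neg h
      have h' : ¬ HL q lb (so q (head (one s))) := h
      rw [e, dif_neg h']
      rfl
  | snoc w s ih =>
    show some (ap (Psi q lb (lift' q w)) s) = _
    rw [ih, pre_snoc]
    rfl

theorem pre_R (R : Setoid (W S))
    (hR : ∀ p p', path (dg q) p → path (dg q) p' → q.2 (Sum.inl (head p)) (Sum.inl (head p')) →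
      q.2 (Sum.inr (last p)) (Sum.inr (last p')) → ev lb p = ev lb p' → R p p')
    (w : W S) (hw : path (dg q) w) : R (pre q lb w) w := by
  classical
  unfold pre
  by_cases h : HL q lb (so q (head w))
  · rw [dif_pos h]
    obtain ⟨c1, c2, c3, c4⟩ := h.choose_spec
    have hp : path (dg q) (h.choose * w) := by
      rw [path_mul]
      exact ⟨c1, arc_of q (path_last c1) (path_head hw) c3, hw⟩
    refine hR _ _ hp hw ?_ ?_ ?_
    · rw [head_mul]
      exact (rp_eq_iff q _ _).1 c2
    · rw [last_mul]
    · rw [ev_mul, c4, one_mul]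
  · rw [dif_neg h]

end

theorem labQB (V : PV) {m : ℕ}
    (hm : ∀ {S : Type} [Finite S] (D : Dig S) (R : Setoid (W S)),
    (∀ p p', R p p' → last p = last p') → (∀ p p' s, R p p' → R (snoc p s) (snoc p' s)) →
    Finite (Quotient R) → Lab V D (fun p p' => R p p') →
    LabB V D (fun p p' => R p p') (gB m (Nat.card S) (Nat.card (Quotient R))))
    {S : Type} [Finite S] (q : Qv S) (R : Setoid (W S))
    (hsn : ∀ p p' s, R p p' → R (snoc p s) (snoc p' s)) (hfin : Finite (Quotient R))
    (hlab : LabQ V q (fun p p' => R p p')) :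
    ∃ c, c ≤ 3 * Nat.card S * (Nat.card (Quotient R) + 1) ∧ (0 < Nat.card S → 0 < c) ∧
      LabQB V q (fun p p' => R p p') (gB m (3 * Nat.card S) c) := by
  obtain ⟨G, iG, lb, hG, hR⟩ := hlab
  have : Finite G := V.fin G hG
  have hinj : Injective (fun x : Quotient (R' q lb R) =>
      Quotient.lift (inv' q lb R) (fun a b h => h) x) := by
    intro x y
    refine Quotient.inductionOn₂ x y (fun a b h => ?_)
    exact Quotient.sound h
  have hfin' : Finite (Quotient (R' q lb R)) := Finite.of_injective _ hinj
  have hcX : Nat.card (X S) = 3 * Nat.card S := by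
    rw [Nat.card_sum, Nat.card_sum]; ring
  have hcard : Nat.card (Quotient (R' q lb R)) ≤ 3 * Nat.card S * (Nat.card (Quotient R) + 1) := by
    have h1 := Nat.card_le_card_of_injective _ hinj
    have h2 : Nat.card (Option (Quotient R)) = Nat.card (Quotient R) + 1 := Finite.card_option
    rw [Nat.card_prod, hcX, h2] at h1
    exact h1
  have hL : LabB V (D' q) (fun u u' => R' q lb R u u')
      (gB m (Nat.card (X S)) (Nat.card (Quotient (R' q lb R)))) := by
    refine hm (D' q) (R' q lb R) ?_ ?_ hfin' (lab_main q lb V R hG hR)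
    · intro p p' h
      exact congrArg Prod.fst (h : inv' q lb R p = inv' q lb R p')
    · intro p p' s h
      exact R'_snoc q lb R hsn p p' s h
  obtain ⟨H, iH, l2, hH, hc, hlift⟩ := hL
  refine ⟨Nat.card (Quotient (R' q lb R)), hcard, ?_, H, iH, bt q l2, hH, ?_, ?_⟩
  · intro hS
    have hne : Nonempty S := (Nat.card_pos_iff.1 hS).1
    obtain ⟨s0⟩ := hne
    have : Nonempty (Quotient (R' q lb R)) := ⟨Quotient.mk _ (one (Sum.inl s0))⟩
    exact Nat.card_pos
  · rw [hcX] at hc
    exact hc
  · intro w w' hw hw' h1 h2 h3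
    have e : R' q lb R (lift' q w) (lift' q w') := by
      refine hlift _ _ (lift_path q w hw) (lift_path q w' hw') ?_ ?_ ?_
      · rw [lift_head, lift_head]
        exact congrArg Sum.inr ((rp_eq_iff q _ _).2 h1)
      · rw [lift_last, lift_last]
        exact congrArg Sum.inr ((rp_eq_iff q _ _).2 h2)
      · rw [lift_lab q l2 w hw, lift_lab q l2 w' hw', h3]
    have e2 : (Psi q lb (lift' q w)).map (Quotient.mk R) =
        (Psi q lb (lift' q w')).map (Quotient.mk R) :=
      congrArg Prod.snd (e : inv' q lb R _ = inv' q lb R _)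
    rw [Psi_lift, Psi_lift] at e2
    have e3 : R (pre q lb w) (pre q lb w') := Quotient.exact (Option.some.inj e2)
    exact R.trans (R.symm (pre_R q lb R hR w hw)) (R.trans e3 (pre_R q lb R hR w' hw'))

section out
open Classical

/-- the identity sandwich matrix -/
noncomputable def dl (G I : Type) [Group G] : I → I → Option G := fun l i => if l = i then some 1 else none

theorem dl_self {G I : Type} [Group G] (i : I) : dl G I i i = some 1 := if_pos rfl
theorem dl_ne {G I : Type} [Group G] {l i : I} (h : l ≠ i) : dl G I l i = none := if_neg h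

theorem dl_zs (G I : Type) [Group G] [Nonempty I] : ZS (RM.zero (dl G I) : RM G I I (dl G I)) :=
  RM.zs (fun i => ⟨i, 1, dl_self i⟩) (fun i => ⟨i, 1, dl_self i⟩)

theorem el_inj {G I L : Type} {P : L → I → Option G} {i i' : I} {g g' : G} {l l' : L}
    (h : RM.el P i g l = RM.el P i' g' l') : i = i' ∧ g = g' ∧ l = l' := by
  have h1 := Option.some.inj h
  exact ⟨congrArg Prod.fst h1, congrArg (fun x => x.2.1) h1, congrArg (fun x => x.2.2) h1⟩

theorem dl_idem {G I : Type} [Group G] (e : RM G I I (dl G I)) (he : e * e = e) :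
    e = RM.zero _ ∨ ∃ i, e = RM.el _ i 1 i := by
  rcases RM.cases' e with rfl | ⟨i, g, l, rfl⟩
  · exact Or.inl rfl
  · right
    by_cases h : l = i
    · subst h
      rw [RM.el_mul_el (dl_self l)] at he
      obtain ⟨-, h2, -⟩ := el_inj he
      rw [mul_one, mul_eq_left] at h2
      exact ⟨l, by rw [h2]⟩
    · rw [RM.el_mul_el_none (dl_ne h)] at he
      exact absurd he.symm (Option.some_ne_none _)

theorem dl_ic (G I : Type) [Group G] : IC (RM G I I (dl G I)) := by
  intro e f he hf
  rcases dl_idem e he with rfl | ⟨i, rfl⟩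
  · rw [RM.zero_mul', RM.mul_zero']
  rcases dl_idem f hf with rfl | ⟨j, rfl⟩
  · rw [RM.zero_mul', RM.mul_zero']
  by_cases h : i = j
  · subst h; rfl
  · rw [RM.el_mul_el_none (dl_ne h), RM.el_mul_el_none (dl_ne (Ne.symm h))]

/-- generators -/
noncomputable def gen {S G : Type} [Group G] (q : Qv S) (β : S → G) (s : S) :
    RM G (S ⊕ S) (S ⊕ S) (dl G (S ⊕ S)) :=
  if q.1 s then RM.el _ (so q s) (β s) (ta q s) else RM.zero _

theorem gen_ev {S G : Type} [Group G] (q : Qv S) (β : S → G) (w : W S) :
    (path (dg q) w → ev (gen q β) w = RM.el _ (so q (head w)) (ev β w) (ta q (last w))) ∧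
    (¬ path (dg q) w → ev (gen q β) w = RM.zero _) := by
  induction w with
  | one s =>
    constructor
    · intro h
      show gen q β s = _
      exact if_pos h
    · intro h
      show gen q β s = _
      exact if_neg h
  | snoc w t ih =>
    constructor
    · rintro ⟨h1, h2⟩
      show ev (gen q β) w * gen q β t = _
      rw [ih.1 h1]
      have h3 : gen q β t = RM.el _ (so q t) (β t) (ta q t) := if_pos h2.2.1
      have h4 : dl G (S ⊕ S) (ta q (last w)) (so q t) = some 1 := by
        rw [arc_eq q h2]; exact dl_self _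
      rw [h3, RM.el_mul_el h4, mul_one]
      rfl
    · intro h
      show ev (gen q β) w * gen q β t = _
      by_cases h1 : path (dg q) w
      · rw [ih.1 h1]
        by_cases h5 : q.1 t
        · have h2 : ta q (last w) ≠ so q t := fun h2 => h ⟨h1, arc_of q (path_last h1) h5 h2⟩
          have h3 : gen q β t = RM.el _ (so q t) (β t) (ta q t) := if_pos h5
          rw [h3, RM.el_mul_el_none (dl_ne h2)]
        · have h3 : gen q β t = RM.zero _ := if_neg h5
          rw [h3, RM.mul_zero']
      · rw [ih.2 h1, RM.zero_mul']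

theorem outQ (V : PV) {S : Type} [Finite S] [Nonempty S] {q : Qv S} {R : W S → W S → Prop}
    {B : ℕ} (h : LabQB V q R B) : ∃ (M : FinSg) (g : S → M), M ∈ BS V ∧
      Nat.card M ≤ (Nat.card S + Nat.card S) * (B * (Nat.card S + Nat.card S)) + 1 ∧
      ∀ w w', ev g w = ev g w' → (path (dg q) w ↔ path (dg q) w') ∧
        (path (dg q) w → q.2 (Sum.inl (head w)) (Sum.inl (head w')) ∧
          q.2 (Sum.inr (last w)) (Sum.inr (last w')) ∧ R w w') := by
  obtain ⟨G, _, β, hG, hc, hR⟩ := h
  have : Finite G := V.fin G hG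
  refine ⟨⟨RM G (S ⊕ S) (S ⊕ S) (dl G (S ⊕ S)), inferInstance, inferInstance,
    ⟨RM.zero _⟩⟩, gen q β, ⟨zeroSimple_of_zs (dl_zs G (S ⊕ S)), rm_allSub V hG _, dl_ic _ _⟩,
    ?_, ?_⟩
  · show Nat.card (RM G (S ⊕ S) (S ⊕ S) (dl G (S ⊕ S))) ≤ _
    rw [RM.card, Nat.card_sum]
    have h4 := Nat.mul_le_mul_left (Nat.card S + Nat.card S)
      (Nat.mul_le_mul_right (Nat.card S + Nat.card S) hc)
    omega
  · intro w w' h
    have key : ∀ {w w' : W S}, ev (gen q β) w = ev (gen q β) w' → path (dg q) w →
        path (dg q) w' := by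
      intro w w' h hw
      by_contra hw'
      rw [(gen_ev q β w).1 hw, (gen_ev q β w').2 hw'] at h
      exact Option.some_ne_none _ h
    refine ⟨⟨key h, key (w := w') (w' := w) h.symm⟩, fun hw => ?_⟩
    have hw' := key h hw
    have h' : ev (gen q β) w = ev (gen q β) w' := h
    rw [(gen_ev q β w).1 hw, (gen_ev q β w').1 hw'] at h'
    obtain ⟨h1, h2, h3⟩ := el_inj h'
    have h1' := (rp_eq_iff q _ _).1 h1
    have h3' := (rp_eq_iff q _ _).1 h3
    exact ⟨h1', h3', hR w w' hw hw' h1' h3' h2⟩

end out

end TReal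

theorem t_real : T_real := by
  intro V
  obtain ⟨m, hm0, hm⟩ := rcv V
  refine ⟨m, hm0, ?_⟩
  intro S _ _ q R hsn hfin hlab
  obtain ⟨c, hc, hc0, hL⟩ := TReal.labQB V hm q R hsn hfin hlab
  obtain ⟨M, g, h1, h2, h3⟩ := TReal.outQ V hL
  refine ⟨M, g, h1, h2.trans ?_, h3⟩
  have hn : 0 < Nat.card S := Nat.card_pos
  have h4 : mB m (3 * Nat.card S) c ≤ kB m (Nat.card S) (Nat.card (Quotient R)) :=
    mB_mono hc (hc0 hn)
  refine le_trans ?_ h4
  unfold mB
  have h5 : Nat.card S + Nat.card S ≤ 3 * Nat.card S + 3 * Nat.card S := by omega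
  have h6 := Nat.mul_le_mul h5 (Nat.mul_le_mul_left (gB m (3 * Nat.card S) c) h5)
  omega

end Pool.Agent.H770BR
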