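import Pool.Agent.H770BR.Defs
import Pool.Agent.H502.BkJ_sh_eq
import Pool.Agent.H502.BkJ_h_eq
import Pool.Agent.H502.BkJ_IsoC_ZSO
import Pool.Agent.H502.BkJ_rm_allSub
set_option autoImplicit false

/-! Task `T_small` of project H770-BRANDT. -/

namespace Pool.Agent.H770BR
open Function Pool.Agent.H502.Bk Pool.Agent.H502.Bk.W

namespace Small

theorem mem_BS {V : PV} {S : FinSg} : S ∈ BS V ↔ S ∈ ZSO V ∧ IC S :=
  ⟨fun h => ⟨⟨h.1, h.2.1⟩, h.2.2⟩, fun h => ⟨h.1.1, h.1.2, h.2⟩⟩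

theorem IC.inj {A B : Type} [Semigroup A] [Semigroup B] (f : A →ₙ* B) (hf : Injective f)
    (h : IC B) : IC A := by
  intro e g he hg
  apply hf
  rw [map_mul, map_mul]
  exact h _ _ (by rw [← map_mul, he]) (by rw [← map_mul, hg])

theorem map_npw {A B : Type} [Semigroup A] [Semigroup B] (f : A →ₙ* B) (a : A) (k : ℕ) :
    f (npw a k) = npw (f a) k := by
  induction k with
  | zero => rfl
  | succ k ih =>
    show f (npw a k * a) = npw (f a) k * f a
    rw [map_mul, ih]

theorem npw_of_idem {A : Type} [Semigroup A] {e : A} (he : e * e = e) (k : ℕ) : npw e k = e := by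
  induction k with
  | zero => rfl
  | succ k ih =>
    show npw e k * e = e
    rw [ih, he]

theorem lift_idem {A B : Type} [Semigroup A] [Finite A] [Semigroup B] (f : A →ₙ* B)
    (hf : Surjective f) {e : B} (he : e * e = e) : ∃ a : A, a * a = a ∧ f a = e := by
  obtain ⟨a, rfl⟩ := hf e
  exact ⟨_, npw_idem le_rfl a, by rw [map_npw, npw_of_idem he]⟩

theorem IC.quot {A B : Type} [Semigroup A] [Finite A] [Semigroup B] (f : A →ₙ* B)
    (hf : Surjective f) (h : IC A) : IC B := by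
  intro e g he hg
  obtain ⟨a, ha, rfl⟩ := lift_idem f hf he
  obtain ⟨b, hb, rfl⟩ := lift_idem f hf hg
  rw [← map_mul, ← map_mul, h a b ha hb]

/-- the two element semilattice, as a Rees matrix semigroup -/
abbrev R1 : FinSg := ⟨RM Unit Unit Unit (fun _ _ => some (1 : Unit)), inferInstance, inferInstance,
  ⟨RM.zero _⟩⟩

theorem R1_mem (V : PV) : R1 ∈ BS V := by
  refine ⟨zeroSimple_of_zs (RM.zs (fun _ => ⟨(), (), rfl⟩) (fun _ => ⟨(), (), rfl⟩)),
    rm_allSub V V.unit _, ?_⟩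
  intro e f _ _
  have h : ∀ x : RM Unit Unit Unit (fun _ _ => some (1 : Unit)),
      x = RM.zero _ ∨ x = RM.el _ () () () := by
    intro x
    rcases RM.cases' x with h | ⟨i, g, l, h⟩
    · exact Or.inl h
    · exact Or.inr h
  rcases h e with he | he <;> rcases h f with hf | hf <;> rw [he, hf]
  · rw [RM.mul_zero', RM.zero_mul']
  · rw [RM.mul_zero', RM.zero_mul']

theorem IsoC_BS (V : PV) : IsoC (BS V) := by
  intro A hA B e
  rw [mem_BS] at hA ⊢
  obtain ⟨e⟩ := e
  exact ⟨IsoC_ZSO V A hA.1 B ⟨e⟩, IC.inj e.symm.toMulHom e.symm.injective hA.2⟩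

theorem h_eq_BS (V : PV) : opH (BS V) = BS V ∪ {S | Nat.card S = 1} := by
  apply Set.Subset.antisymm
  · rintro B ⟨A, hA, f, hf⟩
    rw [mem_BS] at hA
    have h1 : B ∈ opH (ZSO V) := ⟨A, hA.1, f, hf⟩
    rw [h_eq] at h1
    rcases h1 with h1 | h1
    · exact Or.inl (mem_BS.2 ⟨h1, IC.quot f hf hA.2⟩)
    · exact Or.inr h1
  · rintro B (hB | hB)
    · exact opH_incr _ hB
    · have hB' : Nat.card B = 1 := hB
      rw [Nat.card_eq_one_iff_unique] at hB'
      obtain ⟨hsub, ⟨b0⟩⟩ := hB'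
      exact ⟨R1, R1_mem V, { toFun := fun _ => b0, map_mul' := fun _ _ => Subsingleton.elim _ _ },
        fun b => ⟨(RM.zero _ : RM Unit Unit Unit (fun _ _ => some (1 : Unit))),
          Subsingleton.elim b0 b⟩⟩

theorem sh_eq_BS (V : PV) : opS (opH (BS V)) = opS (BS V) := by
  apply Set.Subset.antisymm
  · rintro B ⟨A, hA, f, hf⟩
    rw [h_eq_BS] at hA
    rcases hA with hA | hA
    · exact ⟨A, hA, f, hf⟩
    · have hsub : Subsingleton A := (Nat.card_eq_one_iff_unique.1 hA).1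
      exact ⟨R1, R1_mem V, ⟨fun _ => (RM.zero _ : RM Unit Unit Unit (fun _ _ => some (1 : Unit))),
        fun _ _ => (RM.zero_mul' _).symm⟩, fun x y _ => hf (Subsingleton.elim _ _)⟩
  · exact opS_mono (opH_incr _)

end Small

open Small in
theorem t_small : T_small := fun V => ⟨IsoC_BS V, h_eq_BS V, sh_eq_BS V⟩

end Pool.Agent.H770BR
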