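import Pool.Agent.H770BR.Defs
import Pool.Agent.H502.BkJ_lab_zs
set_option autoImplicit false

/-!
# `T_co`: coordinates of a finite 0-simple semigroup with commuting idempotents
-/

namespace Pool.Agent.H770BR.TCo
open Function Pool.Agent.H502.Bk Pool.Agent.H502.Bk.W

section
variable {C : Type} [Semigroup C] [Finite C] {z : C}

theorem exL (h : ZS z) {a : C} (ha : a ≠ z) : ∃ e : C, e ≠ z ∧ e * e = e ∧ e * a = a := by
  obtain ⟨b, hb⟩ := h.exists_left ha
  obtain ⟨c, hc⟩ := h.left_inv hb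
  obtain ⟨k, hk⟩ := exists_idem_npw (c * b)
  have hc' : c * b * a = a := by rw [mul_assoc]; exact hc
  have key : ∀ k, npw (c * b) k * a = a := by
    intro k
    induction k with
    | zero => exact hc'
    | succ k ih =>
      show npw (c * b) k * (c * b) * a = a
      rw [mul_assoc, hc', ih]
  refine ⟨npw (c * b) k, ?_, hk, key k⟩
  intro h0
  have h1 := key k
  rw [h0, (h.1 _).1] at h1
  exact ha h1.symm

theorem exR (h : ZS z) {a : C} (ha : a ≠ z) : ∃ e : C, e ≠ z ∧ e * e = e ∧ a * e = a := by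
  obtain ⟨b, hb⟩ := h.exists_right ha
  obtain ⟨c, hc⟩ := h.right_inv hb
  obtain ⟨k, hk⟩ := exists_idem_npw (b * c)
  have hc' : a * (b * c) = a := by rw [← mul_assoc]; exact hc
  have key : ∀ k, a * npw (b * c) k = a := by
    intro k
    induction k with
    | zero => exact hc'
    | succ k ih =>
      show a * (npw (b * c) k * (b * c)) = a
      rw [← mul_assoc, ih, hc']
  refine ⟨npw (b * c) k, ?_, hk, key k⟩
  intro h0
  have h1 := key k
  rw [h0, (h.1 _).2] at h1
  exact ha h1.symm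

theorem idem_eq (h : ZS z) (hI : IC C) {e f : C} (he : e * e = e) (hf : f * f = f)
    (hef : e * f ≠ z) : e = f := by
  have hc := hI e f he hf
  obtain ⟨c, h1⟩ := h.right_inv hef
  obtain ⟨d, h2⟩ := h.left_inv hef
  have a1 : f * e = e := by
    calc f * e = f * (e * f * c) := by rw [h1]
      _ = f * e * f * c := by simp only [mul_assoc]
      _ = e * f * f * c := by rw [← hc]
      _ = e * (f * f) * c := by simp only [mul_assoc]
      _ = e := by rw [hf, h1]
  have a2 : f * e = f := by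
    calc f * e = d * (e * f) * e := by rw [h2]
      _ = d * (e * (f * e)) := by simp only [mul_assoc]
      _ = d * (e * (e * f)) := by rw [← hc]
      _ = d * (e * e * f) := by simp only [mul_assoc]
      _ = f := by rw [he, h2]
  rw [← a1, a2]

theorem uniqL (h : ZS z) (hI : IC C) {e f a : C} (he : e * e = e) (hf : f * f = f) (ha : a ≠ z)
    (h1 : e * a = a) (h2 : f * a = a) : e = f := by
  refine idem_eq h hI he hf ?_
  refine h.mul_left_ne (b := a) ?_
  rw [mul_assoc, h2, h1]
  exact ha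

theorem uniqR (h : ZS z) (hI : IC C) {e f a : C} (he : e * e = e) (hf : f * f = f) (ha : a ≠ z)
    (h1 : a * e = a) (h2 : a * f = a) : e = f := by
  refine idem_eq h hI he hf ?_
  refine h.mul_right_ne (a := a) ?_
  rw [← mul_assoc, h1, h2]
  exact ha

end

theorem t_co : T_co := by
  classical
  intro V C _ _ z h hI hC
  obtain ⟨e, he, hee⟩ := J11121.lab_zs_idem h
  choose L0 hL1 hL2 hL3 using fun a : {a : C // a ≠ z} => exL h a.2
  choose R0 hR1 hR2 hR3 using fun a : {a : C // a ≠ z} => exR h a.2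
  let L : C → C := fun a => if ha : a ≠ z then L0 ⟨a, ha⟩ else z
  let R : C → C := fun a => if ha : a ≠ z then R0 ⟨a, ha⟩ else z
  have Lid : ∀ a, a ≠ z → L a ≠ z ∧ L a * L a = L a ∧ L a * a = a := by
    intro a ha
    have e1 : L a = L0 ⟨a, ha⟩ := dif_pos ha
    rw [e1]
    exact ⟨hL1 _, hL2 _, hL3 ⟨a, ha⟩⟩
  have Rid : ∀ a, a ≠ z → R a ≠ z ∧ R a * R a = R a ∧ a * R a = a := by
    intro a ha
    have e1 : R a = R0 ⟨a, ha⟩ := dif_pos ha
    rw [e1]
    exact ⟨hR1 _, hR2 _, hR3 ⟨a, ha⟩⟩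
  have hfin : ∀ f : C, f * f = f → f ≠ z → ∃ x x' : C, f * x = x ∧ x * e = x ∧ e * x' = x' ∧
      x' * f = x' ∧ x * x' = f ∧ x' * x = e := by
    intro f hf hfz
    obtain ⟨u, v, huv⟩ := h.2.2 e he f
    have hxx : f * u * e * (e * v * f) = f := by
      calc f * u * e * (e * v * f) = f * (u * (e * e) * v) * f := by simp only [mul_assoc]
        _ = f := by rw [hee, huv, hf, hf]
    refine ⟨f * u * e, e * v * f, ?_, ?_, ?_, ?_, hxx, ?_⟩
    · simp only [← mul_assoc, hf]
    · rw [mul_assoc, hee]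
    · simp only [← mul_assoc, hee]
    · rw [mul_assoc, hf]
    · have i1 : (e * v * f * (f * u * e)) * (e * v * f * (f * u * e)) =
          e * v * f * (f * u * e) := by
        calc (e * v * f * (f * u * e)) * (e * v * f * (f * u * e))
            = e * v * f * (f * u * e * (e * v * f)) * (f * u * e) := by simp only [mul_assoc]
          _ = e * v * (f * f) * (f * u * e) := by rw [hxx]; simp only [mul_assoc]
          _ = e * v * f * (f * u * e) := by rw [hf]
      have i2 : e * (e * v * f * (f * u * e)) ≠ z := by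
        have i3 : e * (e * v * f * (f * u * e)) = e * v * f * (f * u * e) := by
          simp only [← mul_assoc, hee]
        rw [i3]
        refine h.mul_right_ne (a := f * u * e) (h.mul_left_ne (b := e * v * f) ?_)
        have i4 : f * u * e * (e * v * f * (f * u * e)) * (e * v * f) = f := by
          calc f * u * e * (e * v * f * (f * u * e)) * (e * v * f)
              = (f * u * e * (e * v * f)) * (f * u * e * (e * v * f)) := by
                simp only [mul_assoc]
            _ = f := by rw [hxx, hf]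
        rw [i4]
        exact hfz
      exact (idem_eq h hI hee i1 i2).symm
  choose X0 X'0 p1 p2 p3 p4 p5 p6 using fun f : {f : C // f * f = f ∧ f ≠ z} => hfin f.1 f.2.1 f.2.2
  let X : C → C := fun f => if hf : f * f = f ∧ f ≠ z then X0 ⟨f, hf⟩ else z
  let X' : C → C := fun f => if hf : f * f = f ∧ f ≠ z then X'0 ⟨f, hf⟩ else z
  have hX : ∀ f, f * f = f → f ≠ z → f * X f = X f ∧ X f * e = X f ∧ e * X' f = X' f ∧
      X' f * f = X' f ∧ X f * X' f = f ∧ X' f * X f = e := by
    intro f hf hfz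
    have e1 : X f = X0 ⟨f, hf, hfz⟩ := dif_pos ⟨hf, hfz⟩
    have e2 : X' f = X'0 ⟨f, hf, hfz⟩ := dif_pos ⟨hf, hfz⟩
    rw [e1, e2]
    exact ⟨p1 ⟨f, hf, hfz⟩, p2 ⟨f, hf, hfz⟩, p3 ⟨f, hf, hfz⟩, p4 ⟨f, hf, hfz⟩, p5 ⟨f, hf, hfz⟩,
      p6 ⟨f, hf, hfz⟩⟩
  letI : Group (J11121.lab_zs_H z e) := J11121.lab_zs_grp h he hee
  have hmulv : ∀ a b : J11121.lab_zs_H z e, (a * b).1 = a.1 * b.1 := fun a b => rfl
  have hback : ∀ a, a ≠ z → X (L a) * (X' (L a) * a * X (R a)) * X' (R a) = a := by
    intro a ha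
    obtain ⟨l1, l2, l3⟩ := Lid a ha
    obtain ⟨r1, r2, r3⟩ := Rid a ha
    calc X (L a) * (X' (L a) * a * X (R a)) * X' (R a)
        = (X (L a) * X' (L a)) * a * (X (R a) * X' (R a)) := by simp only [mul_assoc]
      _ = a := by rw [(hX _ l2 l1).2.2.2.2.1, (hX _ r2 r1).2.2.2.2.1, l3, r3]
  have hmem : ∀ a, a ≠ z → (X' (L a) * a * X (R a) ≠ z ∧
      e * (X' (L a) * a * X (R a)) = X' (L a) * a * X (R a) ∧
      X' (L a) * a * X (R a) * e = X' (L a) * a * X (R a)) := by
    intro a ha
    obtain ⟨l1, l2, l3⟩ := Lid a ha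
    obtain ⟨r1, r2, r3⟩ := Rid a ha
    refine ⟨?_, ?_, ?_⟩
    · refine h.mul_right_ne (a := X (L a)) (h.mul_left_ne (b := X' (R a)) ?_)
      rw [hback a ha]
      exact ha
    · have := (hX _ l2 l1).2.2.1
      rw [← mul_assoc, ← mul_assoc, this]
    · rw [mul_assoc, (hX _ r2 r1).2.1]
  let γ : C → J11121.lab_zs_H z e := fun a => if ha : a ≠ z then ⟨X' (L a) * a * X (R a), hmem a ha⟩
    else 1
  have hγv : ∀ a, a ≠ z → (γ a).1 = X' (L a) * a * X (R a) := by
    intro a ha
    simp only [γ, dif_pos ha]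
  have hRL : ∀ a b, a * b ≠ z → R a = L b := by
    intro a b hab
    have ha := h.mul_left_ne hab
    have hb := h.mul_right_ne hab
    obtain ⟨l1, l2, l3⟩ := Lid b hb
    obtain ⟨r1, r2, r3⟩ := Rid a ha
    refine idem_eq h hI r2 l2 ?_
    refine h.mul_right_ne (a := a) (h.mul_left_ne (b := b) ?_)
    have : a * (R a * L b) * b = a * b := by
      calc a * (R a * L b) * b = (a * R a) * (L b * b) := by simp only [mul_assoc]
        _ = a * b := by rw [r3, l3]
    rw [this]
    exact hab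
  have hLm : ∀ a b, a * b ≠ z → L (a * b) = L a := by
    intro a b hab
    have ha := h.mul_left_ne hab
    obtain ⟨l1, l2, l3⟩ := Lid a ha
    obtain ⟨m1, m2, m3⟩ := Lid _ hab
    refine uniqL h hI m2 l2 hab m3 ?_
    rw [← mul_assoc, l3]
  have hRm : ∀ a b, a * b ≠ z → R (a * b) = R b := by
    intro a b hab
    have hb := h.mul_right_ne hab
    obtain ⟨l1, l2, l3⟩ := Rid b hb
    obtain ⟨m1, m2, m3⟩ := Rid _ hab
    refine uniqR h hI m2 l2 hab m3 ?_
    rw [mul_assoc, l3]
  refine ⟨{ G := J11121.lab_zs_H z e, grp := inferInstance, mem := ?_, γ := γ, L := L, R := R,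
            ne := ?_, hL := hLm, hR := hRm, hγ := ?_, inj := ?_, Lid := Lid, Rid := Rid,
            lid := ?_, rid := ?_ }⟩
  · exact hC (J11121.lab_zs_H z e) ⟨Subtype.val, fun a b => rfl⟩ Subtype.val_injective
  · intro a b ha hb
    refine ⟨hRL a b, fun hab => ?_⟩
    obtain ⟨r1, r2, r3⟩ := Rid a ha
    obtain ⟨l1, l2, l3⟩ := Lid b hb
    have h1 : a * R a ≠ z := by rw [r3]; exact ha
    have h2 : R a * b ≠ z := by rw [hab, l3]; exact hb
    have h3 := h.cat h1 h2
    rwa [r3] at h3
  · intro a b hab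
    have ha := h.mul_left_ne hab
    have hb := h.mul_right_ne hab
    obtain ⟨r1, r2, r3⟩ := Rid a ha
    apply Subtype.ext
    rw [hmulv, hγv _ hab, hγv _ ha, hγv _ hb, hLm _ _ hab, hRm _ _ hab, ← hRL a b hab]
    symm
    calc X' (L a) * a * X (R a) * (X' (R a) * b * X (R b))
        = X' (L a) * (a * (X (R a) * X' (R a))) * b * X (R b) := by simp only [mul_assoc]
      _ = X' (L a) * (a * b) * X (R b) := by
        rw [(hX _ r2 r1).2.2.2.2.1, r3]; simp only [mul_assoc]
  · intro a b ha hb hl hr hg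
    have h1 : (γ a).1 = (γ b).1 := by rw [hg]
    rw [hγv _ ha, hγv _ hb] at h1
    rw [← hback a ha, ← hback b hb, h1, hl, hr]
  · intro a f hf hfa
    have ha := h.mul_right_ne hfa
    obtain ⟨l1, l2, l3⟩ := Lid a ha
    have h1 : f = L a := by
      refine idem_eq h hI hf l2 ?_
      refine h.mul_left_ne (b := a) ?_
      rw [mul_assoc, l3]
      exact hfa
    rw [h1, l3]
  · intro a f hf hfa
    have ha := h.mul_left_ne hfa
    obtain ⟨l1, l2, l3⟩ := Rid a ha
    have h1 : R a = f := by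
      refine idem_eq h hI l2 hf ?_
      refine h.mul_right_ne (a := a) ?_
      rw [← mul_assoc, l3]
      exact hfa
    rw [← h1, l3]

end Pool.Agent.H770BR.TCo

alias Pool.Agent.H770BR.t_co := Pool.Agent.H770BR.TCo.t_co
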