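import Pool.Agent.H770BR.Defs
import Pool.Agent.H502.BkJ_dec_ZSO
import Pool.Agent.H502.BkJ_dec_H
set_option autoImplicit false

/-! Task `T_dec0` of the H770-BRANDT project (helper683). -/

namespace Pool.Agent.H770BR
open Function Pool.Agent.H502.Bk Pool.Agent.H502.Bk.W
open Pool.Agent.H502.Bk.J11144

/-- numerical form of `IC` -/
def icN (n : ℕ) (l : List ℕ) : Prop :=
  ∀ e < n, ∀ f < n, ¬ (tmul n l e e = e ∧ tmul n l f f = f) ∨ tmul n l e f = tmul n l f e

theorem icN_prim : PrimrecPred fun x : ℕ × List ℕ => icN x.1 x.2 := by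
  unfold icN
  refine dH_allLt (f := fun x : ℕ × List ℕ => x.1) Primrec.fst ?_
  refine dH_allLt (f := fun x : (ℕ × List ℕ) × ℕ => x.1.1) (Primrec.fst.comp Primrec.fst) ?_
  have hn : Primrec fun x : ((ℕ × List ℕ) × ℕ) × ℕ => x.1.1.1 :=
    Primrec.fst.comp (Primrec.fst.comp Primrec.fst)
  have hl : Primrec fun x : ((ℕ × List ℕ) × ℕ) × ℕ => x.1.1.2 :=
    Primrec.snd.comp (Primrec.fst.comp Primrec.fst)
  have he : Primrec fun x : ((ℕ × List ℕ) × ℕ) × ℕ => x.1.2 := Primrec.snd.comp Primrec.fst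
  have hf : Primrec fun x : ((ℕ × List ℕ) × ℕ) × ℕ => x.2 := Primrec.snd
  refine PrimrecPred.or (PrimrecPred.not (PrimrecPred.and ?_ ?_)) ?_
  · exact Primrec.eq.comp (dH_tmulPrim hn hl he he) he
  · exact Primrec.eq.comp (dH_tmulPrim hn hl hf hf) hf
  · exact Primrec.eq.comp (dH_tmulPrim hn hl he hf) (dH_tmulPrim hn hl hf he)

theorem icN_iff {n : ℕ} {l : List ℕ} (h : IsTable n l) : IC (tableSg n l h) ↔ icN n l := by
  constructor
  · intro hI e he f hf
    by_cases hc : tmul n l e e = e ∧ tmul n l f f = f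
    · right
      have := hI (show tableSg n l h from (⟨e, he⟩ : Fin n))
        (show tableSg n l h from (⟨f, hf⟩ : Fin n)) (Fin.ext hc.1) (Fin.ext hc.2)
      exact congrArg Fin.val this
    · exact Or.inl hc
  · intro hN e f he hf
    change Fin n at e f
    have h1 : tmul n l e e = e := congrArg Fin.val he
    have h2 : tmul n l f f = f := congrArg Fin.val hf
    rcases hN e e.2 f f.2 with h3 | h3
    · exact absurd ⟨h1, h2⟩ h3
    · exact Fin.ext h3

theorem t_dec0 : T_dec0 := by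
  intro V hV
  have h1 := dec_ZSO V hV
  unfold DecClass at h1 ⊢
  refine ComputablePred.of_eq (dH_andC h1 (dH_ofPrim icN_prim)) ?_
  rintro ⟨n, l⟩
  constructor
  · rintro ⟨⟨h, hz, ha⟩, hc⟩
    exact ⟨h, hz, ha, (icN_iff h).2 hc⟩
  · rintro ⟨h, hz, ha, hc⟩
    exact ⟨⟨h, hz, ha⟩, (icN_iff h).1 hc⟩

end Pool.Agent.H770BR
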