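import Pool.Agent.H770BR.Defs
import Pool.Agent.H502.BkJ_mB_mono
set_option autoImplicit false

namespace Pool.Agent.H770BR
open Function Pool.Agent.H502.Bk Pool.Agent.H502.Bk.W

theorem t_hs : T_hs := by
  intro hco V m hm B hB
  classical
  obtain ⟨A, ⟨C, ⟨hC0, hCV, hIC⟩, j, hj⟩, f, hf⟩ := hB
  obtain ⟨z, hz⟩ := zs_of_zeroSimple hC0
  choose x hx using hf
  have hfv : ∀ w : W B, f (ev x w) = val w := by
    intro w
    rw [map_ev]
    unfold val
    congr 1
    funext s
    exact hx s
  have hjv : ∀ w : W B, j (ev x w) = ev (fun s => j (x s)) w := fun w => map_ev j x w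
  have hval : ∀ w w' : W B, ev (fun s => j (x s)) w = ev (fun s => j (x s)) w' → val w = val w' := by
    intro w w' h
    rw [← hjv, ← hjv] at h
    rw [← hfv, ← hfv, hj h]
  obtain ⟨k⟩ := hco V C z hz hIC hCV
  let R : Setoid (W B) := Setoid.ker val
  let e : Quotient R → B := fun c => Quotient.lift (fun p : W B => val p) (fun _ _ h => h) c
  have he : Injective e := by
    intro c c'
    refine Quotient.inductionOn₂ c c' (fun p p' h => ?_)
    exact Quotient.sound h
  have hfin : Finite (Quotient R) := Finite.of_injective e he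
  have hcardq : Nat.card (Quotient R) ≤ Nat.card B := Nat.card_le_card_of_injective e he
  have hLab : LabQ V (k.q (fun s => j (x s))) (fun p p' => R p p') := by
    obtain ⟨G, iG, lb, hG, h⟩ := k.labQ (fun s => j (x s)) hz
    exact ⟨G, iG, lb, hG, fun p p' hp hp' hh hl he => hval _ _ (h p p' hp hp' hh hl he)⟩
  obtain ⟨M, g, hM, hMc, hMp⟩ := hm B (k.q (fun s => j (x s))) R
    (fun p p' s h => by
      show val p * s = val p' * s
      rw [show val p = val p' from h]) hfin hLab
  have key : ∀ w w' : W B, ev g w = ev g w' → val w = val w' := by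
    intro w w' h
    obtain ⟨h1, h2⟩ := hMp w w' h
    by_cases hp : path (dg (k.q (fun s => j (x s)))) w
    · exact (h2 hp).2.2
    · have hp' : ¬ path (dg (k.q (fun s => j (x s)))) w' := fun h3 => hp (h1.2 h3)
      apply hval
      have e1 : ev (fun s => j (x s)) w = z := by
        by_contra h3
        exact hp ((k.ev_ne _ hz w).1 h3)
      have e2 : ev (fun s => j (x s)) w' = z := by
        by_contra h3
        exact hp' ((k.ev_ne _ hz w').1 h3)
      rw [e1, e2]
  let U : Subsemigroup M :=
    { carrier := {r | ∃ w : W B, ev g w = r}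
      mul_mem' := by
        rintro _ _ ⟨w, rfl⟩ ⟨w', rfl⟩
        exact ⟨w * w', ev_mul g w w'⟩ }
  have hUne : Nonempty U := ⟨⟨ev g (one (Classical.arbitrary B)), ⟨_, rfl⟩⟩⟩
  have hB0 : 0 < Nat.card B := Nat.card_pos
  refine ⟨⟨U, inferInstance, inferInstance, hUne⟩, ⟨M, hM, MulMemClass.subtype U,
    Subtype.coe_injective⟩, ?_, ?_⟩
  · have h1 : Nat.card U ≤ Nat.card M :=
      Nat.card_le_card_of_injective (fun u : U => (u : M)) Subtype.coe_injective
    refine h1.trans (hMc.trans ?_)
    unfold hsQ kB
    refine mB_mono (Nat.mul_le_mul_left _ (Nat.add_le_add_right hcardq 1)) ?_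
    positivity
  · let wd : U → W B := fun u => Classical.choose u.2
    have hwd : ∀ u : U, ev g (wd u) = u := fun u => Classical.choose_spec u.2
    refine ⟨⟨fun u => val (wd u), ?_⟩, ?_⟩
    · intro u v
      have h1 : val (wd (u * v)) = val (wd u * wd v) := by
        apply key
        rw [ev_mul, hwd, hwd, hwd]
        rfl
      show val (wd (u * v)) = val (wd u) * val (wd v)
      rw [h1]
      exact ev_mul _ _ _
    · intro b
      refine ⟨⟨ev g (one b), ⟨_, rfl⟩⟩, ?_⟩
      show val (wd ⟨ev g (one b), ⟨_, rfl⟩⟩) = b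
      have h1 : val (wd ⟨ev g (one b), ⟨_, rfl⟩⟩) = val (one b) := by
        apply key
        rw [hwd]
      rw [h1]
      rfl

end Pool.Agent.H770BR
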