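import Pool.Agent.H770BR.Defs
import Pool.Agent.H502.BkJ_PV_pi
import Pool.Agent.H502.BkJ_mB_mono
import Pool.Agent.H502.BkJ_pi_mem_opP
set_option autoImplicit false

/-!
# `T_shps`: adapted from `Pool.Agent.H502.BkJ_shps_bd`
-/

namespace Pool.Agent.H770BR
open Function Pool.Agent.H502.Bk Pool.Agent.H502.Bk.W

namespace ShpsBd

open Classical

theorem LabQ.mono {V : PV} {S : Type} {q : Qv S} {R R' : W S → W S → Prop} (h : LabQ V q R)
    (hR : ∀ p p', R p p' → R' p p') : LabQ V q R' := by
  obtain ⟨G, _, lb, h1, h2⟩ := h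
  exact ⟨G, _, lb, h1, fun p p' a b c d e => hR _ _ (h2 p p' a b c d e)⟩

theorem LabQ.pi {V : PV} {S : Type} {q : Qv S} {ι : Type} [Finite ι]
    (R : ι → W S → W S → Prop) (h : ∀ i, LabQ V q (R i)) :
    LabQ V q (fun p p' => ∀ i, R i p p') := by
  choose G hG lb h1 h2 using h
  refine ⟨∀ i, G i, inferInstance, fun s i => lb i s, PV.pi V G h1, ?_⟩
  intro p p' hp hp' hh hl he i
  refine h2 i p p' hp hp' hh hl ?_
  have e1 : ∀ w : W S, ev (fun s i => lb i s) w i = ev (lb i) w := fun w =>
    map_ev (Pi.evalMulHom G i) (fun s i => lb i s) w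
  rw [← e1, ← e1, he]

section kap
variable (V : PV) {S : Type} [Semigroup S]

/-- admissible congruences for a quiver -/
def Adm (E : Qv S) (c : Con (W S)) : Prop :=
  (∀ p p', ¬ path (dg E) p → ¬ path (dg E) p' → c p p') ∧
  (∀ a s t, c (a * (one s * one t)) (a * one (s * t))) ∧
  (∀ a s t, c (one s * one t * a) (one (s * t) * a)) ∧
  LabQ V E (fun p p' => c p p')

/-- the least congruence above which all admissible ones lie -/
def kap (E : Qv S) : Con (W S) := sInf {c | Adm V E c}

variable {V}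

theorem kap_iff {E : Qv S} {p p' : W S} : kap V E p p' ↔ ∀ c, Adm V E c → c p p' := Iff.rfl

theorem kap_1 (E : Qv S) (p p' : W S) (h : ¬ path (dg E) p) (h' : ¬ path (dg E) p') :
    kap V E p p' :=
  fun c hc => hc.1 p p' h h'

theorem kap_2 (E : Qv S) (a : W S) (s t : S) :
    kap V E (a * (one s * one t)) (a * one (s * t)) :=
  fun c hc => hc.2.1 a s t

theorem kap_3 (E : Qv S) (a : W S) (s t : S) :
    kap V E (one s * one t * a) (one (s * t) * a) :=
  fun c hc => hc.2.2.1 a s t

theorem kap_val (E : Qv S) (a w : W S) : kap V E (a * w) (a * one (val w)) := by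
  induction w with
  | one s => exact (kap V E).refl _
  | snoc v s ih =>
    have h1 : kap V E (a * v * one s) (a * one (val v) * one s) :=
      (kap V E).mul ih ((kap V E).refl _)
    have h2 : kap V E (a * (one (val v) * one s)) (a * one (val v * s)) := kap_2 E a _ s
    rw [← mul_assoc] at h2
    exact (kap V E).trans h1 h2

theorem kap_val_left (E : Qv S) (a w : W S) : kap V E (w * a) (one (val w) * a) := by
  induction w generalizing a with
  | one s => exact (kap V E).refl _
  | snoc v s ih =>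
    have h1 : kap V E (v * (one s * a)) (one (val v) * (one s * a)) := ih _
    have h2 : kap V E (one (val v) * one s * a) (one (val v * s) * a) := kap_3 E a _ s
    rw [← mul_assoc, ← mul_assoc] at h1
    exact (kap V E).trans h1 h2

theorem kap_short (E : Qv S) : Surjective (fun x : S ⊕ (S × S) =>
    ((Sum.elim (fun s => one s) (fun p => one p.1 * one p.2) x : W S) : (kap V E).Quotient)) := by
  intro q
  induction q using Con.induction_on with
  | H w =>
    by_cases hw : Long w
    · obtain ⟨s, v, rfl⟩ := hw.split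
      exact ⟨Sum.inr (s, val v), (kap V E).eq.2 ((kap V E).symm (kap_val E (one s) v))⟩
    · cases w with
      | one s => exact ⟨Sum.inl s, rfl⟩
      | snoc w s => exact absurd trivial hw

instance finite_kap [Finite S] (E : Qv S) : Finite (kap V E).Quotient :=
  Finite.of_surjective _ (kap_short E)

theorem card_kap [Finite S] (E : Qv S) :
    Nat.card (kap V E).Quotient ≤ Nat.card S + Nat.card S * Nat.card S := by
  have h := Nat.card_le_card_of_surjective _ (kap_short (V := V) E)
  rwa [Nat.card_sum, Nat.card_prod] at h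

theorem kap_lab [Finite S] (E : Qv S) : LabQ V E (fun p p' => kap V E p p') := by
  have hsep : ∀ pr : {pr : (kap V E).Quotient × (kap V E).Quotient // pr.1 ≠ pr.2},
      ∃ c, Adm V E c ∧ ¬ c (Quotient.out pr.1.1) (Quotient.out pr.1.2) := by
    rintro ⟨⟨q, q'⟩, hne⟩
    by_contra hcon
    push Not at hcon
    apply hne
    have h1 : kap V E (Quotient.out q) (Quotient.out q') := kap_iff.2 hcon
    have h2 := Quotient.sound (s := (kap V E).toSetoid) h1
    have e : ∀ q : (kap V E).Quotient, Quotient.mk (kap V E).toSetoid (Quotient.out q) = q :=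
      fun q => Quotient.out_eq q
    rwa [e, e] at h2
  choose c hc1 hc2 using hsep
  have hpi := LabQ.pi (V := V) (q := E) (fun pr p p' => c pr p p') (fun pr => (hc1 pr).2.2.2)
  refine LabQ.mono hpi ?_
  intro p p' h
  by_contra hne
  have hne' : ((p : (kap V E).Quotient)) ≠ ((p' : (kap V E).Quotient)) := fun he =>
    hne ((kap V E).eq.1 he)
  let pr : {pr : (kap V E).Quotient × (kap V E).Quotient // pr.1 ≠ pr.2} :=
    ⟨((p : (kap V E).Quotient), (p' : (kap V E).Quotient)), hne'⟩
  have e : ∀ p : W S, kap V E (Quotient.out (p : (kap V E).Quotient)) p := fun p =>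
    (kap V E).eq.1 (Quotient.out_eq (s := (kap V E).toSetoid) _)
  have e1 : c pr (Quotient.out (p : (kap V E).Quotient)) p := kap_iff.1 (e p) _ (hc1 pr)
  have e2 : c pr (Quotient.out (p' : (kap V E).Quotient)) p' := kap_iff.1 (e p') _ (hc1 pr)
  exact hc2 pr ((c pr).trans e1 ((c pr).trans (h pr) ((c pr).symm e2)))

end kap

/-- data extracted from an embedding of `S` in a homomorphic image of a product of subsemigroups of
Brandt semigroups -/
structure Sys2 (V : PV) (S T : Type) [Semigroup S] [Semigroup T] where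
  h : Qv S → W S → T
  h_mul : ∀ E u v, h E (u * v) = h E u * h E v
  h_r : ∀ E w s t, h E (w * (one s * one t)) = h E (w * one (s * t))
  h_l : ∀ E w s t, h E (one s * one t * w) = h E (one (s * t) * w)
  h_arcs : ∀ E w, h E w = h (E ⊔ qarcs w) w
  h_lab : ∀ E, LabQ V E (fun v v' => ∀ E', E ≤ E' → h E' v = h E' v')

namespace Sys2
variable {V : PV} {S T : Type} [Semigroup S] [Semigroup T] (Y : Sys2 V S T)

/-- the quivers which may be added for free -/
def Good (w : W S) (F : Qv S) : Prop := ∀ E, Y.h E w = Y.h (E ⊔ F) w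

theorem good_sup {w : W S} {F F' : Qv S} (h : Y.Good w F) (h' : Y.Good w F') :
    Y.Good w (F ⊔ F') := by
  intro E
  rw [h E, h' (E ⊔ F), sup_assoc]

theorem good_max [Finite S] (w : W S) : ∃ F, Y.Good w F ∧ ∀ F', Y.Good w F' → F' ≤ F := by
  obtain ⟨m, hm⟩ := (Set.toFinite {F : Qv S | Y.Good w F}).exists_maximal
    ⟨⊥, fun E => by rw [sup_bot_eq]⟩
  refine ⟨m, hm.1, fun F' hF' => ?_⟩
  have h1 : m ⊔ F' ≤ m := hm.2 (Y.good_sup hm.1 hF') le_sup_left
  exact le_sup_right.trans h1

/-- equality of all values above `E` -/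
def Eq' (E : Qv S) (v v' : W S) : Prop := ∀ E', E ≤ E' → Y.h E' v = Y.h E' v'

def Z (E : Qv S) (v : W S) : Prop := ∃ v', ¬ path (dg E) v' ∧ Y.Eq' E v v'

/-- the congruence used to bound `kap` from above -/
def lam (E : Qv S) : Con (W S) where
  r v v' := Y.Eq' E v v' ∨ (Y.Z E v ∧ Y.Z E v')
  iseqv := by
    refine ⟨fun v => Or.inl fun _ _ => rfl, ?_, ?_⟩
    · rintro v v' (h | ⟨h, h'⟩)
      · exact Or.inl fun E' hE => (h E' hE).symm
      · exact Or.inr ⟨h', h⟩
    · rintro v v' v'' (h | ⟨h, h'⟩) (g | ⟨g, g'⟩)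
      · exact Or.inl fun E' hE => (h E' hE).trans (g E' hE)
      · obtain ⟨a, ha, hb⟩ := g
        exact Or.inr ⟨⟨a, ha, fun E' hE => (h E' hE).trans (hb E' hE)⟩, g'⟩
      · obtain ⟨a, ha, hb⟩ := h'
        exact Or.inr ⟨h, ⟨a, ha, fun E' hE => (g E' hE).symm.trans (hb E' hE)⟩⟩
      · exact Or.inr ⟨h, g'⟩
  mul' := by
    have hl : ∀ a b, Y.Z E a → Y.Z E (a * b) := by
      rintro a b ⟨c, hc, hd⟩
      refine ⟨c * b, ?_, ?_⟩
      · rw [path_mul]; tauto
      · intro E' hE
        rw [Y.h_mul, Y.h_mul, hd E' hE]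
    have hr : ∀ a b, Y.Z E b → Y.Z E (a * b) := by
      rintro a b ⟨c, hc, hd⟩
      refine ⟨a * c, ?_, ?_⟩
      · rw [path_mul]; tauto
      · intro E' hE
        rw [Y.h_mul, Y.h_mul, hd E' hE]
    rintro a b c d (h | ⟨h, h'⟩) (g | ⟨g, g'⟩)
    · exact Or.inl fun E' hE => by rw [Y.h_mul, Y.h_mul, h E' hE, g E' hE]
    · exact Or.inr ⟨hr _ _ g, hr _ _ g'⟩
    · exact Or.inr ⟨hl _ _ h, hl _ _ h'⟩
    · exact Or.inr ⟨hl _ _ h, hl _ _ h'⟩

theorem lam_adm (E : Qv S) : Adm V E (Y.lam E) := by
  refine ⟨?_, ?_, ?_, ?_⟩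
  · intro p p' h h'
    exact Or.inr ⟨⟨p, h, fun _ _ => rfl⟩, ⟨p', h', fun _ _ => rfl⟩⟩
  · intro a s t
    exact Or.inl fun E' _ => Y.h_r E' a s t
  · intro a s t
    exact Or.inl fun E' _ => Y.h_l E' a s t
  · exact LabQ.mono (Y.h_lab E) fun p p' h => Or.inl h

theorem beta {w v : W S} {E : Qv S} (h1 : Y.Good w E) (h2 : ∀ F', Y.Good w F' → F' ≤ E)
    (hk : kap V E w v) : Y.Eq' E w v := by
  rcases kap_iff.1 hk _ (Y.lam_adm E) with h | ⟨⟨v', hv', hw⟩, -⟩
  · exact h
  · exfalso
    apply hv'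
    have h3 : Y.Good w (E ⊔ qarcs v') := by
      intro E1
      rw [h1 E1, hw (E1 ⊔ E) le_sup_right, Y.h_arcs (E1 ⊔ E) v', ← sup_assoc,
        hw (E1 ⊔ E ⊔ qarcs v') (le_sup_right.trans le_sup_left)]
    exact (qarcs_le_iff v').1 (le_sup_right.trans (h2 _ h3))

theorem main [Finite S] {w w' : W S} (hk : ∀ E, kap V E w w') : Y.h ⊥ w = Y.h ⊥ w' := by
  obtain ⟨F, h1, h2⟩ := Y.good_max w
  obtain ⟨F', h1', h2'⟩ := Y.good_max w'
  have hb := Y.beta h1 h2 (hk F)
  have hb' := Y.beta h1' h2' ((kap V F').symm (hk F'))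
  have h3 : Y.Good w (F ⊔ F') := by
    intro E
    rw [h1 E, hb (E ⊔ F) le_sup_right, h1' (E ⊔ F), hb' (E ⊔ F ⊔ F') le_sup_right, sup_assoc]
  have h3' : Y.Good w' (F' ⊔ F) := by
    intro E
    rw [h1' E, hb' (E ⊔ F') le_sup_right, h1 (E ⊔ F'), hb (E ⊔ F' ⊔ F) le_sup_right, sup_assoc]
  have h4 : F = F' := le_antisymm (le_sup_right.trans (h2' _ h3')) (le_sup_right.trans (h2 _ h3))
  rw [h1 ⊥, h1' ⊥, bot_sup_eq, bot_sup_eq, ← h4]
  exact hb F le_rfl

end Sys2

/-- the necessary condition extracted from an arbitrary system -/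
theorem shps_nec (hco : T_co) {V : PV} {S : Type} [Semigroup S] [Finite S] [Nonempty S]
    {ι : Type} [Finite ι]
    (C : ι → FinSg) (hC : ∀ i, C i ∈ BS V) (U : ι → FinSg) (j : ∀ i, U i →ₙ* C i)
    (hj : ∀ i, Injective (j i)) {T : Type} [Semigroup T] (f : (∀ i, U i) →ₙ* T)
    (hf : Surjective f) (e : S →ₙ* T) (he : Injective e) (w w' : W S)
    (hk : ∀ E, kap V E w w') : val w = val w' := by
  have := Fintype.ofFinite ι
  choose x hx using fun s => hf (e s)
  choose z hz using fun i => zs_of_zeroSimple (hC i).1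
  have hk0 : ∀ i, Nonempty (Co V (z i)) := fun i =>
    hco V (C i) (z i) (hz i) (hC i).2.2 (hC i).2.1
  let k : ∀ i, Co V (z i) := fun i => Classical.choice (hk0 i)
  let y : ∀ i, S → C i := fun i s => j i (x s i)
  let dq : ι → Qv S := fun i => (k i).q (y i)
  have hζ : ∀ i, ∃ ζ : U i, ∀ E : Qv S, ¬ E ≤ dq i → j i ζ = z i := by
    intro i
    by_cases h : ∃ E : Qv S, ¬ E ≤ dq i
    · obtain ⟨E, hE⟩ := h
      by_cases h1 : ∀ s, (dq i).1 s
      · by_cases h2 : ∀ s t, arc (dg (dq i)) s t
        · exfalso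
          apply hE
          refine ⟨fun s _ => h1 s, ?_⟩
          obtain ⟨s0⟩ := ‹Nonempty S›
          have h3 : ∀ s t, (dq i).2 (Sum.inr s) (Sum.inl t) := fun s t => (h2 s t).2.2
          have h4 : ∀ a, (dq i).2 a (Sum.inr s0) := by
            rintro (a | a)
            · exact (dq i).2.symm' (h3 s0 a)
            · exact (dq i).2.trans' (h3 a s0) ((dq i).2.symm' (h3 s0 s0))
          intro a b _
          exact (dq i).2.trans' (h4 a) ((dq i).2.symm' (h4 b))
        · push Not at h2
          obtain ⟨s, t, hst⟩ := h2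
          refine ⟨x s i * x t i, fun _ _ => ?_⟩
          rw [map_mul]
          by_contra h3
          exact hst (((k i).q_arc (y i) s t).2 ⟨h1 s, h1 t, h3⟩)
      · push Not at h1
        obtain ⟨s, hs⟩ := h1
        exact ⟨x s i, fun _ _ => not_not.1 hs⟩
    · push Not at h
      obtain ⟨s0⟩ := ‹Nonempty S›
      exact ⟨x s0 i, fun E hE => absurd (h E) hE⟩
  choose ζ hζ using hζ
  let msk : Qv S → W S → ∀ i, U i := fun E w i =>
    if E ≤ dq i then ev (fun s => x s i) w else ζ i
  have hz0 : ∀ i (E : Qv S), ¬ E ≤ dq i → ∀ u, ζ i * u = ζ i ∧ u * ζ i = ζ i := by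
    intro i E hE u
    constructor
    · apply hj i
      rw [map_mul, hζ i E hE]
      exact ((hz i).1 _).1
    · apply hj i
      rw [map_mul, hζ i E hE]
      exact ((hz i).1 _).2
  have hevx : ∀ (v : W S) i, ev x v i = ev (fun s => x s i) v := fun v i =>
    map_ev (Pi.evalMulHom (fun i => (U i : Type)) i) x v
  have hfev : ∀ v : W S, f (ev x v) = e (val v) := by
    intro v
    rw [map_ev, val, map_ev]
    congr 1
    funext s
    exact hx s
  have hmr : ∀ E w v, msk E (w * v) = msk E w * ev x v := by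
    intro E w v
    funext i
    show msk E (w * v) i = msk E w i * ev x v i
    rw [hevx]
    simp only [msk]
    split_ifs with h
    · exact ev_mul _ _ _
    · exact ((hz0 i E h _).1).symm
  have hml : ∀ E w v, msk E (v * w) = ev x v * msk E w := by
    intro E w v
    funext i
    show msk E (v * w) i = ev x v i * msk E w i
    rw [hevx]
    simp only [msk]
    split_ifs with h
    · exact ev_mul _ _ _
    · exact ((hz0 i E h _).2).symm
  let Y : Sys2 V S T :=
    { h := fun E w => f (msk E w)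
      h_mul := by
        intro E u v
        rw [← map_mul]
        congr 1
        funext i
        show msk E (u * v) i = msk E u i * msk E v i
        simp only [msk]
        split_ifs with h
        · exact ev_mul _ _ _
        · exact ((hz0 i E h _).1).symm
      h_r := by
        intro E w s t
        rw [hmr, hmr, map_mul, map_mul, hfev, hfev]
        rfl
      h_l := by
        intro E w s t
        rw [hml, hml, map_mul, map_mul, hfev, hfev]
        rfl
      h_arcs := by
        intro E w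
        congr 1
        funext i
        simp only [msk]
        by_cases h : E ≤ dq i
        · by_cases h' : qarcs w ≤ dq i
          · rw [if_pos h, if_pos (sup_le h h')]
          · have h2 : ¬ E ⊔ qarcs w ≤ dq i := fun h3 => h' (le_sup_right.trans h3)
            rw [if_pos h, if_neg h2]
            apply hj i
            rw [hζ i _ h2, map_ev]
            by_contra h3
            exact h' ((qarcs_le_iff w).2 (((k i).ev_ne (y i) (hz i) w).1 h3))
        · have h2 : ¬ E ⊔ qarcs w ≤ dq i := fun h3 => h (le_sup_left.trans h3)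
          rw [if_neg h, if_neg h2]
      h_lab := by
        intro E
        have h1 : ∀ i, LabQ V E (fun v v' => E ≤ dq i → ev (y i) v = ev (y i) v') := by
          intro i
          by_cases hE : E ≤ dq i
          · obtain ⟨G, _, lb, h1, h2⟩ := (k i).labQ (y i) (hz i)
            exact ⟨G, _, lb, h1, fun p p' a b c d e _ =>
              h2 p p' (qpath_mono hE a) (qpath_mono hE b) (hE.2 c) (hE.2 d) e⟩
          · exact ⟨Unit, inferInstance, fun _ => 1, V.unit, fun p p' _ _ _ _ _ h =>
              absurd h hE⟩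
        refine LabQ.mono (LabQ.pi _ h1) ?_
        intro v v' h E' hE'
        congr 1
        funext i
        simp only [msk]
        by_cases h2 : E' ≤ dq i
        · rw [if_pos h2, if_pos h2]
          apply hj i
          rw [map_ev, map_ev]
          exact h i (hE'.trans h2)
        · rw [if_neg h2, if_neg h2] }
  have hbot : ∀ v : W S, Y.h ⊥ v = e (val v) := by
    intro v
    rw [← hfev]
    show f (msk ⊥ v) = f (ev x v)
    congr 1
    funext i
    rw [hevx]
    exact if_pos bot_le
  have := Y.main hk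
  rw [hbot, hbot] at this
  exact he this

section new
variable (V : PV) {S : Type} [Semigroup S] [Finite S]

/-- the new factor attached to a quiver -/
theorem factor {m : ℕ} (hm : RealQB V m) [Nonempty S] (D : Qv S) :
    ∃ (M : FinSg) (g : S → M), M ∈ BS V ∧
      Nat.card M ≤ kB m (Nat.card S) (Nat.card S + Nat.card S * Nat.card S) ∧
      ∀ w w', ev g w = ev g w' → kap V D w w' := by
  obtain ⟨M, g, h1, h2, h3⟩ := hm S D (kap V D).toSetoid
    (fun p p' s h => (kap V D).mul h ((kap V D).refl (one s)))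
    (finite_kap (V := V) D) (kap_lab (V := V) D)
  refine ⟨M, g, h1, h2.trans ?_, ?_⟩
  · have hp : 0 < Nat.card S := Nat.card_pos
    have h4 : Nat.card (Quotient (kap V D).toSetoid) ≤ Nat.card S + Nat.card S * Nat.card S :=
      card_kap (V := V) D
    unfold kB
    apply mB_mono
    · exact Nat.mul_le_mul_left _ (Nat.succ_le_succ h4)
    · positivity
  · intro w w' h
    obtain ⟨h4, h5⟩ := h3 w w' h
    by_cases hw : path (dg D) w
    · exact (h5 hw).2.2
    · exact kap_1 D _ _ hw fun hw' => hw (h4.2 hw')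

end new

section psi
variable {V : PV} {S : Type} [Semigroup S] [Finite S] (M : Qv S → FinSg) (g : ∀ D, S → M D)

/-- the subsemigroup of values -/
def U (D : Qv S) : Subsemigroup (M D) where
  carrier := {m | ∃ w, ev (g D) w = m}
  mul_mem' := by
    rintro _ _ ⟨w, rfl⟩ ⟨w', rfl⟩
    exact ⟨w * w', ev_mul _ _ _⟩

variable {M g}

/-- a word representing an element of the new factor -/
noncomputable def wd {D : Qv S} (z : U M g D) : W S := z.2.choose

theorem wd_spec {D : Qv S} (z : U M g D) : ev (g D) (wd z) = z.1 := z.2.choose_spec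

theorem wd_mul (hev : ∀ D w w', ev (g D) w = ev (g D) w' → kap V D w w') {D : Qv S}
    (z z' : U M g D) : kap V D (wd (z * z')) (wd z * wd z') := by
  apply hev
  rw [wd_spec, ev_mul, wd_spec, wd_spec]
  rfl

variable (V) in
/-- tuples represented by one word of value `r` -/
def Cr (r : S) (z : ∀ D : Qv S, U M g D) : Prop := ∃ w, val w = r ∧ ∀ D, kap V D (wd (z D)) w

theorem cr_congr {r : S} {z z' : ∀ D : Qv S, U M g D}
    (h : ∀ D, kap V D (wd (z D)) (wd (z' D))) (hz : Cr V r z') : Cr V r z := by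
  obtain ⟨w, hw, hw'⟩ := hz
  exact ⟨w, hw, fun D => (kap V D).trans (h D) (hw' D)⟩

theorem cr_unique (hM : ∀ w w' : W S, (∀ D, kap V D w w') → val w = val w') {r r' : S}
    {z : ∀ D : Qv S, U M g D} (h : Cr V r z) (h' : Cr V r' z) : r = r' := by
  obtain ⟨w, rfl, hw⟩ := h
  obtain ⟨w', rfl, hw'⟩ := h'
  exact hM w w' fun D => (kap V D).trans ((kap V D).symm (hw D)) (hw' D)

/-- the congruence on the product of the new factors -/
def psi (hev : ∀ D w w', ev (g D) w = ev (g D) w' → kap V D w w')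
    (hM : ∀ w w' : W S, (∀ D, kap V D w w') → val w = val w') :
    Con (∀ D : Qv S, U M g D) where
  r z z' := (∀ D, kap V D (wd (z D)) (wd (z' D))) ∨ ∃ r, Cr V r z ∧ Cr V r z'
  iseqv := by
    refine ⟨fun z => Or.inl fun D => (kap V D).refl _, ?_, ?_⟩
    · rintro z z' (h | ⟨r, h, h'⟩)
      · exact Or.inl fun D => (kap V D).symm (h D)
      · exact Or.inr ⟨r, h', h⟩
    · rintro z z' z'' (h | ⟨r, h, h'⟩) (g | ⟨r', g, g'⟩)
      · exact Or.inl fun D => (kap V D).trans (h D) (g D)
      · exact Or.inr ⟨r', cr_congr h g, g'⟩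
      · exact Or.inr ⟨r, h, cr_congr (fun D => (kap V D).symm (g D)) h'⟩
      · have := cr_unique hM h' g
        subst this
        exact Or.inr ⟨r, h, g'⟩
  mul' := by
    have key : ∀ a b c d : ∀ D : Qv S, U M g D,
        ((∀ D, kap V D (wd (a D)) (wd (b D))) ∨ ∃ r, Cr V r a ∧ Cr V r b) →
        ((∀ D, kap V D (wd (c D)) (wd (d D))) ∨ ∃ r, Cr V r c ∧ Cr V r d) →
        ∀ D, kap V D (wd ((a * c) D)) (wd ((b * d) D)) := by
      intro a b c d h g D
      have h1 : ∀ x : W S, kap V D (wd (a D) * x) (wd (b D) * x) := by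
        intro x
        rcases h with h | ⟨r, ⟨w, hw, hw'⟩, ⟨v, hv, hv'⟩⟩
        · exact (kap V D).mul (h D) ((kap V D).refl x)
        · have e1 : kap V D (wd (a D) * x) (w * x) := (kap V D).mul (hw' D) ((kap V D).refl x)
          have e2 : kap V D (wd (b D) * x) (v * x) := (kap V D).mul (hv' D) ((kap V D).refl x)
          have e3 := kap_val_left (V := V) D x w
          have e4 := kap_val_left (V := V) D x v
          rw [hw] at e3
          rw [hv] at e4
          exact (kap V D).trans e1 ((kap V D).trans e3 ((kap V D).trans ((kap V D).symm e4)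
            ((kap V D).symm e2)))
      have h2 : ∀ x : W S, kap V D (x * wd (c D)) (x * wd (d D)) := by
        intro x
        rcases g with g | ⟨r, ⟨w, hw, hw'⟩, ⟨v, hv, hv'⟩⟩
        · exact (kap V D).mul ((kap V D).refl x) (g D)
        · have e1 : kap V D (x * wd (c D)) (x * w) := (kap V D).mul ((kap V D).refl x) (hw' D)
          have e2 : kap V D (x * wd (d D)) (x * v) := (kap V D).mul ((kap V D).refl x) (hv' D)
          have e3 := kap_val (V := V) D x w
          have e4 := kap_val (V := V) D x v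
          rw [hw] at e3
          rw [hv] at e4
          exact (kap V D).trans e1 ((kap V D).trans e3 ((kap V D).trans ((kap V D).symm e4)
            ((kap V D).symm e2)))
      exact (kap V D).trans (wd_mul hev _ _) ((kap V D).trans (h1 _) ((kap V D).trans (h2 _)
        ((kap V D).symm (wd_mul hev _ _))))
    intro a b c d h g
    exact Or.inl (key a b c d h g)

variable (M g) in
/-- the diagonal -/
noncomputable def dgl (s : S) : ∀ D : Qv S, U M g D :=
  fun D => ⟨ev (g D) (one s), one s, rfl⟩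

theorem cr_dgl (hev : ∀ D w w', ev (g D) w = ev (g D) w' → kap V D w w') (s : S) :
    Cr V s (dgl M g s) := ⟨one s, rfl, fun _ => hev _ _ _ (wd_spec _)⟩

theorem cr_mul (hev : ∀ D w w', ev (g D) w = ev (g D) w' → kap V D w w')
    {z z' : ∀ D : Qv S, U M g D} {r r' : S} (h : Cr V r z) (h' : Cr V r' z') :
    Cr V (r * r') (z * z') := by
  obtain ⟨w, rfl, hw⟩ := h
  obtain ⟨w', rfl, hw'⟩ := h'
  refine ⟨w * w', ?_, fun D => (kap V D).trans (wd_mul hev _ _) ((kap V D).mul (hw D) (hw' D))⟩
  unfold val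
  exact ev_mul _ _ _

end psi

end ShpsBd

open Classical in
theorem t_shps : T_shps := by
  intro hco V m hm B hB
  obtain ⟨R', ⟨A, ⟨n, T, hT, ⟨eA⟩⟩, fA, hfA⟩, eB, heB⟩ := hB
  choose C hC j hj using hT
  have hM : ∀ w w' : W B, (∀ E, ShpsBd.kap V E w w') → val w = val w' := by
    intro w w' hk
    exact ShpsBd.shps_nec hco C hC T j hj (fA.comp eA.symm.toMulHom)
      (hfA.comp eA.symm.surjective) eB heB w w' hk
  choose M g h1 h2 hev using fun D : Qv B => ShpsBd.factor V hm D
  have hne : Nonempty B := inferInstance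
  obtain ⟨s0⟩ := hne
  let UF : Qv B → FinSg := fun D =>
    ⟨ShpsBd.U M g D, inferInstance, inferInstance, ⟨ShpsBd.dgl M g s0 D⟩⟩
  have hUF : ∀ D, UF D ∈ opS (BS V) := fun D =>
    ⟨M D, h1 D, MulMemClass.subtype (ShpsBd.U M g D), Subtype.val_injective⟩
  let PF : FinSg := ⟨∀ D, UF D, inferInstance, inferInstance, ⟨ShpsBd.dgl M g s0⟩⟩
  have hPF : PF ∈ opP (opS (BS V)) := by
    have : Nonempty (Qv B) := ⟨⊤⟩
    exact pi_mem_opP UF hUF PF (MulEquiv.refl _)
  let ψ : Con (∀ D : Qv B, ShpsBd.U M g D) := ShpsBd.psi hev hM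
  let R : FinSg := ⟨ψ.Quotient, inferInstance, Quotient.finite _,
      ⟨((ShpsBd.dgl M g s0 : ∀ D : Qv B, ShpsBd.U M g D) : ψ.Quotient)⟩⟩
  have hsurj : Surjective (fun z : (∀ D : Qv B, ShpsBd.U M g D) => (z : ψ.Quotient)) := by
    intro q
    induction q using Con.induction_on with
    | H z => exact ⟨z, rfl⟩
  refine ⟨R, ⟨PF, hPF, ⟨fun z => (z : ψ.Quotient), fun _ _ => rfl⟩, hsurj⟩, ?_, ?_⟩
  · have e1 : Nat.card R ≤ Nat.card (∀ D : Qv B, ShpsBd.U M g D) :=
      Nat.card_le_card_of_surjective _ hsurj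
    refine e1.trans ?_
    have : Fintype (Qv B) := Fintype.ofFinite _
    rw [Nat.card_pi]
    have e2 : ∀ D, Nat.card (ShpsBd.U M g D) ≤
        kB m (Nat.card B) (Nat.card B + Nat.card B * Nat.card B) := by
      intro D
      exact (Nat.card_le_card_of_injective _ Subtype.val_injective).trans (h2 D)
    refine (Finset.prod_le_prod' fun D _ => e2 D).trans ?_
    rw [Finset.prod_const, Finset.card_univ, ← Nat.card_eq_fintype_card]
    unfold shpsQ
    apply Nat.pow_le_pow_right _ card_Qv
    unfold kB mB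
    exact Nat.succ_pos _
  · refine ⟨⟨fun s => ((ShpsBd.dgl M g s : ∀ D : Qv B, ShpsBd.U M g D) : ψ.Quotient), ?_⟩, ?_⟩
    · intro s t
      rw [← Con.coe_mul]
      apply ψ.eq.2
      exact Or.inr ⟨s * t, ShpsBd.cr_dgl hev _, ShpsBd.cr_mul hev (ShpsBd.cr_dgl hev _)
        (ShpsBd.cr_dgl hev _)⟩
    · intro s t h
      rcases ψ.eq.1 h with h | ⟨r, h1, h2⟩
      · exact ShpsBd.cr_unique hM (ShpsBd.cr_dgl hev s) (ShpsBd.cr_congr h (ShpsBd.cr_dgl hev t))
      · rw [ShpsBd.cr_unique hM (ShpsBd.cr_dgl hev s) h1,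
          ShpsBd.cr_unique hM (ShpsBd.cr_dgl hev t) h2]

end Pool.Agent.H770BR
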