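import Pool.Agent.H770BR.Defs
import Pool.Agent.H502.BkJ_PV_pi
import Pool.Agent.H502.BkJ_mB_mono
import Pool.Agent.H502.BkJ_pi_mem_opP
set_option autoImplicit false

/-!
# `T_hps`: the bound for `HPS` of the class of finite Brandt semigroups over `V`

Adaptation of `Pool.Agent.H502.BkJ_hps_bd` to quivers.
-/

namespace Pool.Agent.H770BR.HPS
open Function Pool.Agent.H502.Bk Pool.Agent.H502.Bk.W Pool.Agent.H770BR

theorem LabQ_mono {V : PV} {S : Type} {q : Qv S} {R R' : W S → W S → Prop} (h : LabQ V q R)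
    (hR : ∀ p p', R p p' → R' p p') : LabQ V q R' := by
  obtain ⟨G, _, lb, h1, h2⟩ := h
  exact ⟨G, _, lb, h1, fun p p' a b c d e => hR _ _ (h2 p p' a b c d e)⟩

theorem ev_pi {S : Type} {ι : Type} (G : ι → Type) [∀ i, Group (G i)]
    (lb : ∀ i, S → G i) (p : W S) :
    ev (fun s => fun i => lb i s) p = fun i => ev (lb i) p := by
  induction p with
  | one _ => rfl
  | snoc w t ih =>
    show ev (fun s => fun i => lb i s) w * (fun i => lb i t) =
      fun i => ev (lb i) w * lb i t
    rw [ih]
    rfl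

theorem LabQ_pi {V : PV} {S : Type} {q : Qv S} {ι : Type} [Finite ι]
    (R : ι → W S → W S → Prop) (h : ∀ i, LabQ V q (R i)) :
    LabQ V q (fun p p' => ∀ i, R i p p') := by
  choose G hG lb h1 h2 using h
  refine ⟨∀ i, G i, inferInstance, fun s i => lb i s, PV.pi V G h1, ?_⟩
  intro p p' hp hp' hh hl he i
  rw [ev_pi, ev_pi] at he
  exact h2 i p p' hp hp' hh hl (congrFun he i)

/-- the quiver without composable pairs of edges -/
def q0 (S : Type) : Qv S := (fun _ => True, ⊥)

theorem not_path_q0 {S : Type} {w : W S} (h : Long w) : ¬ path (dg (q0 S)) w := by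
  intro hp
  cases w with
  | one s => exact h
  | snoc w s =>
    have h1 : (q0 S).2 (Sum.inr (last w)) (Sum.inl s) := hp.2.2.2
    have h2 : (Sum.inr (last w) : S ⊕ S) = Sum.inl s := h1
    cases h2

/-- abstract data extracted from a surjection of a product of subsemigroups of Brandt
semigroups over groups in `V` -/
structure Sys (V : PV) (S : Type) [Semigroup S] where
  F : (Qv S → W S) → S
  Str : Qv S → W S → W S → Prop
  F_mul : ∀ u v : Qv S → W S, F (u * v) = F u * F v
  F_one : ∀ s, F (fun _ => one s) = s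
  F_str : ∀ (D : Qv S) (p p' : W S), Str D p p' → ∀ (_ : DecidableEq (Qv S)) (u : Qv S → W S),
    F (update u D p) = F (update u D p')
  Str_zero : ∀ D p p', ¬ path (dg D) p → ¬ path (dg D) p' → Str D p p'
  Str_lab : ∀ D, LabQ V D (Str D)

namespace Sys

open Classical

variable {V : PV} {S : Type} [Semigroup S] (Y : Sys V S)

/-- equality in all contexts with long other coordinates -/
def E (D : Qv S) (p p' : W S) : Prop :=
  ∀ u : Qv S → W S, (∀ D', D' ≠ D → Long (u D')) → Y.F (update u D p) = Y.F (update u D p')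

theorem E_of_str {D : Qv S} {p p' : W S} (h : Y.Str D p p') : Y.E D p p' :=
  fun u _ => Y.F_str D p p' h _ u

theorem E_symm {D : Qv S} {p p' : W S} (h : Y.E D p p') : Y.E D p' p :=
  fun u hu => (h u hu).symm

theorem E_trans {D : Qv S} {p p' p'' : W S} (h : Y.E D p p') (h' : Y.E D p' p'') :
    Y.E D p p'' :=
  fun u hu => (h u hu).trans (h' u hu)

theorem E_split (D : Qv S) (p p' : W S)
    (h : ∀ a : Qv S → S, Y.F (update (fun D' => one (a D')) D p) =
      Y.F (update (fun D' => one (a D')) D p')) (t : W S) : Y.E D (p * t) (p' * t) := by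
  intro u hu
  have h1 : ∀ D', ∃ s : S, ∃ v : W S, D' ≠ D → u D' = one s * v := by
    intro D'
    by_cases hD : D' = D
    · exact ⟨head t, t, fun h => absurd hD h⟩
    · obtain ⟨s, v, hv⟩ := (hu D' hD).split
      exact ⟨s, v, fun _ => hv⟩
  choose a v hav using h1
  have h2 : ∀ q : W S, update u D (q * t) = update (fun D' => one (a D')) D q * update v D t := by
    intro q
    funext D'
    by_cases hD : D' = D
    · subst hD; simp
    · simp [hD, hav D' hD]
  rw [h2, h2, Y.F_mul, Y.F_mul, h]

/-- the right congruence -/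
def R (D : Qv S) : Setoid (W S) where
  r p p' := Y.E D p p' ∧ ∀ t, Y.E D (p * t) (p' * t)
  iseqv := ⟨fun _ => ⟨fun _ _ => rfl, fun _ _ _ => rfl⟩,
    fun h => ⟨Y.E_symm h.1, fun t => Y.E_symm (h.2 t)⟩,
    fun h h' => ⟨Y.E_trans h.1 h'.1, fun t => Y.E_trans (h.2 t) (h'.2 t)⟩⟩

theorem R_of_str {D : Qv S} {p p' : W S} (h : Y.Str D p p') : Y.R D p p' :=
  ⟨Y.E_of_str h, Y.E_split D p p' fun a => Y.F_str D p p' h _ (fun D' => one (a D'))⟩

theorem R_snoc {D : Qv S} {p p' : W S} (s : S) (h : Y.R D p p') :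
    Y.R D (snoc p s) (snoc p' s) := by
  refine ⟨h.2 (one s), fun t => ?_⟩
  have := h.2 (one s * t)
  rwa [← mul_assoc, ← mul_assoc] at this

theorem R_lab (D : Qv S) : LabQ V D (fun p p' => Y.R D p p') :=
  LabQ_mono (Y.Str_lab D) fun _ _ h => Y.R_of_str h

/-- the code of a class -/
noncomputable def code (D : Qv S) : W S → S ⊕ (((Qv S → S) → S) × S)
  | one s => Sum.inl s
  | snoc r t => Sum.inr (fun a => Y.F (update (fun D' => one (a D')) D r), t)

theorem R_of_code {D : Qv S} {p p' : W S} (h : Y.code D p = Y.code D p') : Y.R D p p' := by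
  cases p with
  | one s =>
    cases p' with
    | one s' =>
      have : s = s' := Sum.inl.inj h
      subst this
      exact (Y.R D).refl _
    | snoc w s' => simp [code] at h
  | snoc w s =>
    cases p' with
    | one s' => simp [code] at h
    | snoc w' s' =>
      have h' := Sum.inr.inj h
      have h1 : s = s' := congrArg Prod.snd h'
      subst h1
      have h2 := fun a => congrFun (congrArg Prod.fst h') a
      refine ⟨Y.E_split D w w' (fun a => h2 a) (one s), fun t => ?_⟩
      have := Y.E_split D w w' (fun a => h2 a) (one s * t)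
      rwa [← mul_assoc, ← mul_assoc] at this

theorem code_inj (D : Qv S) :
    Injective (fun q : Quotient (Y.R D) => Y.code D (Quotient.out q)) := by
  intro q q' h
  have := Quotient.sound (s := Y.R D) (Y.R_of_code h)
  have e : ∀ q : Quotient (Y.R D), Quotient.mk (Y.R D) (Quotient.out q) = q := fun q =>
    Quotient.out_eq q
  rwa [e, e] at this

theorem finite_Q [Finite S] (D : Qv S) : Finite (Quotient (Y.R D)) := by
  have := Fintype.ofFinite S
  exact Finite.of_injective _ (Y.code_inj D)

theorem card_Q [Finite S] [Nonempty S] (D : Qv S) :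
    Nat.card (Quotient (Y.R D)) ≤ qQ (Nat.card S) := by
  have := Fintype.ofFinite S
  have hpos : 0 < Nat.card S := Nat.card_pos
  refine (Nat.card_le_card_of_injective _ (Y.code_inj D)).trans ?_
  rw [Nat.card_sum, Nat.card_prod, Nat.card_fun, Nat.card_fun]
  unfold qQ
  refine Nat.add_le_add_left (Nat.mul_le_mul_right _ ?_) _
  exact Nat.pow_le_pow_right hpos (Nat.pow_le_pow_right hpos card_Qv)

variable {M : Qv S → FinSg} (g : ∀ D, S → M D)

/-- the subsemigroup generated by the generators -/
def U (D : Qv S) : Subsemigroup (M D) where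
  carrier := {r | ∃ w, ev (g D) w = r}
  mul_mem' := by
    rintro _ _ ⟨w, rfl⟩ ⟨w', rfl⟩
    exact ⟨w * w', ev_mul _ _ _⟩

def diag (s : S) : ∀ D, U g D :=
  fun D => ⟨ev (g D) (one s), one s, rfl⟩

/-- the property of a realisation -/
def Good : Prop := ∀ D w w', ev (g D) w = ev (g D) w' → (path (dg D) w ↔ path (dg D) w') ∧
    (path (dg D) w → D.2 (Sum.inl (head w)) (Sum.inl (head w')) ∧
      D.2 (Sum.inr (last w)) (Sum.inr (last w')) ∧ Y.R D w w')

variable {g}

theorem diag_inj (hg : Good Y g) {s t : S} (h : diag g s = diag g t) : s = t := by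
  have h1 : ev (g (q0 S)) (one s) = ev (g (q0 S)) (one t) :=
    congrArg Subtype.val (congrFun h (q0 S))
  have h2 : path (dg (q0 S)) (one s) := trivial
  have h3 : (q0 S).2 (Sum.inl s) (Sum.inl t) := ((hg (q0 S) _ _ h1).2 h2).1
  have h4 : (Sum.inl s : S ⊕ S) = Sum.inl t := h3
  exact Sum.inl.inj h4

open Classical in
noncomputable def rep (t : ∀ D, U g D) : Qv S → W S :=
  if h : ∃ s, t = diag g s then fun _ => one h.choose else fun D =>
    if h' : ∃ w, Long w ∧ ev (g D) w = (t D).1 then h'.choose else (t D).2.choose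

theorem rep_spec (t : ∀ D, U g D) (D : Qv S) : ev (g D) (rep t D) = (t D).1 := by
  unfold rep
  by_cases h : ∃ s, t = diag g s
  · rw [dif_pos h]
    have := h.choose_spec
    conv_rhs => rw [this]
    rfl
  · rw [dif_neg h]
    by_cases h' : ∃ w, Long w ∧ ev (g D) w = (t D).1
    · rw [dif_pos h']
      exact h'.choose_spec.2
    · rw [dif_neg h']
      exact (t D).2.choose_spec

theorem rep_long (t : ∀ D, U g D) (D : Qv S) (h : ¬ ∃ s, t = diag g s)
    (h' : ∃ w, Long w ∧ ev (g D) w = (t D).1) : Long (rep t D) := by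
  unfold rep
  rw [dif_neg h, dif_pos h']
  exact h'.choose_spec.1

theorem rep_diag (hg : Good Y g) (s : S) : rep (diag g s) = fun _ => one s := by
  have h : ∃ s', diag g s = diag g s' := ⟨s, rfl⟩
  unfold rep
  rw [dif_pos h]
  have := Y.diag_inj hg h.choose_spec
  rw [← this]

theorem ev_rep_mul (t t' : ∀ D, U g D) (D : Qv S) :
    ev (g D) (rep t D * rep t' D) = ((t * t') D).1 := by
  rw [ev_mul, rep_spec, rep_spec]
  rfl

theorem mul_not_diag (hg : Good Y g) (t t' : ∀ D, U g D) : ¬ ∃ s, t * t' = diag g s := by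
  rintro ⟨s, hs⟩
  have h1 : ev (g (q0 S)) (one s) = ev (g (q0 S)) (rep t (q0 S) * rep t' (q0 S)) := by
    rw [ev_rep_mul, hs]
    rfl
  have h2 : path (dg (q0 S)) (one s) := trivial
  exact not_path_q0 (long_mul _ _) ((hg (q0 S) _ _ h1).1.1 h2)

/-- long words with the same values -/
theorem F_eq [Finite S] (hg : Good Y g) (v u : Qv S → W S) (hv : ∀ D, Long (v D))
    (hu : ∀ D, Long (u D)) (h : ∀ D, ev (g D) (v D) = ev (g D) (u D)) : Y.F v = Y.F u := by
  have key : ∀ D, Y.E D (v D) (u D) := by
    intro D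
    obtain ⟨hpi, hR⟩ := hg D _ _ (h D)
    by_cases hp : path (dg D) (v D)
    · exact (hR hp).2.2.1
    · exact Y.E_of_str (Y.Str_zero D _ _ hp fun hq => hp (hpi.2 hq))
  have := Fintype.ofFinite (Qv S)
  refine change_all Y.F (fun D p q => Long q ∧ Y.E D p q) (fun w => ∀ D, Long (w D)) ?_ v u hv
    (fun D => ⟨hu D, key D⟩)
  rintro w hw D b ⟨hb1, hb2⟩
  constructor
  · have := hb2 w (fun D' _ => hw D')
    rwa [update_eq_self] at this
  · intro D'
    by_cases hD : D' = D
    · subst hD; simpa using hb1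
    · rw [update_of_ne hD]; exact hw D'

noncomputable def f' [Finite S] (hg : Good Y g) : (∀ D, U g D) →ₙ* S where
  toFun t := Y.F (rep t)
  map_mul' t t' := by
    rw [← Y.F_mul]
    apply Y.F_eq hg
    · intro D
      exact rep_long _ _ (Y.mul_not_diag hg t t') ⟨_, long_mul _ _, ev_rep_mul t t' D⟩
    · intro D; exact long_mul _ _
    · intro D
      rw [rep_spec]
      exact (ev_rep_mul t t' D).symm

theorem f'_surj [Finite S] (hg : Good Y g) : Surjective (Y.f' hg) := by
  intro s
  refine ⟨diag g s, ?_⟩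
  show Y.F (rep (diag g s)) = s
  rw [Y.rep_diag hg, Y.F_one]

end Sys

open Classical in
/-- Reduction for `HPS`. -/
theorem hps_sys (hco : T_co) {V : PV} {S : Type} [Semigroup S] {ι : Type} [Finite ι]
    (C : ι → FinSg) (hC : ∀ i, C i ∈ BS V) (U : ι → FinSg) (j : ∀ i, U i →ₙ* C i)
    (hj : ∀ i, Injective (j i)) (f : (∀ i, U i) →ₙ* S) (hf : Surjective f) :
    Nonempty (Sys V S) := by
  have := Fintype.ofFinite ι
  choose x hx using hf
  choose z hz using fun i => zs_of_zeroSimple (hC i).1
  have k : ∀ i, Co V (z i) := fun i => (hco V (C i) (z i) (hz i) (hC i).2.2 (hC i).2.1).some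
  let y : ∀ i, S → C i := fun i s => j i (x s i)
  let qf : ι → Qv S := fun i => (k i).q (y i)
  exact ⟨
    { F := fun u => f fun i => ev (fun s => x s i) (u (qf i))
      Str := fun D p p' => ∀ i, qf i = D → ev (y i) p = ev (y i) p'
      F_mul := by
        intro u v
        rw [← map_mul]
        congr 1
        funext i
        exact ev_mul _ _ _
      F_one := fun s => hx s
      F_str := by
        intro D p p' h _ u
        congr 1
        funext i
        by_cases hi : qf i = D
        · have h1 := h i hi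
          rw [hi, update_self, update_self]
          apply hj i
          rw [map_ev, map_ev]
          exact h1
        · rw [update_of_ne hi, update_of_ne hi]
      Str_zero := by
        rintro D p p' hp hp' i rfl
        have h1 : ev (y i) p = z i := by
          by_contra h; exact hp (((k i).ev_ne (y i) (hz i) p).1 h)
        have h2 : ev (y i) p' = z i := by
          by_contra h; exact hp' (((k i).ev_ne (y i) (hz i) p').1 h)
        rw [h1, h2]
      Str_lab := by
        intro D
        refine (LabQ_pi (fun i p p' => qf i = D → ev (y i) p = ev (y i) p') ?_)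
        intro i
        by_cases hi : qf i = D
        · subst hi
          exact LabQ_mono ((k i).labQ (y i) (hz i)) fun p p' h _ => h
        · exact LabQ_mono (LabQ_pi (ι := Empty) (fun i _ _ => True) (fun i => i.elim))
            fun p p' _ h => absurd h hi }⟩

end Pool.Agent.H770BR.HPS

namespace Pool.Agent.H770BR
open Function Pool.Agent.H502.Bk Pool.Agent.H502.Bk.W Pool.Agent.H770BR.HPS

theorem kB_mono {m n c c' : ℕ} (h : c ≤ c') (hn : 0 < n) : kB m n c ≤ kB m n c' :=
  mB_mono (Nat.mul_le_mul_left _ (Nat.add_le_add_right h 1)) (by positivity)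

theorem kB_pos (m n c : ℕ) : 0 < kB m n c := Nat.succ_pos _

theorem t_hps : T_hps := by
  intro hco V m hm B hB
  obtain ⟨A, ⟨n, T0, hT0, ⟨e⟩⟩, f0, hf0⟩ := hB
  choose C hC j hj using hT0
  obtain ⟨Y⟩ := hps_sys hco (V := V) C hC T0 j hj (f0.comp e.symm.toMulHom)
    (hf0.comp e.symm.surjective)
  have hfin : Finite B := inferInstance
  have hreal : ∀ D : Qv B, ∃ (M : FinSg) (g : B → M), M ∈ BS V ∧
      Nat.card M ≤ kB m (Nat.card B) (Nat.card (Quotient (Y.R D))) ∧
      ∀ w w', ev g w = ev g w' → (path (dg D) w ↔ path (dg D) w') ∧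
        (path (dg D) w → D.2 (Sum.inl (head w)) (Sum.inl (head w')) ∧
          D.2 (Sum.inr (last w)) (Sum.inr (last w')) ∧ Y.R D w w') := fun D =>
    hm B D (Y.R D) (fun _ _ s h => Y.R_snoc s h) (Y.finite_Q D) (Y.R_lab D)
  choose M g hM1 hM2 hM3 using hreal
  have hg : Sys.Good Y g := hM3
  have hne : ∀ D, Nonempty (Sys.U g D) := fun D => by
    obtain ⟨b⟩ := B.ne
    exact ⟨Sys.diag g b D⟩
  have := Fintype.ofFinite (Qv B)
  let T : FinSg := ⟨∀ D, Sys.U g D, inferInstance, inferInstance, inferInstance⟩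
  refine ⟨T, ?_, ?_, Y.f' hg, Y.f'_surj hg⟩
  · refine pi_mem_opP (ι := Qv B)
      (fun D => (⟨Sys.U g D, inferInstance, inferInstance, hne D⟩ : FinSg)) ?_ T (MulEquiv.refl _)
    intro D
    exact ⟨M D, hM1 D, MulMemClass.subtype (Sys.U g D), Subtype.val_injective⟩
  · show Nat.card (∀ D, Sys.U g D) ≤ _
    rw [Nat.card_pi]
    have hB0 : 0 < Nat.card B := Nat.card_pos
    have hle : ∀ D ∈ (Finset.univ : Finset (Qv B)),
        Nat.card (Sys.U g D) ≤ kB m (Nat.card B) (qQ (Nat.card B)) := by
      intro D _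
      have h1 : Nat.card (Sys.U g D) ≤ Nat.card (M D) :=
        Nat.card_le_card_of_injective _ Subtype.val_injective
      exact h1.trans ((hM2 D).trans (kB_mono (Y.card_Q D) hB0))
    refine (Finset.prod_le_pow_card _ _ _ hle).trans ?_
    unfold hpsQ
    rw [Finset.card_univ, ← Nat.card_eq_fintype_card]
    exact Nat.pow_le_pow_right (kB_pos _ _ _) card_Qv

end Pool.Agent.H770BR
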